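import Pool.Agent.Lib.MP_926cc3_nt.RS.Path
import Pool.Agent.Lib.MP_391708_nt.QPA.FL

set_option autoImplicit false
set_option linter.unusedVariables false

open Filter Topology

namespace Pool.Agent.Lib.MP_926cc3_nt.RS

namespace Gra

open Classical in
/-- indicator -/
noncomputable def r (w n : ℕ) : ℝ := if NoSmall w n then 1 else 0

theorem r_nonneg (w n : ℕ) : 0 ≤ r w n := by unfold r; split_ifs <;> norm_num
theorem r_le_one (w n : ℕ) : r w n ≤ 1 := by unfold r; split_ifs <;> norm_num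

theorem V_ge (w : ℕ) (hw : 2 ≤ w) : 1 / (w - 1 : ℝ) ≤ V w := by
  induction w, hw using Nat.le_induction with
  | base =>
    have : (Finset.range 2).filter Nat.Prime = ∅ := by decide
    rw [V, this]; norm_num
  | succ w hw ih =>
    have hw2 : (2 : ℝ) ≤ w := by exact_mod_cast hw
    have e : 1 / (((w + 1 : ℕ) : ℝ) - 1) = 1 / (w - 1 : ℝ) * (1 - 1 / (w : ℝ)) := by
      have h1 : (w : ℝ) - 1 ≠ 0 := by linarith
      have h2 : (w : ℝ) ≠ 0 := by linarith
      push_cast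
      rw [add_sub_cancel_right]
      field_simp
    have h0 : 0 ≤ 1 - 1 / (w : ℝ) := by
      rw [sub_nonneg, div_le_one (by linarith)]; linarith
    have hVnn : 0 ≤ 1 / (w - 1 : ℝ) := by
      apply div_nonneg zero_le_one; linarith
    rw [e]
    by_cases hp : w.Prime
    · have : V (w + 1) = V w * (1 - 1 / (w : ℝ)) := by
        rw [V, Finset.range_add_one, Finset.filter_insert, if_pos hp, Finset.prod_insert (by simp)]
        rw [V]; ring
      rw [this]
      exact mul_le_mul_of_nonneg_right ih h0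
    · have : V (w + 1) = V w := by
        rw [V, Finset.range_add_one, Finset.filter_insert, if_neg hp, V]
      rw [this]
      calc 1 / (w - 1 : ℝ) * (1 - 1 / (w : ℝ)) ≤ 1 / (w - 1 : ℝ) * 1 := by
            apply mul_le_mul_of_nonneg_left _ hVnn
            have : 0 ≤ 1 / (w : ℝ) := by positivity
            linarith
        _ ≤ V w := by rw [mul_one]; exact ih

theorem V_pos (w : ℕ) (hw : 2 ≤ w) : 0 < V w := by
  have hw2 : (2 : ℝ) ≤ w := by exact_mod_cast hw
  exact lt_of_lt_of_le (by apply div_pos one_pos; linarith) (V_ge w hw)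

theorem V_inv_le (w : ℕ) (hw : 2 ≤ w) : (V w)⁻¹ ≤ w := by
  have hw2 : (2 : ℝ) ≤ w := by exact_mod_cast hw
  have h1 := V_ge w hw
  have h2 : (0 : ℝ) < (w : ℝ) - 1 := by linarith
  have h3 : (V w)⁻¹ ≤ (1 / (w - 1 : ℝ))⁻¹ := inv_anti₀ (by positivity) h1
  rw [one_div, inv_inv] at h3
  linarith

theorem card_dvd (a e δ : ℕ) (hδ : 1 ≤ δ) (hae : a ≤ e) :
    |(((Finset.Ioc a e).filter (fun n => δ ∣ n)).card : ℝ) - ((e : ℝ) - a) / δ| ≤ 1 := by
  have h1 : (Finset.Ioc 0 e).filter (fun n => δ ∣ n) =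
      (Finset.Ioc 0 a).filter (fun n => δ ∣ n) ∪ (Finset.Ioc a e).filter (fun n => δ ∣ n) := by
    ext n
    simp only [Finset.mem_filter, Finset.mem_Ioc, Finset.mem_union]
    constructor
    · rintro ⟨⟨h1, h2⟩, h3⟩
      by_cases h : n ≤ a
      · exact Or.inl ⟨⟨h1, h⟩, h3⟩
      · exact Or.inr ⟨⟨by omega, h2⟩, h3⟩
    · rintro (⟨⟨h1, h2⟩, h3⟩ | ⟨⟨h1, h2⟩, h3⟩)
      · exact ⟨⟨h1, h2.trans hae⟩, h3⟩
      · exact ⟨⟨by omega, h2⟩, h3⟩
  have h2 : Disjoint ((Finset.Ioc 0 a).filter (fun n => δ ∣ n))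
      ((Finset.Ioc a e).filter (fun n => δ ∣ n)) := by
    rw [Finset.disjoint_left]
    intro n hn hn'
    rw [Finset.mem_filter, Finset.mem_Ioc] at hn hn'
    omega
  have h3 := congrArg Finset.card h1
  rw [Finset.card_union_of_disjoint h2, Nat.Ioc_filter_dvd_card_eq_div,
    Nat.Ioc_filter_dvd_card_eq_div] at h3
  have h4 : (((Finset.Ioc a e).filter (fun n => δ ∣ n)).card : ℝ) =
      ((e / δ : ℕ) : ℝ) - ((a / δ : ℕ) : ℝ) := by
    have : ((e / δ : ℕ) : ℝ) = ((a / δ : ℕ) : ℝ) +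
        (((Finset.Ioc a e).filter (fun n => δ ∣ n)).card : ℝ) := by exact_mod_cast h3
    linarith
  rw [h4]
  have hδ' : (0 : ℝ) < δ := by exact_mod_cast hδ
  have h5 : ((e / δ : ℕ) : ℝ) ≤ (e : ℝ) / δ := Nat.cast_div_le
  have h6 : ((a / δ : ℕ) : ℝ) ≤ (a : ℝ) / δ := Nat.cast_div_le
  have h7 : (e : ℝ) / δ < ((e / δ : ℕ) : ℝ) + 1 := by
    rw [div_lt_iff₀ hδ']
    have := Nat.lt_div_mul_add (a := e) (b := δ) (by omega)
    have h8 : (e : ℝ) < ((e / δ * δ + δ : ℕ) : ℝ) := by exact_mod_cast this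
    push_cast at h8
    linarith
  have h8 : (a : ℝ) / δ < ((a / δ : ℕ) : ℝ) + 1 := by
    rw [div_lt_iff₀ hδ']
    have := Nat.lt_div_mul_add (a := a) (b := δ) (by omega)
    have h8 : (a : ℝ) < ((a / δ * δ + δ : ℕ) : ℝ) := by exact_mod_cast this
    push_cast at h8
    linarith
  rw [sub_div, abs_le]
  constructor <;> linarith

open Classical in
/-- the fundamental lemma in intervals -/
theorem interval : ∃ C : ℝ, 0 < C ∧ ∀ (b w a e : ℕ), 2 ≤ w → a ≤ e →
    |∑ n ∈ Finset.Ioc a e, r w n - ((e : ℝ) - a) * V w| ≤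
      C * Real.exp (-(b : ℝ)) * ((e : ℝ) - a) * V w + C * (w : ℝ) ^ (8 * b + 17) := by
  obtain ⟨C, hC, h⟩ := Pool.Agent.Lib.MP391708.QPA.specFL
  refine ⟨C, hC, ?_⟩
  intro b w a e hw hae
  have hw2 : (2 : ℝ) ≤ w := by exact_mod_cast hw
  have hae' : (0 : ℝ) ≤ (e : ℝ) - a := by
    have : (a : ℝ) ≤ e := by exact_mod_cast hae
    linarith
  have hPB : Pool.Agent.Lib.MP391708.QPA.PB (w : ℝ) = (Finset.range w).filter Nat.Prime := by
    ext p
    simp [Pool.Agent.Lib.MP391708.QPA.PB, Nat.ceil_natCast]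
  have h1 := h b w hw2 (Finset.Ioc a e) (fun n => n) (fun _ => 1) ((e : ℝ) - a)
    (fun p => 1 / (p : ℝ)) hae' (fun _ _ => zero_le_one) (by
      intro p hp
      have h2 : (2 : ℝ) ≤ p := by exact_mod_cast hp.two_le
      have h3 : 1 / (p : ℝ) ≤ 1 / 2 := one_div_le_one_div_of_le (by norm_num) h2
      refine ⟨by positivity, ?_, by linarith⟩
      apply div_le_div_of_nonneg_right (by norm_num) (by linarith))
  have e1 : ∑ i ∈ Finset.Ioc a e, (1 : ℝ) * Pool.Agent.Lib.MP391708.QPA.rInd (w : ℝ) i =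
      ∑ n ∈ Finset.Ioc a e, r w n := by
    apply Finset.sum_congr rfl
    intro n hn
    rw [one_mul, r, Pool.Agent.Lib.MP391708.QPA.rInd]
    have : Pool.Agent.Lib.MP391708.QPA.Rough (w : ℝ) n ↔ NoSmall w n := by
      unfold Pool.Agent.Lib.MP391708.QPA.Rough NoSmall
      simp only [Nat.cast_le]
    by_cases h : NoSmall w n
    · rw [if_pos h, if_pos (this.2 h)]
    · rw [if_neg h, if_neg (fun h' => h (this.1 h'))]
  rw [e1, hPB] at h1
  change |∑ n ∈ Finset.Ioc a e, r w n - ((e : ℝ) - a) * V w| ≤ C * Real.exp (-(b : ℝ)) *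
    ((e : ℝ) - a) * V w + _ at h1
  refine h1.trans ?_
  apply add_le_add le_rfl
  -- the remainder
  rw [mul_assoc]
  apply mul_le_mul_of_nonneg_left _ hC.le
  set D := (Finset.Icc 1 ⌊(w : ℝ) ^ (8 * b + 16)⌋₊).filter
      (fun δ => Squarefree δ ∧ ∀ p : ℕ, p.Prime → p ∣ δ → (p : ℝ) < w) with hD
  have h2 : ∑ δ ∈ D, |∑ i ∈ (Finset.Ioc a e).filter (fun i => δ ∣ i), (1 : ℝ) -
      ((e : ℝ) - a) * ∏ p ∈ δ.primeFactors, 1 / (p : ℝ)| ≤ ∑ δ ∈ D, (1 : ℝ) := by
    apply Finset.sum_le_sum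
    intro δ hδ
    rw [hD, Finset.mem_filter, Finset.mem_Icc] at hδ
    have e2 : ∏ p ∈ δ.primeFactors, 1 / (p : ℝ) = 1 / (δ : ℝ) := by
      rw [Finset.prod_div_distrib, Finset.prod_const_one]
      congr 1
      have := Nat.prod_primeFactors_of_squarefree hδ.2.1
      rw [← Nat.cast_prod, this]
    rw [e2, Finset.sum_const, nsmul_eq_mul, mul_one, mul_one_div]
    exact card_dvd a e δ hδ.1.1 hae
  have h3 : ∑ δ ∈ D, (1 : ℝ) ≤ (w : ℝ) ^ (8 * b + 16) := by
    rw [Finset.sum_const, nsmul_eq_mul, mul_one]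
    calc (D.card : ℝ) ≤ ((Finset.Icc 1 ⌊(w : ℝ) ^ (8 * b + 16)⌋₊).card : ℝ) :=
          Nat.cast_le.2 (Finset.card_filter_le _ _)
      _ = (⌊(w : ℝ) ^ (8 * b + 16)⌋₊ : ℝ) := by simp
      _ ≤ _ := Nat.floor_le (by positivity)
  have h4 : 1 + Real.log (w : ℝ) ≤ w := by
    have := Real.log_le_sub_one_of_pos (show (0 : ℝ) < w by linarith)
    linarith
  have h5 : 0 ≤ Real.log (w : ℝ) := Real.log_nonneg (by linarith)
  calc (1 + Real.log (w : ℝ)) * ∑ δ ∈ D, |∑ i ∈ (Finset.Ioc a e).filter (fun i => δ ∣ i), (1 : ℝ) -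
      ((e : ℝ) - a) * ∏ p ∈ δ.primeFactors, 1 / (p : ℝ)| ≤ w * (w : ℝ) ^ (8 * b + 16) := by
        apply mul_le_mul h4 (h2.trans h3) _ (by linarith)
        exact Finset.sum_nonneg (fun _ _ => abs_nonneg _)
    _ = (w : ℝ) ^ (8 * b + 17) := by ring

/-- one piece -/
theorem piece {C : ℝ} (hC : 0 < C) {b w a e : ℕ} (hw : 2 ≤ w) (hae : a ≤ e)
    (h : |∑ n ∈ Finset.Ioc a e, r w n - ((e : ℝ) - a) * V w| ≤
      C * Real.exp (-(b : ℝ)) * ((e : ℝ) - a) * V w + C * (w : ℝ) ^ (8 * b + 17)) :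
    |∑ n ∈ Finset.Ioc a e, (r w n / V w - 1)| ≤
      C * Real.exp (-(b : ℝ)) * ((e : ℝ) - a) + C * (w : ℝ) ^ (8 * b + 18) := by
  have hV := V_pos w hw
  have e1 : ∑ n ∈ Finset.Ioc a e, (r w n / V w - 1) =
      (∑ n ∈ Finset.Ioc a e, r w n - ((e : ℝ) - a) * V w) * (V w)⁻¹ := by
    rw [Finset.sum_sub_distrib, ← Finset.sum_div, Finset.sum_const, Nat.card_Ioc, nsmul_eq_mul,
      mul_one, Nat.cast_sub hae]
    field_simp
  rw [e1, abs_mul, abs_of_pos (inv_pos.2 hV)]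
  calc |∑ n ∈ Finset.Ioc a e, r w n - ((e : ℝ) - a) * V w| * (V w)⁻¹
      ≤ (C * Real.exp (-(b : ℝ)) * ((e : ℝ) - a) * V w + C * (w : ℝ) ^ (8 * b + 17)) *
        (V w)⁻¹ := by
        apply mul_le_mul_of_nonneg_right h (inv_pos.2 hV).le
    _ = C * Real.exp (-(b : ℝ)) * ((e : ℝ) - a) + C * (w : ℝ) ^ (8 * b + 17) * (V w)⁻¹ := by
        field_simp
    _ ≤ C * Real.exp (-(b : ℝ)) * ((e : ℝ) - a) + C * (w : ℝ) ^ (8 * b + 17) * w := by
        have := V_inv_le w hw
        gcongr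
    _ = _ := by ring

/-- the piece of a monotone level is an interval -/
theorem fiber (w : ℕ → ℕ) (hm : Monotone w) (a e v : ℕ) : ∃ a' e' : ℕ, a' ≤ e' ∧
    (Finset.Ioc a e).filter (fun n => w n = v) = Finset.Ioc a' e' := by
  set s := (Finset.Ioc a e).filter (fun n => w n = v) with hs
  have hmem : ∀ n, n ∈ s ↔ (a < n ∧ n ≤ e) ∧ w n = v := by
    intro n
    rw [hs, Finset.mem_filter, Finset.mem_Ioc]
  by_cases hne : s.Nonempty
  · have h1 := Finset.min'_mem s hne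
    have h2 := Finset.max'_mem s hne
    have h3 := Finset.min'_le s _ h2
    have hmin : ∀ n ∈ s, s.min' hne ≤ n := fun n hn => Finset.min'_le s n hn
    have hmax : ∀ n ∈ s, n ≤ s.max' hne := fun n hn => Finset.le_max' s n hn
    generalize s.min' hne = x at h1 h3 hmin
    generalize s.max' hne = y at h2 h3 hmax
    rw [hmem] at h1 h2
    refine ⟨x - 1, y, by omega, ?_⟩
    ext n
    rw [Finset.mem_Ioc]
    constructor
    · intro hn
      have h4 := hmin _ hn
      have h5 := hmax _ hn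
      constructor
      · omega
      · exact h5
    · rintro ⟨h4, h5⟩
      have h4' : x ≤ n := by omega
      have h7 := hm h4'
      have h8 := hm h5
      rw [hmem]
      refine ⟨⟨by omega, by omega⟩, by omega⟩
  · rw [Finset.not_nonempty_iff_eq_empty] at hne
    exact ⟨a, a, le_rfl, by rw [hne]; simp⟩

/-- the window sum for a monotone level -/
theorem window {C : ℝ} (hC : 0 < C) (hint : ∀ (b w a e : ℕ), 2 ≤ w → a ≤ e →
    |∑ n ∈ Finset.Ioc a e, r w n - ((e : ℝ) - a) * V w| ≤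
      C * Real.exp (-(b : ℝ)) * ((e : ℝ) - a) * V w + C * (w : ℝ) ^ (8 * b + 17))
    (w : ℕ → ℕ) (hm : Monotone w) (h2 : ∀ n, 2 ≤ w n) (b a e : ℕ) (hae : a ≤ e) :
    |∑ n ∈ Finset.Ioc a e, (r (w n) n / V (w n) - 1)| ≤
      C * Real.exp (-(b : ℝ)) * ((e : ℝ) - a) + 2 * C * (w e : ℝ) ^ (8 * b + 19) := by
  classical
  have hmaps : ∀ n ∈ Finset.Ioc a e, w n ∈ Finset.range (w e + 1) := by
    intro n hn
    rw [Finset.mem_Ioc] at hn
    rw [Finset.mem_range]
    have := hm hn.2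
    omega
  rw [← Finset.sum_fiberwise_of_maps_to hmaps]
  have hwe2 : (2 : ℝ) ≤ w e := by exact_mod_cast h2 e
  have hfib : ∀ v ∈ Finset.range (w e + 1),
      |∑ n ∈ (Finset.Ioc a e).filter (fun n => w n = v), (r (w n) n / V (w n) - 1)| ≤
      C * Real.exp (-(b : ℝ)) * (((Finset.Ioc a e).filter (fun n => w n = v)).card : ℝ) +
        C * (w e : ℝ) ^ (8 * b + 18) := by
    intro v hv
    rw [Finset.mem_range] at hv
    obtain ⟨a', e', hae', hf⟩ := fiber w hm a e v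
    by_cases hv2 : 2 ≤ v
    · have e1 : ∑ n ∈ (Finset.Ioc a e).filter (fun n => w n = v), (r (w n) n / V (w n) - 1) =
          ∑ n ∈ Finset.Ioc a' e', (r v n / V v - 1) := by
        rw [← hf]
        apply Finset.sum_congr rfl
        intro n hn
        rw [Finset.mem_filter] at hn
        rw [hn.2]
      rw [e1, hf]
      have h3 := piece hC hv2 hae' (hint b v a' e' hv2 hae')
      have h4 : ((Finset.Ioc a' e').card : ℝ) = (e' : ℝ) - a' := by
        rw [Nat.card_Ioc, Nat.cast_sub hae']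
      rw [h4]
      refine h3.trans ?_
      have h5 : (v : ℝ) ≤ w e := by exact_mod_cast (by omega : v ≤ w e)
      gcongr
    · have : (Finset.Ioc a e).filter (fun n => w n = v) = ∅ := by
        rw [Finset.filter_eq_empty_iff]
        intro n hn h
        have := h2 n
        omega
      rw [this]
      simp only [Finset.sum_empty, abs_zero, Finset.card_empty, Nat.cast_zero, mul_zero, zero_add]
      positivity
  calc |∑ v ∈ Finset.range (w e + 1), ∑ n ∈ (Finset.Ioc a e).filter (fun n => w n = v),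
        (r (w n) n / V (w n) - 1)|
      ≤ ∑ v ∈ Finset.range (w e + 1), |∑ n ∈ (Finset.Ioc a e).filter (fun n => w n = v),
        (r (w n) n / V (w n) - 1)| := Finset.abs_sum_le_sum_abs _ _
    _ ≤ ∑ v ∈ Finset.range (w e + 1), (C * Real.exp (-(b : ℝ)) *
        (((Finset.Ioc a e).filter (fun n => w n = v)).card : ℝ) +
        C * (w e : ℝ) ^ (8 * b + 18)) := Finset.sum_le_sum hfib
    _ = C * Real.exp (-(b : ℝ)) * ((e : ℝ) - a) + (w e + 1) * (C * (w e : ℝ) ^ (8 * b + 18)) := by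
        rw [Finset.sum_add_distrib, ← Finset.mul_sum, Finset.sum_const, Finset.card_range,
          nsmul_eq_mul]
        have h6 := Finset.card_eq_sum_card_fiberwise (fun n hn => hmaps n hn)
        have h7 : ∑ v ∈ Finset.range (w e + 1),
            (((Finset.Ioc a e).filter (fun n => w n = v)).card : ℝ) = (e : ℝ) - a := by
          rw [← Nat.cast_sum, ← h6, Nat.card_Ioc, Nat.cast_sub hae]
        rw [h7]
        push_cast
        ring
    _ ≤ C * Real.exp (-(b : ℝ)) * ((e : ℝ) - a) + (2 * w e) * (C * (w e : ℝ) ^ (8 * b + 18)) := by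
        gcongr
        linarith
    _ = _ := by ring

end Gra

end Pool.Agent.Lib.MP_926cc3_nt.RS
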