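import Mathlib

set_option autoImplicit false

open MeasureTheory ProbabilityTheory

namespace Pool.Agent.Lib.MP_926cc3_nt.RS

namespace Exist

theorem unif : IsProbabilityMeasure (volume.restrict (Set.Icc (0 : ℝ) 1)) := by
  constructor
  rw [Measure.restrict_apply_univ, Real.volume_Icc]
  norm_num

theorem unif_val {p : ℝ} (h1 : p ≤ 1) :
    (volume.restrict (Set.Icc (0 : ℝ) 1)) (Set.Icc 0 p) = ENNReal.ofReal p := by
  rw [Measure.restrict_apply measurableSet_Icc]
  have : Set.Icc 0 p ∩ Set.Icc (0 : ℝ) 1 = Set.Icc 0 p :=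
    Set.inter_eq_left.2 (Set.Icc_subset_Icc le_rfl h1)
  rw [this, Real.volume_Icc, sub_zero]

/-- independent events with prescribed probabilities -/
theorem events (ι : Type) (p : ι → ℝ) (h0 : ∀ i, 0 ≤ p i) (h1 : ∀ i, p i ≤ 1) :
    ∃ (Ω : Type) (m0 : MeasurableSpace Ω) (μ : Measure Ω) (B : ι → Set Ω),
      IsProbabilityMeasure μ ∧ (∀ i, MeasurableSet (B i)) ∧ iIndepSet B μ ∧
      ∀ i, μ.real (B i) = p i := by
  classical
  obtain ⟨ν, hν, hval⟩ : ∃ ν : ι → Measure ℝ, (∀ i, IsProbabilityMeasure (ν i)) ∧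
      ∀ i, ν i (Set.Icc 0 (p i)) = ENNReal.ofReal (p i) :=
    ⟨fun _ => volume.restrict (Set.Icc 0 1), fun _ => unif, fun i => unif_val (h1 i)⟩
  haveI := hν
  let B : ι → Set (ι → ℝ) := fun i => {ω | ω i ∈ Set.Icc 0 (p i)}
  have hB : ∀ i, MeasurableSet (B i) := fun i =>
    (measurable_pi_apply i) measurableSet_Icc
  have hpi : ∀ s : Finset ι, Measure.infinitePi ν (⋂ i ∈ s, B i) =
      ∏ i ∈ s, ν i (Set.Icc 0 (p i)) := by
    intro s
    have h : (⋂ i ∈ s, B i) = Set.pi s (fun i => Set.Icc 0 (p i)) := by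
      ext ω
      simp only [Set.mem_iInter, B, Set.mem_pi, Finset.mem_coe, Set.mem_ofPred_eq]
    rw [h]
    exact Measure.infinitePi_pi ν (fun i _ => measurableSet_Icc)
  have hone : ∀ i, Measure.infinitePi ν (B i) = ENNReal.ofReal (p i) := by
    intro i
    have := hpi {i}
    simp only [Finset.mem_singleton, Set.iInter_iInter_eq_left, Finset.prod_singleton] at this
    rw [this, hval]
  refine ⟨ι → ℝ, inferInstance, Measure.infinitePi ν, B, inferInstance, hB, ?_, ?_⟩
  · rw [iIndepSet_iff_meas_biInter hB]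
    intro s
    rw [hpi]
    exact Finset.prod_congr rfl (fun i _ => by rw [hone, hval])
  · intro i
    rw [Measure.real, hone, ENNReal.toReal_ofReal (h0 i)]

end Exist

end Pool.Agent.Lib.MP_926cc3_nt.RS
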