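import Pool.Agent.Lib.MP_926cc3_nt.RS.Univ

set_option autoImplicit false
set_option linter.unusedSectionVars false
set_option linter.unusedVariables false

open Filter Topology MeasureTheory

namespace Pool.Agent.Lib.MP_926cc3_nt.RS

variable {Ω : Type*} [m0 : MeasurableSpace Ω]

namespace CE

variable {μ : Measure Ω} [IsProbabilityMeasure μ] {ℱ : Filtration ℕ m0} {R : Ω → Set ℕ}

theorem clamp (hR : ∀ n, MeasurableSet[ℱ n] {ω | n ∈ R ω}) (n : ℕ) :
    (fun ω => max 0 (min 1 (predDensity μ ℱ R n ω))) =ᵐ[μ] predDensity μ ℱ R n := by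
  have hm : MeasurableSet {ω | n ∈ R ω} := ℱ.le n _ (hR n)
  have hI : Integrable (Set.indicator {ω | n ∈ R ω} (fun _ => (1 : ℝ))) μ :=
    (integrable_const _).indicator hm
  have h0 : 0 ≤ᵐ[μ] predDensity μ ℱ R n :=
    condExp_nonneg (ae_of_all _ (fun ω => Set.indicator_nonneg (fun _ _ => zero_le_one) _))
  have h1 : predDensity μ ℱ R n ≤ᵐ[μ] fun _ => 1 := by
    have h2 : Set.indicator {ω | n ∈ R ω} (fun _ => (1 : ℝ)) ≤ᵐ[μ] fun _ => 1 :=
      ae_of_all _ (fun ω => Set.indicator_le_self' (fun _ _ => zero_le_one) _)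
    have h3 := condExp_mono (m := ℱ (n - 1)) hI (integrable_const (1 : ℝ)) h2
    rw [condExp_const (ℱ.le _)] at h3
    exact h3
  filter_upwards [h0, h1] with ω h2 h3
  have h2' : (0 : ℝ) ≤ predDensity μ ℱ R n ω := h2
  rw [min_eq_right h3, max_eq_right h2']

theorem dens (hR : ∀ n, MeasurableSet[ℱ n] {ω | n ∈ R ω}) :
    Dens μ ℱ R (fun n ω => max 0 (min 1 (predDensity μ ℱ R n ω))) where
  adapted := hR
  meas := fun n hn => by
    have h1 : Measurable[ℱ (n - 1)] (predDensity μ ℱ R n) :=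
      stronglyMeasurable_condExp.measurable
    exact measurable_const.max (measurable_const.min h1)
  nonneg := fun n ω => le_max_left _ _
  le_one := fun n ω => max_le zero_le_one (min_le_left _ _)
  dens := fun n hn Z hZ hb => by
    have hm : MeasurableSet {ω | n ∈ R ω} := ℱ.le n _ (hR n)
    have hI : Integrable (ind R n) μ := (integrable_const (1 : ℝ)).indicator hm
    obtain ⟨C, hC⟩ := hb
    have h1 := condExp_stronglyMeasurable_mul_of_bound (ℱ.le (n - 1)) hZ.stronglyMeasurable hI C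
      (ae_of_all μ (fun ω => by rw [Real.norm_eq_abs]; exact hC ω))
    calc ∫ ω, Z ω * ind R n ω ∂μ = ∫ ω, (μ[(Z * ind R n) | ℱ (n - 1)]) ω ∂μ :=
          (integral_condExp (ℱ.le (n - 1))).symm
      _ = ∫ ω, Z ω * predDensity μ ℱ R n ω ∂μ := integral_congr_ae h1
      _ = ∫ ω, Z ω * max 0 (min 1 (predDensity μ ℱ R n ω)) ∂μ := by
          apply integral_congr_ae
          filter_upwards [clamp (μ := μ) hR n] with ω hω
          rw [hω]

/-- UNIVERSALITY, with Mathlib's conditional expectations. -/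
theorem shanks (hR : ∀ n, MeasurableSet[ℱ n] {ω | n ∈ R ω}) :
    ∀ᵐ ω ∂μ, Tendsto (fun n => predDensity μ ℱ R n ω) atTop (𝓝 0) →
      Regular (fun n => predDensity μ ℱ R n ω) → ShanksLaw (R ω) := by
  have hall : ∀ᵐ ω ∂μ, ∀ n, max 0 (min 1 (predDensity μ ℱ R n ω)) = predDensity μ ℱ R n ω := by
    rw [ae_all_iff]
    intro n
    exact clamp (μ := μ) hR n
  filter_upwards [hall, (dens (μ := μ) hR).shanks_on] with ω h1 h2 h3 h4
  apply h2
  · simp_rw [h1]
    exact h3
  · simp_rw [h1]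
    exact h4

end CE

end Pool.Agent.Lib.MP_926cc3_nt.RS
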