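import Mathlib

set_option autoImplicit false

open Filter Topology MeasureTheory

namespace Pool.Agent.Lib.MP_926cc3_nt.RS

/-- `firstElt S g` is the least element of `S` whose `g` immediate predecessors are all greater
than `1` and not in `S`.  For `S` the set of primes this is `p(g)`. -/
noncomputable def firstElt (S : Set ℕ) (g : ℕ) : ℕ :=
  sInf {p : ℕ | p ∈ S ∧ ∀ i : ℕ, 1 ≤ i → i ≤ g → (1 < p - i ∧ p - i ∉ S)}

/-- Shanks' law for a set `S` of natural numbers: `log p(g) ~ √g`.  For `S` the set of primes this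
is the frozen statement S17789. -/
def ShanksLaw (S : Set ℕ) : Prop :=
  Asymptotics.IsEquivalent Filter.atTop
    (fun g : ℕ => Real.log (firstElt S g : ℝ)) (fun g : ℕ => Real.sqrt (g : ℝ))

/-- Regularity of a density at the scale `log ^ 2`: for every `c > 0` the sum of `d` over
`[a, a + c log² a)` is `(c + o(1)) log a`. -/
def Regular (d : ℕ → ℝ) : Prop :=
  ∀ c : ℝ, 0 < c → Tendsto (fun a : ℕ =>
    (∑ n ∈ Finset.Ico a (a + ⌊c * Real.log a ^ 2⌋₊), d n) / Real.log a) atTop (𝓝 c)

/-- The predictable density of a random set: `P(n ∈ R | ℱ (n - 1))`. -/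
noncomputable def predDensity {Ω : Type*} {m0 : MeasurableSpace Ω} (μ : Measure Ω)
    (ℱ : Filtration ℕ m0) (R : Ω → Set ℕ) (n : ℕ) : Ω → ℝ :=
  μ[Set.indicator {ω | n ∈ R ω} (fun _ => (1 : ℝ)) | ℱ (n - 1)]

/-- The sieve: `n ≥ 2` is kept iff no smaller kept number strikes it out. -/
def Kept (strike : ℕ → ℕ → Prop) (n : ℕ) : Prop :=
  2 ≤ n ∧ ∀ m : ℕ, ∀ _ : m < n, Kept strike m → ¬ strike m n
termination_by n

/-- The striking relation: exact up to `N`, given by `A` above `N`. -/
def strikes (N : ℕ) (A : ℕ → ℕ → Prop) (m n : ℕ) : Prop :=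
  (m ≤ N ∧ m ∣ n) ∨ (N < m ∧ A m n)

/-- The random set produced by the sieve which is exact up to `N` and random afterwards: a kept
`m ≤ N` strikes out its multiples, a kept `m > N` strikes out `n > m` when `A m n` occurs. -/
def sieveSet {Ω : Type*} (N : ℕ) (A : ℕ → ℕ → Set Ω) (ω : Ω) : Set ℕ :=
  {n | Kept (strikes N (fun m n => ω ∈ A m n)) n}

/-- `∏_{p<w} (1-1/p)` -/
noncomputable def V (w : ℕ) : ℝ := ∏ p ∈ (Finset.range w).filter Nat.Prime, (1 - 1 / (p : ℝ))

/-- `n` has no prime factor below `w` -/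
def NoSmall (w n : ℕ) : Prop := ∀ p : ℕ, p.Prime → p ∣ n → w ≤ p

open Classical in
/-- The density of the Cramér–Granville model of level `w`: the integers with a prime factor
`< w n` are excluded, the others are chosen with probability `1/log n` divided by the density
`∏_{p < w n} (1 - 1/p)` of the integers that are not excluded. -/
noncomputable def cgDens (w : ℕ → ℕ) (n : ℕ) : ℝ :=
  if NoSmall (w n) n then 1 / (Real.log n * V (w n)) else 0

end Pool.Agent.Lib.MP_926cc3_nt.RS
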