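import Pool.Agent.Lib.MP_926cc3_nt.RS.Defs

set_option autoImplicit false

open Filter Topology

namespace Pool.Agent.Lib.MP_926cc3_nt.RS

/-- upper bound for the gaps -/
def UpperRuns (S : Set ℕ) : Prop :=
  ∀ ε : ℝ, 0 < ε → ∀ᶠ a : ℕ in atTop, ∃ n ∈ S, a ≤ n ∧ n < a + ⌊(1 + ε) * Real.log a ^ 2⌋₊

/-- existence of large gaps -/
def LowerRuns (S : Set ℕ) : Prop :=
  ∀ ε : ℝ, 0 < ε → ε < 1 → ∀ᶠ x : ℕ in atTop, ∃ a : ℕ, x ≤ a ∧ a ≤ 2 * x ∧
    ∀ n, a ≤ n → n < a + ⌊(1 - ε) * Real.log x ^ 2⌋₊ → n ∉ S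

namespace Det

theorem lower {S : Set ℕ} (hU : UpperRuns S)
    (hne : ∀ᶠ g : ℕ in atTop, {p : ℕ | p ∈ S ∧ ∀ i : ℕ, 1 ≤ i → i ≤ g →
      (1 < p - i ∧ p - i ∉ S)}.Nonempty) (ε : ℝ) (hε : 0 < ε) :
    ∀ᶠ g : ℕ in atTop, Real.sqrt g ≤ Real.sqrt (1 + ε) * Real.log (firstElt S g) := by
  obtain ⟨a0, ha0⟩ := eventually_atTop.1 ((hU ε hε).and (eventually_ge_atTop 2))
  obtain ⟨n0, hn0S, hn0, -⟩ := (ha0 a0 le_rfl).1
  filter_upwards [hne, eventually_gt_atTop n0, eventually_ge_atTop 1] with g hg hgn hg1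
  have hmem := Nat.sInf_mem hg
  change firstElt S g ∈ _ at hmem
  obtain ⟨hpS, hpi⟩ := hmem
  set p := firstElt S g with hp
  have hpg : 1 < p - g := (hpi g hg1 le_rfl).1
  have hrun : ∀ n, p - g ≤ n → n < p → n ∉ S := by
    intro n h1 h2
    have h3 := (hpi (p - n) (by omega) (by omega)).2
    have h4 : p - (p - n) = n := by omega
    rwa [h4] at h3
  by_cases hcase : a0 ≤ p - g
  · obtain ⟨n, hnS, hn1, hn2⟩ := (ha0 _ hcase).1
    have hnp : p ≤ n := by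
      by_contra hcon
      exact hrun n hn1 (by omega) hnS
    have h5 : g < ⌊(1 + ε) * Real.log ((p - g : ℕ) : ℝ) ^ 2⌋₊ := by omega
    have h6 : (g : ℝ) ≤ (1 + ε) * Real.log ((p - g : ℕ) : ℝ) ^ 2 := by
      refine le_trans ?_ (Nat.floor_le (by positivity))
      exact_mod_cast h5.le
    have h7 : (1 : ℝ) ≤ ((p - g : ℕ) : ℝ) := by exact_mod_cast hpg.le
    have h8 : Real.log ((p - g : ℕ) : ℝ) ≤ Real.log (p : ℝ) := by
      apply Real.log_le_log (by linarith)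
      exact_mod_cast Nat.sub_le p g
    have h9 : 0 ≤ Real.log ((p - g : ℕ) : ℝ) := Real.log_nonneg h7
    have h10 : (g : ℝ) ≤ (1 + ε) * Real.log (p : ℝ) ^ 2 := by
      refine h6.trans ?_
      have : Real.log ((p - g : ℕ) : ℝ) ^ 2 ≤ Real.log (p : ℝ) ^ 2 := by gcongr
      nlinarith
    calc Real.sqrt g ≤ Real.sqrt ((1 + ε) * Real.log (p : ℝ) ^ 2) := Real.sqrt_le_sqrt h10
      _ = Real.sqrt (1 + ε) * Real.log (p : ℝ) := by
        rw [Real.sqrt_mul (by linarith), Real.sqrt_sq (by linarith)]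
  · exfalso
    have h1 : ¬ (p - g ≤ n0 ∧ n0 < p) := fun h => hrun n0 h.1 h.2 hn0S
    omega

theorem nonempty_le {S : Set ℕ} {g x : ℕ} (hx : 2 ≤ x) {a : ℕ} (h1 : x ≤ a)
    (hn : ∃ n ∈ S, a ≤ n ∧ n ≤ 3 * x)
    (hrun : ∀ n, a ≤ n → n < a + g → n ∉ S) :
    ∃ p ∈ {p : ℕ | p ∈ S ∧ ∀ i : ℕ, 1 ≤ i → i ≤ g → (1 < p - i ∧ p - i ∉ S)}, p ≤ 3 * x := by
  classical
  have hex : ∃ n, n ∈ S ∧ a ≤ n := by
    obtain ⟨n, h1, h2, -⟩ := hn
    exact ⟨n, h1, h2⟩
  obtain ⟨hp1, hp2⟩ := Nat.find_spec hex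
  set p := Nat.find hex with hp
  have hmin : ∀ m, m < p → a ≤ m → m ∉ S := fun m hm h1 h2 => Nat.find_min hex hm ⟨h2, h1⟩
  have hge : a + g ≤ p := by
    by_contra hcon
    exact hrun p hp2 (by omega) hp1
  refine ⟨p, ⟨hp1, fun i hi1 hi2 => ⟨by omega, hmin _ (by omega) (by omega)⟩⟩, ?_⟩
  obtain ⟨n, h3, h4, h5⟩ := hn
  exact (Nat.find_min' hex ⟨h3, h4⟩).trans h5

theorem log_sq_small : ∀ᶠ x : ℕ in atTop, (2 * x : ℝ) + 2 * Real.log (2 * x) ^ 2 ≤ 3 * x := by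
  have h1 : Tendsto (fun x : ℝ => Real.log x ^ 2 / (1 * x + 0)) atTop (𝓝 0) :=
    Real.tendsto_pow_log_div_mul_add_atTop 1 0 2 one_ne_zero
  have h2 : Tendsto (fun x : ℕ => (2 * (x : ℝ))) atTop atTop :=
    tendsto_natCast_atTop_atTop.const_mul_atTop (by norm_num)
  have h3 := (h1.comp h2).eventually (gt_mem_nhds (show (0:ℝ) < 1 / 4 by norm_num))
  filter_upwards [h3, eventually_gt_atTop 0] with x hx hx0
  have hx0' : (0 : ℝ) < x := by exact_mod_cast hx0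
  simp only [Function.comp] at hx
  have h4 : Real.log (2 * x) ^ 2 < 1 / 4 * (2 * x) := by
    rw [div_lt_iff₀ (by positivity)] at hx
    linarith
  linarith

theorem upper {S : Set ℕ} (hU : UpperRuns S) (hL : LowerRuns S) (ε : ℝ) (hε : 0 < ε)
    (hε1 : ε < 1) : ∀ᶠ g : ℕ in atTop,
    {p : ℕ | p ∈ S ∧ ∀ i : ℕ, 1 ≤ i → i ≤ g → (1 < p - i ∧ p - i ∉ S)}.Nonempty ∧
    Real.log (firstElt S g) ≤ Real.sqrt ((g + 2) / (1 - ε)) + Real.log 6 := by
  -- eventually in x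
  have hev : ∀ᶠ x : ℕ in atTop, (∃ a : ℕ, x ≤ a ∧ a ≤ 2 * x ∧
      (∀ n, a ≤ n → n < a + ⌊(1 - ε) * Real.log x ^ 2⌋₊ → n ∉ S) ∧
      ∃ n ∈ S, a ≤ n ∧ n ≤ 3 * x) ∧ 2 ≤ x := by
    obtain ⟨a1, ha1⟩ := eventually_atTop.1 (hU 1 one_pos)
    filter_upwards [hL ε hε hε1, eventually_ge_atTop a1, eventually_ge_atTop 2, log_sq_small]
      with x hx hx1 hx2 hx3
    refine ⟨?_, hx2⟩
    obtain ⟨a, h1, h2, h3⟩ := hx
    refine ⟨a, h1, h2, h3, ?_⟩
    obtain ⟨n, hnS, hn1, hn2⟩ := ha1 a (hx1.trans h1)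
    refine ⟨n, hnS, hn1, ?_⟩
    have hxr : (2 : ℝ) ≤ x := by exact_mod_cast hx2
    have har : (x : ℝ) ≤ a := by exact_mod_cast h1
    have har2 : (a : ℝ) ≤ 2 * x := by exact_mod_cast h2
    have h4 : (n : ℝ) ≤ a + (1 + 1) * Real.log a ^ 2 := by
      have h5 : n ≤ a + ⌊(1 + 1) * Real.log (a : ℝ) ^ 2⌋₊ := hn2.le
      calc (n : ℝ) ≤ ((a + ⌊(1 + 1) * Real.log (a : ℝ) ^ 2⌋₊ : ℕ) : ℝ) := by exact_mod_cast h5
        _ = a + (⌊(1 + 1) * Real.log (a : ℝ) ^ 2⌋₊ : ℝ) := by push_cast; ring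
        _ ≤ a + (1 + 1) * Real.log a ^ 2 := by
          gcongr
          exact Nat.floor_le (by positivity)
    have h6 : Real.log a ^ 2 ≤ Real.log (2 * x) ^ 2 := by
      have : 0 ≤ Real.log (a : ℝ) := Real.log_nonneg (by linarith)
      have : Real.log a ≤ Real.log (2 * x) := Real.log_le_log (by linarith) har2
      gcongr
    have h7 : (n : ℝ) ≤ 3 * x := by nlinarith
    exact_mod_cast h7
  obtain ⟨x0, hx0⟩ := eventually_atTop.1 hev
  -- choice of x
  have hroot : Tendsto (fun g : ℕ => Real.sqrt (((g : ℝ) + 2) / (1 - ε))) atTop atTop := by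
    apply Real.tendsto_sqrt_atTop.comp
    apply Tendsto.atTop_div_const (by linarith)
    exact tendsto_atTop_add_const_right _ _ tendsto_natCast_atTop_atTop
  have hexp : Tendsto (fun g : ℕ => Real.exp (Real.sqrt (((g : ℝ) + 2) / (1 - ε)))) atTop atTop :=
    Real.tendsto_exp_atTop.comp hroot
  filter_upwards [hexp.eventually_ge_atTop (x0 : ℝ)] with g hg
  set T := Real.sqrt (((g : ℝ) + 2) / (1 - ε)) with hT
  have hT0 : 0 ≤ T := Real.sqrt_nonneg _
  set x := ⌈Real.exp T⌉₊ with hx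
  have hxx0 : x0 ≤ x := by
    have : (x0 : ℝ) ≤ x := hg.trans (Nat.le_ceil _)
    exact_mod_cast this
  obtain ⟨⟨a, h1, h2, h3, h4⟩, hx2⟩ := hx0 x hxx0
  have hTx : T ≤ Real.log x := by
    rw [Real.le_log_iff_exp_le (by positivity)]
    exact Nat.le_ceil _
  have hg1 : g ≤ ⌊(1 - ε) * Real.log x ^ 2⌋₊ := by
    apply Nat.le_floor
    have h5 : T ^ 2 = ((g : ℝ) + 2) / (1 - ε) := by
      rw [hT, Real.sq_sqrt]
      apply div_nonneg (by positivity) (by linarith)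
    have h6 : T ^ 2 ≤ Real.log x ^ 2 := by gcongr
    have h7 : (1 - ε) * T ^ 2 = g + 2 := by
      rw [h5]; field_simp [show (1 - ε) ≠ 0 by linarith]
    nlinarith
  obtain ⟨p, hp, hp3⟩ := nonempty_le (g := g) hx2 h1 h4
    (fun n hn1 hn2 => h3 n hn1 (by omega))
  refine ⟨⟨p, hp⟩, ?_⟩
  have hfp : firstElt S g ≤ p := Nat.sInf_le hp
  have hmem := Nat.sInf_mem (⟨p, hp⟩ : {p : ℕ | p ∈ S ∧ ∀ i : ℕ, 1 ≤ i → i ≤ g →
      (1 < p - i ∧ p - i ∉ S)}.Nonempty)
  have h8 : (firstElt S g : ℝ) ≤ 6 * Real.exp T := by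
    have h9 : (x : ℝ) ≤ Real.exp T + 1 := (Nat.ceil_lt_add_one (Real.exp_pos T).le).le
    have h10 : (1 : ℝ) ≤ Real.exp T := Real.one_le_exp hT0
    have h11 : (firstElt S g : ℝ) ≤ 3 * x := by exact_mod_cast hfp.trans hp3
    linarith
  rcases Nat.eq_zero_or_pos (firstElt S g) with h0 | h0
  · rw [h0]
    simp only [Nat.cast_zero, Real.log_zero]
    have : 0 ≤ Real.log 6 := Real.log_nonneg (by norm_num)
    linarith
  · calc Real.log (firstElt S g) ≤ Real.log (6 * Real.exp T) :=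
        Real.log_le_log (by exact_mod_cast h0) h8
      _ = T + Real.log 6 := by
        rw [Real.log_mul (by norm_num) (Real.exp_pos T).ne', Real.log_exp]; ring

/-- The deterministic part: the two statements on runs give Shanks' law. -/
theorem shanks {S : Set ℕ} (hU : UpperRuns S) (hL : LowerRuns S) : ShanksLaw S := by
  unfold ShanksLaw
  have hne : ∀ᶠ g : ℕ in atTop, {p : ℕ | p ∈ S ∧ ∀ i : ℕ, 1 ≤ i → i ≤ g →
      (1 < p - i ∧ p - i ∉ S)}.Nonempty := by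
    filter_upwards [upper hU hL (1 / 2) (by norm_num) (by norm_num)] with g hg using hg.1
  rw [Asymptotics.isEquivalent_iff_tendsto_one]
  · rw [Metric.tendsto_atTop]
    intro δ hδ
    -- choose ε with 1/sqrt(1+ε) ≥ 1 - δ/2 and 1/sqrt(1-ε) ≤ 1 + δ/4
    obtain ⟨ε, hε, hε1, hA, hB⟩ : ∃ ε : ℝ, 0 < ε ∧ ε < 1 ∧ 1 - δ / 2 < 1 / Real.sqrt (1 + ε) ∧
        1 / Real.sqrt (1 - ε) < 1 + δ / 4 := by
      have hc1 : Tendsto (fun ε : ℝ => 1 / Real.sqrt (1 + ε)) (𝓝 0) (𝓝 1) := by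
        have : ContinuousAt (fun ε : ℝ => 1 / Real.sqrt (1 + ε)) 0 := by
          apply ContinuousAt.div continuousAt_const
          · exact (Real.continuous_sqrt.comp (continuous_const.add continuous_id)).continuousAt
          · simp
        simpa [ContinuousAt] using this
      have hc2 : Tendsto (fun ε : ℝ => 1 / Real.sqrt (1 - ε)) (𝓝 0) (𝓝 1) := by
        have : ContinuousAt (fun ε : ℝ => 1 / Real.sqrt (1 - ε)) 0 := by
          apply ContinuousAt.div continuousAt_const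
          · exact (Real.continuous_sqrt.comp (continuous_const.sub continuous_id)).continuousAt
          · simp
        simpa [ContinuousAt] using this
      have e1 := hc1.eventually (lt_mem_nhds (show 1 - δ / 2 < 1 by linarith))
      have e2 := hc2.eventually (gt_mem_nhds (show (1:ℝ) < 1 + δ / 4 by linarith))
      have e3 : ∀ᶠ ε : ℝ in 𝓝 0, ε < 1 := gt_mem_nhds one_pos
      have e4 : ∀ᶠ ε : ℝ in 𝓝[>] 0, 0 < ε := self_mem_nhdsWithin
      have e := ((e1.and (e2.and e3)).filter_mono nhdsWithin_le_nhds).and e4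
      obtain ⟨ε, ⟨h1, h2, h3⟩, h4⟩ := e.exists
      exact ⟨ε, h4, h3, h1, h2⟩
    have hup := upper hU hL ε hε hε1
    have hlo := lower hU hne ε hε
    -- asymptotics of the upper bound
    have hlim : Tendsto (fun g : ℕ => (Real.sqrt (((g : ℝ) + 2) / (1 - ε)) + Real.log 6)
        / Real.sqrt g) atTop (𝓝 (1 / Real.sqrt (1 - ε))) := by
      have h1 : Tendsto (fun g : ℕ => Real.sqrt ((1 + 2 / (g : ℝ)) / (1 - ε))) atTop
          (𝓝 (Real.sqrt ((1 + 0) / (1 - ε)))) := by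
        apply (Real.continuous_sqrt.tendsto _).comp
        apply Tendsto.div_const
        apply Tendsto.const_add
        exact tendsto_const_div_atTop_nhds_zero_nat 2
      have h2 : Tendsto (fun g : ℕ => Real.log 6 / Real.sqrt g) atTop (𝓝 0) := by
        apply Tendsto.div_atTop tendsto_const_nhds
        exact Real.tendsto_sqrt_atTop.comp tendsto_natCast_atTop_atTop
      have h3 := h1.add h2
      have h4 : Real.sqrt ((1 + 0) / (1 - ε)) + 0 = 1 / Real.sqrt (1 - ε) := by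
        rw [add_zero, add_zero, Real.sqrt_div zero_le_one, Real.sqrt_one]
      rw [h4] at h3
      refine h3.congr' ?_
      filter_upwards [eventually_gt_atTop 0] with g hg
      have hg' : (0 : ℝ) < g := by exact_mod_cast hg
      rw [add_div (Real.sqrt _)]
      congr 1
      rw [← Real.sqrt_div (by apply div_nonneg (by positivity) (by linarith))]
      congr 1
      field_simp
    have hlim2 := hlim.eventually (gt_mem_nhds (show 1 / Real.sqrt (1 - ε) < 1 + δ / 2 by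
      linarith))
    obtain ⟨g0, hg0⟩ := eventually_atTop.1 (hup.and (hlo.and (hlim2.and (eventually_gt_atTop 0))))
    refine ⟨g0, fun g hg => ?_⟩
    obtain ⟨⟨-, h1⟩, h2, h3, h4⟩ := hg0 g hg
    have hg' : (0 : ℝ) < Real.sqrt g := Real.sqrt_pos.2 (by exact_mod_cast h4)
    have h5 : Real.log (firstElt S g) / Real.sqrt g < 1 + δ / 2 :=
      lt_of_le_of_lt (div_le_div_of_nonneg_right h1 hg'.le) h3
    have h6 : 1 - δ / 2 < Real.log (firstElt S g) / Real.sqrt g := by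
      refine lt_of_lt_of_le hA ?_
      have hs : 0 < Real.sqrt (1 + ε) := Real.sqrt_pos.2 (by linarith)
      rw [div_le_div_iff₀ hs hg']
      linarith
    rw [Real.dist_eq, abs_lt]
    simp only [Pi.div_apply]
    constructor <;> linarith
  · filter_upwards [eventually_gt_atTop 0] with g hg
    intro h
    have : (0 : ℝ) < Real.sqrt g := Real.sqrt_pos.2 (by exact_mod_cast hg)
    linarith

end Det

end Pool.Agent.Lib.MP_926cc3_nt.RS
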