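import Pool.Agent.Lib.MP_926cc3_nt.RS.Univ

set_option autoImplicit false
set_option linter.unusedSectionVars false
set_option linter.unusedVariables false

open Filter Topology MeasureTheory ProbabilityTheory

namespace Pool.Agent.Lib.MP_926cc3_nt.RS

variable {Ω : Type*} [m0 : MeasurableSpace Ω]

/-- the random set of the `n` for which `B n` occurs -/
def evSet (B : ℕ → Set Ω) (ω : Ω) : Set ℕ := {n | ω ∈ B n}

/-- the filtration of the events `B 0, …, B n` -/
def filtB (B : ℕ → Set Ω) (hB : ∀ n, MeasurableSet (B n)) : Filtration ℕ m0 where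
  seq n := MeasurableSpace.generateFrom {t | ∃ i ∈ {i : ℕ | i ≤ n}, B i = t}
  mono' := by
    intro a b hab
    apply MeasurableSpace.generateFrom_mono
    rintro t ⟨q, hq, rfl⟩
    exact ⟨q, le_trans hq hab, rfl⟩
  le' := by
    intro n
    apply MeasurableSpace.generateFrom_le
    rintro t ⟨q, hq, rfl⟩
    exact hB _

namespace Ind

variable {μ : Measure Ω} [IsProbabilityMeasure μ] {B : ℕ → Set Ω}

theorem dens (hB : ∀ n, MeasurableSet (B n)) (hI : iIndepSet B μ) :
    Dens μ (filtB B hB) (evSet B) (fun n _ => μ.real (B n)) where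
  adapted := fun n => MeasurableSpace.measurableSet_generateFrom ⟨n, le_refl n, rfl⟩
  meas := fun n hn => measurable_const
  nonneg := fun n ω => measureReal_nonneg
  le_one := fun n ω => measureReal_le_one
  dens := fun n hn Z hZ hb => by
    have h1 := iIndepSet.indep_generateFrom_of_disjoint (s := B)
      (fun q => hB _) hI {i : ℕ | i ≤ n - 1} {n} (by
        simp only [Set.disjoint_singleton_right, Set.mem_ofPred_eq]
        omega)
    have hgen : (filtB B hB (n - 1)) ≤ m0 := (filtB B hB).le _
    have hgen2 : MeasurableSpace.generateFrom {t | ∃ q ∈ ({n} : Set ℕ), B q = t} ≤ m0 := by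
      apply MeasurableSpace.generateFrom_le
      rintro t ⟨q, hq, rfl⟩
      exact hB _
    have hX : Measurable[MeasurableSpace.generateFrom {t | ∃ q ∈ ({n} : Set ℕ), B q = t}]
        ((B n).indicator (fun _ => (1 : ℝ))) := by
      apply Measurable.indicator measurable_const
      exact MeasurableSpace.measurableSet_generateFrom ⟨n, rfl, rfl⟩
    have hind : IndepFun Z ((B n).indicator (fun _ => (1 : ℝ))) μ := by
      rw [IndepFun_iff_Indep]
      exact indep_of_indep_of_le_left (indep_of_indep_of_le_right h1 hX.comap_le) hZ.comap_le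
    change ∫ ω, Z ω * (B n).indicator (fun _ => (1 : ℝ)) ω ∂μ = _
    rw [hind.integral_fun_mul_eq_mul_integral
      (hZ.mono hgen le_rfl).aestronglyMeasurable (hX.mono hgen2 le_rfl).aestronglyMeasurable]
    rw [integral_indicator_const _ (hB _), integral_mul_const]
    simp

/-- Shanks' law for independent events. -/
theorem shanks (hB : ∀ n, MeasurableSet (B n)) (hI : iIndepSet B μ)
    (H1 : Tendsto (fun n => μ.real (B n)) atTop (𝓝 0)) (H2 : Regular (fun n => μ.real (B n))) :
    ∀ᵐ ω ∂μ, ShanksLaw (evSet B ω) :=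
  (dens hB hI).shanks (ae_of_all _ (fun _ => H1)) (ae_of_all _ (fun _ => H2))

end Ind

end Pool.Agent.Lib.MP_926cc3_nt.RS
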