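import Pool.Agent.Lib.MP_926cc3_nt.RS.Gra
import Pool.Agent.Lib.MP_926cc3_nt.RS.Ind

set_option autoImplicit false
set_option linter.unusedVariables false

open Filter Topology MeasureTheory ProbabilityTheory

namespace Pool.Agent.Lib.MP_926cc3_nt.RS

namespace Gra

theorem cgDens_eq (w : ℕ → ℕ) (n : ℕ) : cgDens w n = r (w n) n / V (w n) / Real.log n := by
  unfold cgDens r
  split_ifs with h
  · rw [div_div, mul_comm]
  · simp

theorem pow_le {w : ℕ → ℕ} (h2 : ∀ n, 2 ≤ w n)
    (hw : (fun n => Real.log (w n)) =o[atTop] (fun n : ℕ => Real.log (Real.log n))) (K : ℕ) :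
    ∀ᶠ n : ℕ in atTop, (w n : ℝ) ^ K ≤ Real.log n := by
  have hlog : Tendsto (fun n : ℕ => Real.log (n : ℝ)) atTop atTop :=
    Real.tendsto_log_atTop.comp tendsto_natCast_atTop_atTop
  have hK : (0 : ℝ) < 1 / ((K : ℝ) + 1) := by positivity
  have h1 := hw.def hK
  filter_upwards [h1, hlog.eventually_gt_atTop 1] with n hn hn1
  have hw2 : (2 : ℝ) ≤ w n := by exact_mod_cast h2 n
  have hl0 : 0 < Real.log (Real.log n) := Real.log_pos hn1
  rw [Real.norm_eq_abs, Real.norm_eq_abs, abs_of_pos hl0] at hn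
  have h3 : Real.log (w n) ≤ 1 / ((K : ℝ) + 1) * Real.log (Real.log n) := (le_abs_self _).trans hn
  have h4 : ((K : ℝ) + 1) * Real.log (w n) ≤ Real.log (Real.log n) := by
    have := mul_le_mul_of_nonneg_left h3 (show (0 : ℝ) ≤ (K : ℝ) + 1 by positivity)
    have e : ((K : ℝ) + 1) * (1 / ((K : ℝ) + 1) * Real.log (Real.log n)) =
        Real.log (Real.log n) := by field_simp
    linarith
  have h5 : Real.log ((w n : ℝ) ^ (K + 1)) ≤ Real.log (Real.log n) := by
    rw [Real.log_pow]; push_cast; exact h4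
  have h6 : (w n : ℝ) ^ (K + 1) ≤ Real.log n :=
    (Real.log_le_log_iff (by positivity) (by linarith)).1 h5
  have h7 : (w n : ℝ) ^ K ≤ (w n : ℝ) ^ (K + 1) :=
    pow_le_pow_right₀ (by linarith) (Nat.le_succ K)
  linarith

theorem regular {w : ℕ → ℕ} (hm : Monotone w) (h2 : ∀ n, 2 ≤ w n)
    (hw : (fun n => Real.log (w n)) =o[atTop] (fun n : ℕ => Real.log (Real.log n)))
    (d : ℕ → ℝ) (hd : ∀ᶠ n in atTop, d n = cgDens w n) :
    Tendsto d atTop (𝓝 0) ∧ Regular d := by
  have hlog : Tendsto (fun n : ℕ => Real.log (n : ℝ)) atTop atTop :=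
    Real.tendsto_log_atTop.comp tendsto_natCast_atTop_atTop
  constructor
  · have hsq : Tendsto (fun n : ℕ => 1 / Real.sqrt (Real.log n)) atTop (𝓝 0) :=
      Tendsto.div_atTop tendsto_const_nhds (Real.tendsto_sqrt_atTop.comp hlog)
    refine squeeze_zero' ?_ ?_ hsq
    · filter_upwards [hd, hlog.eventually_gt_atTop 0] with n hn hn0
      rw [hn, cgDens_eq]
      exact div_nonneg (div_nonneg (r_nonneg _ _) (V_pos _ (h2 n)).le) hn0.le
    · filter_upwards [hd, hlog.eventually_gt_atTop 0, pow_le h2 hw 2] with n hn hn0 hn2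
      rw [hn, cgDens_eq]
      have h3 : (w n : ℝ) ≤ Real.sqrt (Real.log n) := Real.le_sqrt_of_sq_le hn2
      have h4 : r (w n) n / V (w n) ≤ w n := by
        rw [div_eq_mul_inv]
        calc r (w n) n * (V (w n))⁻¹ ≤ 1 * (w n : ℝ) := by
              apply mul_le_mul (r_le_one _ _) (V_inv_le _ (h2 n))
                (inv_pos.2 (V_pos _ (h2 n))).le zero_le_one
          _ = w n := one_mul _
      have hs0 : 0 < Real.sqrt (Real.log n) := Real.sqrt_pos.2 hn0
      calc r (w n) n / V (w n) / Real.log n ≤ Real.sqrt (Real.log n) / Real.log n := by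
            apply div_le_div_of_nonneg_right (h4.trans h3) hn0.le
        _ = 1 / Real.sqrt (Real.log n) := by
            rw [div_eq_div_iff hn0.ne' hs0.ne', one_mul, Real.mul_self_sqrt hn0.le]
  · intro c hc
    obtain ⟨C, hC, hint⟩ := interval
    set L : ℕ → ℕ := fun a => ⌊c * Real.log a ^ 2⌋₊ with hL
    have hfr : Tendsto (fun a : ℕ => (L a : ℝ) / Real.log a ^ 2) atTop (𝓝 c) :=
      Path.floor_ratio c hc
    have hLpos : ∀ᶠ a in atTop, 0 < (L a : ℝ) / Real.log a ^ 2 :=
      hfr.eventually (lt_mem_nhds hc)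
    have hLle : ∀ᶠ a in atTop, L a ≤ a := Path.floor_le_self c hc
    -- log (2a) / log a → 1
    have hratio : Tendsto (fun a : ℕ => Real.log (2 * (a : ℝ)) / Real.log a) atTop (𝓝 1) := by
      have h1 : Tendsto (fun a : ℕ => Real.log 2 / Real.log (a : ℝ) + 1) atTop (𝓝 (0 + 1)) :=
        (Tendsto.div_atTop tendsto_const_nhds hlog).add tendsto_const_nhds
      rw [zero_add] at h1
      refine h1.congr' ?_
      filter_upwards [eventually_gt_atTop 1] with a ha
      have ha' : (1 : ℝ) < a := by exact_mod_cast ha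
      have hla : 0 < Real.log (a : ℝ) := Real.log_pos ha'
      rw [Real.log_mul (by norm_num) (by linarith)]
      field_simp
    have hsmall : Tendsto (fun a : ℕ => Real.log (2 * (a : ℝ)) / L a) atTop (𝓝 0) := by
      have h1 : Tendsto (fun a : ℕ => (Real.log (2 * (a : ℝ)) / Real.log a) * (1 / Real.log a) *
          ((L a : ℝ) / Real.log a ^ 2)⁻¹) atTop (𝓝 (1 * 0 * c⁻¹)) :=
        (hratio.mul (Tendsto.div_atTop tendsto_const_nhds hlog)).mul (hfr.inv₀ hc.ne')
      rw [mul_zero, zero_mul] at h1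
      refine h1.congr' ?_
      filter_upwards [hLpos, hlog.eventually_gt_atTop 0] with a ha ha0
      have hLa : (L a : ℝ) ≠ 0 := by
        intro h; rw [h, zero_div] at ha; exact lt_irrefl _ ha
      rw [inv_div]
      field_simp
    have hG : Tendsto (fun a : ℕ => (∑ n ∈ Finset.Ico a (a + L a), r (w n) n / V (w n)) / L a)
        atTop (𝓝 1) := by
      rw [Metric.tendsto_atTop']
      intro η hη
      obtain ⟨b, hb⟩ : ∃ b : ℕ, C * Real.exp (-(b : ℝ)) < η / 2 := by
        have h1 : Tendsto (fun b : ℕ => C * Real.exp (-(b : ℝ))) atTop (𝓝 (C * 0)) :=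
          (Real.tendsto_exp_neg_atTop_nhds_zero.comp tendsto_natCast_atTop_atTop).const_mul C
        rw [mul_zero] at h1
        exact (h1.eventually (gt_mem_nhds (show (0 : ℝ) < η / 2 by positivity))).exists
      have hs2 : Tendsto (fun a : ℕ => 2 * C * (Real.log (2 * (a : ℝ)) / L a)) atTop
          (𝓝 (2 * C * 0)) := hsmall.const_mul _
      rw [mul_zero] at hs2
      have h3 := hs2.eventually (gt_mem_nhds (show (0 : ℝ) < η / 2 by positivity))
      have hpw := pow_le h2 hw (8 * b + 19)
      obtain ⟨n1, hn1⟩ := eventually_atTop.1 hpw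
      have hev := h3.and (hLpos.and (hLle.and (eventually_ge_atTop (n1 + 2))))
      obtain ⟨a1, ha1⟩ := eventually_atTop.1 hev
      refine ⟨a1, fun a ha => ?_⟩
      obtain ⟨h4, h5, h6, h7⟩ := ha1 a ha.le
      have hLa : (0 : ℝ) < L a := by
        rcases Nat.eq_zero_or_pos (L a) with h | h
        · rw [h] at h5; simp at h5
        · exact_mod_cast h
      have hLa' : 0 < L a := by exact_mod_cast hLa
      have hIco : Finset.Ico a (a + L a) = Finset.Ioc (a - 1) (a + L a - 1) := by
        ext n; rw [Finset.mem_Ico, Finset.mem_Ioc]; omega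
      have h8 := window hC hint w hm h2 b (a - 1) (a + L a - 1) (by omega)
      have h9 : ((a + L a - 1 : ℕ) : ℝ) - ((a - 1 : ℕ) : ℝ) = L a := by
        rw [Nat.cast_sub (by omega), Nat.cast_sub (by omega)]
        push_cast; ring
      rw [h9, ← hIco] at h8
      have h10 : (w (a + L a - 1) : ℝ) ^ (8 * b + 19) ≤ Real.log (2 * (a : ℝ)) := by
        refine (hn1 (a + L a - 1) (by omega)).trans ?_
        apply Real.log_le_log
        · exact_mod_cast (by omega : 0 < a + L a - 1)
        · have : a + L a - 1 ≤ 2 * a := by omega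
          exact_mod_cast this
      rw [Real.dist_eq]
      have e1 : (∑ n ∈ Finset.Ico a (a + L a), r (w n) n / V (w n)) / L a - 1 =
          (∑ n ∈ Finset.Ico a (a + L a), (r (w n) n / V (w n) - 1)) / L a := by
        rw [Finset.sum_sub_distrib, Finset.sum_const, Nat.card_Ico, nsmul_eq_mul, mul_one,
          Nat.add_sub_cancel_left, sub_div, div_self hLa.ne']
      rw [e1, abs_div, abs_of_pos hLa, div_lt_iff₀ hLa]
      calc |∑ n ∈ Finset.Ico a (a + L a), (r (w n) n / V (w n) - 1)|
          ≤ C * Real.exp (-(b : ℝ)) * L a + 2 * C * (w (a + L a - 1) : ℝ) ^ (8 * b + 19) := h8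
        _ ≤ C * Real.exp (-(b : ℝ)) * L a + 2 * C * Real.log (2 * (a : ℝ)) := by gcongr
        _ = (C * Real.exp (-(b : ℝ)) + 2 * C * (Real.log (2 * (a : ℝ)) / L a)) * L a := by
            field_simp
        _ < (η / 2 + η / 2) * L a := by
            apply mul_lt_mul_of_pos_right _ hLa
            linarith
        _ = η * L a := by ring
    -- the two bounds
    have hup : Tendsto (fun a : ℕ => (∑ n ∈ Finset.Ico a (a + L a), r (w n) n / V (w n)) /
        Real.log a ^ 2) atTop (𝓝 c) := by
      have h1 := hG.mul hfr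
      rw [one_mul] at h1
      refine h1.congr' ?_
      filter_upwards [hLpos, hlog.eventually_gt_atTop 0] with a ha ha0
      have hLa : (L a : ℝ) ≠ 0 := by
        intro h; rw [h, zero_div] at ha; exact lt_irrefl _ ha
      field_simp
    have hlow : Tendsto (fun a : ℕ => (∑ n ∈ Finset.Ico a (a + L a), r (w n) n / V (w n)) /
        Real.log a ^ 2 * (Real.log (2 * (a : ℝ)) / Real.log a)⁻¹) atTop (𝓝 c) := by
      have h1 := hup.mul (hratio.inv₀ one_ne_zero)
      rw [inv_one, mul_one] at h1
      exact h1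
    obtain ⟨n2, hn2⟩ := eventually_atTop.1 hd
    have hcoef : ∀ᶠ a : ℕ in atTop,
        (∑ n ∈ Finset.Ico a (a + L a), r (w n) n / V (w n)) / Real.log a ^ 2 *
          (Real.log (2 * (a : ℝ)) / Real.log a)⁻¹ ≤
          (∑ n ∈ Finset.Ico a (a + L a), d n) / Real.log a ∧
        (∑ n ∈ Finset.Ico a (a + L a), d n) / Real.log a ≤
          (∑ n ∈ Finset.Ico a (a + L a), r (w n) n / V (w n)) / Real.log a ^ 2 := by
      filter_upwards [hLle, eventually_ge_atTop (n2 + 2)] with a ha ha2
      have ha' : (2 : ℝ) ≤ a := by exact_mod_cast (by omega : 2 ≤ a)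
      have hla : 0 < Real.log (a : ℝ) := Real.log_pos (by linarith)
      have hl2a : 0 < Real.log (2 * (a : ℝ)) := Real.log_pos (by linarith)
      have hterm : ∀ n ∈ Finset.Ico a (a + L a),
          r (w n) n / V (w n) / Real.log (2 * (a : ℝ)) ≤ d n ∧
          d n ≤ r (w n) n / V (w n) / Real.log a := by
        intro n hn
        rw [Finset.mem_Ico] at hn
        rw [hn2 n (by omega), cgDens_eq]
        have hn0 : 0 ≤ r (w n) n / V (w n) := div_nonneg (r_nonneg _ _) (V_pos _ (h2 n)).le
        have h3 : (a : ℝ) ≤ n := by exact_mod_cast hn.1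
        have h4 : (n : ℝ) ≤ 2 * a := by
          have : n ≤ 2 * a := by omega
          exact_mod_cast this
        have h5 : Real.log (a : ℝ) ≤ Real.log n := Real.log_le_log (by linarith) h3
        have h6 : Real.log (n : ℝ) ≤ Real.log (2 * (a : ℝ)) := Real.log_le_log (by linarith) h4
        constructor
        · exact div_le_div_of_nonneg_left hn0 (by linarith) h6
        · exact div_le_div_of_nonneg_left hn0 hla h5
      constructor
      · have h7 := Finset.sum_le_sum (fun n hn => (hterm n hn).1)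
        rw [← Finset.sum_div] at h7
        have h8 := div_le_div_of_nonneg_right h7 hla.le
        refine le_trans (le_of_eq ?_) h8
        rw [inv_div]
        field_simp
      · have h7 := Finset.sum_le_sum (fun n hn => (hterm n hn).2)
        rw [← Finset.sum_div] at h7
        have h8 := div_le_div_of_nonneg_right h7 hla.le
        refine h8.trans (le_of_eq ?_)
        rw [div_div, sq]
    exact tendsto_of_tendsto_of_tendsto_of_le_of_le' hlow hup
      (hcoef.mono (fun a h => h.1)) (hcoef.mono (fun a h => h.2))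

variable {Ω : Type*} [m0 : MeasurableSpace Ω]

/-- Shanks' law for the Cramér–Granville models of level `w = (log n)^{o(1)}`. -/
theorem shanks {μ : Measure Ω} [IsProbabilityMeasure μ] {B : ℕ → Set Ω}
    (hB : ∀ n, MeasurableSet (B n)) (hI : iIndepSet B μ)
    {w : ℕ → ℕ} (hm : Monotone w) (h2 : ∀ n, 2 ≤ w n)
    (hw : (fun n => Real.log (w n)) =o[atTop] (fun n : ℕ => Real.log (Real.log n)))
    (hd : ∀ᶠ n in atTop, μ.real (B n) = cgDens w n) :
    ∀ᵐ ω ∂μ, ShanksLaw (evSet B ω) := by
  obtain ⟨h3, h4⟩ := regular hm h2 hw _ hd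
  exact Ind.shanks hB hI h3 h4

end Gra

end Pool.Agent.Lib.MP_926cc3_nt.RS
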