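import Pool.Agent.Lib.MP_926cc3_nt.RS.Prob

set_option autoImplicit false
set_option linter.unusedSectionVars false
set_option linter.unusedVariables false

open Filter Topology MeasureTheory

namespace Pool.Agent.Lib.MP_926cc3_nt.RS

variable {Ω : Type*} [m0 : MeasurableSpace Ω]

namespace Dens

variable {μ : Measure Ω} [IsProbabilityMeasure μ] {ℱ : Filtration ℕ m0} {R : Ω → Set ℕ}
  {d : ℕ → Ω → ℝ}

/-- regular compensator on `[a, m)` -/
def Reg (d : ℕ → Ω → ℝ) (κ s : ℝ) (a m : ℕ) : Set Ω :=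
  {ω | (∀ n, a ≤ n → n < m → d n ω ≤ κ) ∧ ∑ n ∈ Finset.Ico a m, d n ω ≤ s}

theorem Reg_mono (h : Dens μ ℱ R d) {κ s : ℝ} {a m : ℕ} (ham : a ≤ m) :
    Reg d κ s a (m + 1) ⊆ Reg d κ s a m := by
  rintro ω ⟨h1, h2⟩
  refine ⟨fun n hn1 hn2 => h1 n hn1 (by omega), ?_⟩
  rw [Finset.sum_Ico_succ_top ham] at h2
  linarith [h.nonneg m ω]

theorem Reg_meas (h : Dens μ ℱ R d) {κ s : ℝ} {a m k : ℕ} (ha : 1 ≤ a) (hk : m ≤ k + 2) :
    MeasurableSet[ℱ k] (Reg d κ s a m) := by
  have h1 : MeasurableSet[ℱ k] {ω | ∀ n, a ≤ n → n < m → d n ω ≤ κ} := by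
    have : {ω | ∀ n, a ≤ n → n < m → d n ω ≤ κ} = ⋂ n ∈ Finset.Ico a m, {ω | d n ω ≤ κ} := by
      ext ω
      simp only [Set.mem_ofPred_eq, Set.mem_iInter, Finset.mem_Ico]
      constructor
      · intro h n hn; exact h n hn.1 hn.2
      · intro h n h1 h2; exact h n ⟨h1, h2⟩
    rw [this]
    apply Finset.measurableSet_biInter
    intro n hn
    rw [Finset.mem_Ico] at hn
    exact (h.d_meas (n := n) (k := k) (by omega) (by omega)) measurableSet_Iic
  have h2 : MeasurableSet[ℱ k] {ω | ∑ n ∈ Finset.Ico a m, d n ω ≤ s} :=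
    (h.sum_meas (a := a) (m := m) (k := k) ha hk) measurableSet_Iic
  exact h1.inter h2

open Classical in
/-- the submartingale -/
noncomputable def T (R : Ω → Set ℕ) (d : ℕ → Ω → ℝ) (κ s t : ℝ) (a m : ℕ) (ω : Ω) : ℝ :=
  (Reg d κ s a m).indicator (W R d t a m) ω +
    (Reg d κ s a m)ᶜ.indicator (fun _ => Real.exp (t * s)) ω

theorem T_of_reg {κ s t : ℝ} {a m : ℕ} {ω : Ω} (h : ω ∈ Reg d κ s a m) :
    T R d κ s t a m ω = W R d t a m ω := by
  unfold T
  rw [Set.indicator_of_mem h, Set.indicator_of_notMem (by simpa using h), add_zero]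

theorem T_of_not {κ s t : ℝ} {a m : ℕ} {ω : Ω} (h : ω ∉ Reg d κ s a m) :
    T R d κ s t a m ω = Real.exp (t * s) := by
  unfold T
  rw [Set.indicator_of_notMem h, Set.indicator_of_mem (by simpa using h), zero_add]

theorem T_start {κ s t : ℝ} (hs : 0 ≤ s) (ht : 0 ≤ t) {a : ℕ} (ω : Ω) :
    T R d κ s t a a ω = 1 := by
  rw [T_of_reg]
  · simp [W]
  · refine ⟨fun n h1 h2 => by omega, by simpa using hs⟩

theorem T_nonneg {κ s t : ℝ} {a m : ℕ} (ω : Ω) : 0 ≤ T R d κ s t a m ω := by
  by_cases h : ω ∈ Reg d κ s a m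
  · rw [T_of_reg h]; exact W_nonneg _ _ _ _
  · rw [T_of_not h]; exact (Real.exp_pos _).le

theorem T_le (h : Dens μ ℱ R d) {κ s t : ℝ} (ht : 0 ≤ t) {a m : ℕ} (ω : Ω) :
    T R d κ s t a m ω ≤ Real.exp (t * s) := by
  by_cases h' : ω ∈ Reg d κ s a m
  · rw [T_of_reg h']
    exact (h.W_le a m ω).trans (Real.exp_le_exp.2 (mul_le_mul_of_nonneg_left h'.2 ht))
  · rw [T_of_not h']

theorem T_meas (h : Dens μ ℱ R d) {κ s t : ℝ} {a m : ℕ} (ha : 1 ≤ a) (hm : 1 ≤ m) :
    Measurable[ℱ (m - 1)] (T R d κ s t a m) := by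
  have h1 := (h.W_meas (t := t) (a := a) ha hm).indicator
    (h.Reg_meas (κ := κ) (s := s) (m := m) (k := m - 1) ha (by omega))
  have h2 : Measurable[ℱ (m - 1)] ((Reg d κ s a m)ᶜ.indicator (fun _ => Real.exp (t * s))) :=
    Measurable.indicator measurable_const
      (h.Reg_meas (κ := κ) (s := s) (m := m) (k := m - 1) ha (by omega)).compl
  exact h1.add h2

/-- one step of the submartingale -/
theorem int_T_step (h : Dens μ ℱ R d) {κ s t : ℝ} (ht : 0 ≤ t)
    (hκ : ∀ x : ℝ, 0 ≤ x → x ≤ κ → 1 ≤ Real.exp (t * x) * (1 - x))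
    {a m : ℕ} (ha : 1 ≤ a) (ham : a ≤ m) {A : Set Ω} (hA : MeasurableSet[ℱ (a - 1)] A) :
    ∫ ω, A.indicator (T R d κ s t a m) ω ∂μ ≤ ∫ ω, A.indicator (T R d κ s t a (m + 1)) ω ∂μ := by
  have hm : 1 ≤ m := ha.trans ham
  have hAm : MeasurableSet[ℱ (m - 1)] A := ℱ.mono (by omega) _ hA
  have hG := h.Reg_meas (κ := κ) (s := s) (m := m + 1) (k := m - 1) ha (by omega)
  set G := Reg d κ s a (m + 1) with hGdef
  set Z : Ω → ℝ := A.indicator (G.indicator (fun ω => W R d t a m ω * Real.exp (t * d m ω)))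
    with hZdef
  set Y : Ω → ℝ := A.indicator (Gᶜ.indicator (fun _ => Real.exp (t * s))) with hYdef
  have hWe : Measurable[ℱ (m - 1)] (fun ω => W R d t a m ω * Real.exp (t * d m ω)) :=
    (h.W_meas ha hm).mul (Real.measurable_exp.comp (measurable_const.mul (h.meas m hm)))
  have hZm : Measurable[ℱ (m - 1)] Z := (hWe.indicator hG).indicator hAm
  have hYm : Measurable[ℱ (m - 1)] Y := (measurable_const.indicator hG.compl).indicator hAm
  have hZb : ∀ ω, |Z ω| ≤ Real.exp (t * m) * Real.exp t := by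
    intro ω
    rw [hZdef]
    have h0 : 0 ≤ Real.exp (t * m) * Real.exp t := by positivity
    by_cases h1 : ω ∈ A
    · rw [Set.indicator_of_mem h1]
      by_cases h2 : ω ∈ G
      · rw [Set.indicator_of_mem h2, abs_mul, abs_of_nonneg (Real.exp_pos _).le]
        have h3 := h.W_bdd ht a m ω
        have h4 : Real.exp (t * d m ω) ≤ Real.exp t :=
          Real.exp_le_exp.2 (by nlinarith [h.le_one m ω])
        exact mul_le_mul h3 h4 (Real.exp_pos _).le (Real.exp_pos _).le
      · rw [Set.indicator_of_notMem h2, abs_zero]; exact h0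
    · rw [Set.indicator_of_notMem h1, abs_zero]; exact h0
  have hYb : ∀ ω, |Y ω| ≤ Real.exp (t * s) := by
    intro ω
    rw [hYdef]
    have h0 : 0 ≤ Real.exp (t * s) := by positivity
    by_cases h1 : ω ∈ A
    · rw [Set.indicator_of_mem h1]
      by_cases h2 : ω ∈ Gᶜ
      · rw [Set.indicator_of_mem h2, abs_of_nonneg h0]
      · rw [Set.indicator_of_notMem h2, abs_zero]; exact h0
    · rw [Set.indicator_of_notMem h1, abs_zero]; exact h0
  have hle := ℱ.le (m - 1)
  have hYI : Integrable Y μ := integrable_of Y (hYm.mono hle le_rfl) ⟨_, hYb⟩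
  -- the next value
  have e1 : ∀ ω, A.indicator (T R d κ s t a (m + 1)) ω = Z ω * (1 - ind R m ω) + Y ω := by
    intro ω
    by_cases h1 : ω ∈ A
    · rw [hZdef, hYdef, Set.indicator_of_mem h1, Set.indicator_of_mem h1,
        Set.indicator_of_mem h1]
      by_cases h2 : ω ∈ G
      · rw [Set.indicator_of_mem h2, Set.indicator_of_notMem (by simpa using h2), T_of_reg h2,
          W_succ ham]
        ring
      · rw [Set.indicator_of_notMem h2, Set.indicator_of_mem (by simpa using h2), T_of_not h2]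
        ring
    · rw [hZdef, hYdef, Set.indicator_of_notMem h1, Set.indicator_of_notMem h1,
        Set.indicator_of_notMem h1]
      ring
  have hdI : Integrable (fun ω => Z ω * (1 - d m ω)) μ := by
    apply integrable_of _
      ((hZm.mono hle le_rfl).mul (measurable_const.sub ((h.meas m hm).mono hle le_rfl)))
    refine ⟨Real.exp (t * m) * Real.exp t, fun ω => ?_⟩
    change |Z ω * (1 - d m ω)| ≤ _
    have h1 := h.le_one m ω
    have h2 := h.nonneg m ω
    rw [abs_mul, abs_of_nonneg (show 0 ≤ 1 - d m ω by linarith)]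
    have h3 := hZb ω
    have h4 := abs_nonneg (Z ω)
    nlinarith
  have hiI : Integrable (fun ω => Z ω * (1 - ind R m ω)) μ := by
    apply integrable_of _ ((hZm.mono hle le_rfl).mul
      (measurable_const.sub ((h.ind_meas m).mono (ℱ.le m) le_rfl)))
    refine ⟨Real.exp (t * m) * Real.exp t, fun ω => ?_⟩
    change |Z ω * (1 - ind R m ω)| ≤ _
    have h1 := ind_le_one (R := R) m ω
    have h2 := ind_nonneg (R := R) m ω
    rw [abs_mul, abs_of_nonneg (show 0 ≤ 1 - ind R m ω by linarith)]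
    have h3 := hZb ω
    have h4 := abs_nonneg (Z ω)
    nlinarith
  calc ∫ ω, A.indicator (T R d κ s t a m) ω ∂μ
      ≤ ∫ ω, (Z ω * (1 - d m ω) + Y ω) ∂μ := by
        apply integral_mono_of_nonneg
        · exact ae_of_all _ (fun ω => Set.indicator_nonneg (fun ω _ => T_nonneg ω) _)
        · exact hdI.add hYI
        · refine ae_of_all _ (fun ω => ?_)
          change A.indicator (T R d κ s t a m) ω ≤ Z ω * (1 - d m ω) + Y ω
          by_cases h1 : ω ∈ A
          · rw [hZdef, hYdef, Set.indicator_of_mem h1, Set.indicator_of_mem h1,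
              Set.indicator_of_mem h1]
            by_cases h2 : ω ∈ G
            · rw [Set.indicator_of_mem h2, Set.indicator_of_notMem (by simpa using h2),
                T_of_reg (h.Reg_mono ham h2), add_zero]
              have h3 := hκ (d m ω) (h.nonneg m ω) (h2.1 m ham (Nat.lt_succ_self m))
              have h4 := W_nonneg (R := R) (d := d) t a m ω
              calc W R d t a m ω = W R d t a m ω * 1 := (mul_one _).symm
                _ ≤ W R d t a m ω * (Real.exp (t * d m ω) * (1 - d m ω)) :=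
                    mul_le_mul_of_nonneg_left h3 h4
                _ = _ := by ring
            · rw [Set.indicator_of_notMem h2, Set.indicator_of_mem (by simpa using h2)]
              have := h.T_le (κ := κ) (s := s) ht (a := a) (m := m) ω
              linarith
          · rw [hZdef, hYdef, Set.indicator_of_notMem h1, Set.indicator_of_notMem h1,
              Set.indicator_of_notMem h1]
            simp
    _ = ∫ ω, Z ω * (1 - d m ω) ∂μ + ∫ ω, Y ω ∂μ := integral_add hdI hYI
    _ = ∫ ω, Z ω * (1 - ind R m ω) ∂μ + ∫ ω, Y ω ∂μ := by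
        rw [h.int_one_sub hm Z hZm ⟨_, hZb⟩]
    _ = ∫ ω, (Z ω * (1 - ind R m ω) + Y ω) ∂μ := (integral_add hiI hYI).symm
    _ = ∫ ω, A.indicator (T R d κ s t a (m + 1)) ω ∂μ := by
        apply integral_congr_ae
        exact ae_of_all _ (fun ω => (e1 ω).symm)

theorem int_T (h : Dens μ ℱ R d) {κ s t : ℝ} (hs : 0 ≤ s) (ht : 0 ≤ t)
    (hκ : ∀ x : ℝ, 0 ≤ x → x ≤ κ → 1 ≤ Real.exp (t * x) * (1 - x))
    {a m : ℕ} (ha : 1 ≤ a) (ham : a ≤ m) {A : Set Ω} (hA : MeasurableSet[ℱ (a - 1)] A) :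
    μ.real A ≤ ∫ ω, A.indicator (T R d κ s t a m) ω ∂μ := by
  induction m, ham using Nat.le_induction with
  | base =>
    have hAm : MeasurableSet A := ℱ.le _ _ hA
    have e : ∀ ω, A.indicator (T R d κ s t a a) ω = A.indicator (fun _ => (1 : ℝ)) ω := by
      intro ω
      by_cases h1 : ω ∈ A
      · rw [Set.indicator_of_mem h1, Set.indicator_of_mem h1, T_start hs ht]
      · rw [Set.indicator_of_notMem h1, Set.indicator_of_notMem h1]
    rw [integral_congr_ae (ae_of_all _ e), integral_indicator_const _ hAm]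
    simp
  | succ m ham ih => exact ih.trans (h.int_T_step ht hκ ha ham hA)

/-- an empty block, or an irregular compensator -/
def Good (R : Ω → Set ℕ) (d : ℕ → Ω → ℝ) (κ s : ℝ) (a m : ℕ) : Set Ω :=
  {ω | ∀ n, a ≤ n → n < m → n ∉ R ω} ∪ (Reg d κ s a m)ᶜ

theorem Good_meas (h : Dens μ ℱ R d) {κ s : ℝ} {a m k : ℕ} (ha : 1 ≤ a) (hk : m ≤ k + 1) :
    MeasurableSet[ℱ k] (Good R d κ s a m) :=
  (h.meas_empty a m hk).union (h.Reg_meas ha (by omega)).compl

theorem measure_good (h : Dens μ ℱ R d) {κ s t : ℝ} (hs : 0 ≤ s) (ht : 0 ≤ t)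
    (hκ : ∀ x : ℝ, 0 ≤ x → x ≤ κ → 1 ≤ Real.exp (t * x) * (1 - x))
    {a m : ℕ} (ha : 1 ≤ a) (ham : a ≤ m) {A : Set Ω} (hA : MeasurableSet[ℱ (a - 1)] A) :
    μ.real (A \ Good R d κ s a m) ≤ (1 - Real.exp (-(t * s))) * μ.real A := by
  have h1 := h.int_T hs ht hκ ha ham hA
  have hAm : MeasurableSet A := ℱ.le _ _ hA
  have hGm : MeasurableSet (Good R d κ s a m) :=
    ℱ.le m _ (h.Good_meas ha (Nat.le_succ m))
  have h2 : ∫ ω, A.indicator (T R d κ s t a m) ω ∂μ ≤
      Real.exp (t * s) * μ.real (A ∩ Good R d κ s a m) := by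
    have h3 : ∫ ω, (A ∩ Good R d κ s a m).indicator (fun _ => Real.exp (t * s)) ω ∂μ =
        Real.exp (t * s) * μ.real (A ∩ Good R d κ s a m) := by
      rw [integral_indicator_const _ (hAm.inter hGm), smul_eq_mul, mul_comm]
    rw [← h3]
    apply integral_mono_of_nonneg
    · exact ae_of_all _ (fun ω => Set.indicator_nonneg (fun ω _ => T_nonneg ω) _)
    · exact (integrable_const _).indicator (hAm.inter hGm)
    · refine ae_of_all _ (fun ω => ?_)
      change A.indicator (T R d κ s t a m) ω ≤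
        (A ∩ Good R d κ s a m).indicator (fun _ => Real.exp (t * s)) ω
      by_cases h4 : ω ∈ A
      · rw [Set.indicator_of_mem h4]
        by_cases h5 : ω ∈ Good R d κ s a m
        · rw [Set.indicator_of_mem (show ω ∈ A ∩ Good R d κ s a m from ⟨h4, h5⟩)]
          exact h.T_le ht ω
        · rw [Set.indicator_of_notMem (fun hh => h5 hh.2)]
          unfold Good at h5
          simp only [Set.mem_union, not_or, Set.mem_ofPred_eq, Set.mem_compl_iff, not_not] at h5
          obtain ⟨h6, h7⟩ := h5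
          push Not at h6
          obtain ⟨n, hn1, hn2, hn3⟩ := h6
          rw [T_of_reg h7, W_eq_zero hn1 hn2 hn3]
      · rw [Set.indicator_of_notMem h4, Set.indicator_of_notMem (fun hh => h4 hh.1)]
  have h3 : Real.exp (-(t * s)) * μ.real A ≤ μ.real (A ∩ Good R d κ s a m) := by
    rw [Real.exp_neg]
    rw [inv_mul_le_iff₀ (Real.exp_pos _)]
    linarith
  have h4 : μ.real (A ∩ Good R d κ s a m) + μ.real (A \ Good R d κ s a m) = μ.real A :=
    measureReal_inter_add_sdiff hGm
  nlinarith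

/-- many blocks -/
theorem measure_blocks (h : Dens μ ℱ R d) {κ s t : ℝ} (hs : 0 ≤ s) (ht : 0 ≤ t)
    (hκ : ∀ x : ℝ, 0 ≤ x → x ≤ κ → 1 ≤ Real.exp (t * x) * (1 - x))
    {x L : ℕ} (hx : 1 ≤ x) (N : ℕ) :
    MeasurableSet[ℱ (x + N * L - 1)]
      (⋂ j ∈ Finset.range N, (Good R d κ s (x + j * L) (x + j * L + L))ᶜ) ∧
    μ.real (⋂ j ∈ Finset.range N, (Good R d κ s (x + j * L) (x + j * L + L))ᶜ) ≤
      (1 - Real.exp (-(t * s))) ^ N := by
  induction N with
  | zero => 
    constructor
    · simp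
    · simp
  | succ N ih =>
    obtain ⟨h1, h2⟩ := ih
    have e : (⋂ j ∈ Finset.range (N + 1), (Good R d κ s (x + j * L) (x + j * L + L))ᶜ) =
        (⋂ j ∈ Finset.range N, (Good R d κ s (x + j * L) (x + j * L + L))ᶜ) \
          Good R d κ s (x + N * L) (x + N * L + L) := by
      ext ω
      simp only [Set.mem_iInter, Finset.mem_range, Set.mem_compl_iff, Set.mem_sdiff]
      constructor
      · intro hh
        exact ⟨fun j hj => hh j (by omega), hh N (by omega)⟩
      · rintro ⟨hh1, hh2⟩ j hj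
        rcases Nat.lt_succ_iff_lt_or_eq.1 hj with h3 | h3
        · exact hh1 j h3
        · rw [h3]; exact hh2
    rw [e]
    constructor
    · have e2 : x + (N + 1) * L - 1 = x + N * L + L - 1 := by ring_nf
      rw [e2]
      apply MeasurableSet.diff
      · exact ℱ.mono (by omega) _ h1
      · apply h.Good_meas (by omega)
        omega
    · have h3 := h.measure_good hs ht hκ (a := x + N * L) (m := x + N * L + L) (by omega)
        (by omega) h1
      refine h3.trans ?_
      rw [pow_succ, mul_comm ((1 - Real.exp (-(t * s))) ^ N)]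
      apply mul_le_mul_of_nonneg_left h2
      have : Real.exp (-(t * s)) ≤ 1 := Real.exp_le_one_iff.2 (by
        have := mul_nonneg ht hs
        linarith)
      linarith

end Dens

end Pool.Agent.Lib.MP_926cc3_nt.RS
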