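import Pool.Agent.Lib.MP_926cc3_nt.RS.Path

set_option autoImplicit false
set_option linter.unusedSectionVars false
set_option linter.unusedVariables false

open Filter Topology MeasureTheory ProbabilityTheory

namespace Pool.Agent.Lib.MP_926cc3_nt.RS

variable {Ω : Type*} [m0 : MeasurableSpace Ω]

/-- reciprocal of the sieving product -/
noncomputable def Dn (N : ℕ) (A : ℕ → ℕ → Set Ω) (n : ℕ) (ω : Ω) : ℝ :=
  (∏ m ∈ Finset.Ioo N n, (1 - ind (sieveSet N A) m ω / m))⁻¹

namespace Mart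

variable {μ : Measure Ω} [IsProbabilityMeasure μ] {N : ℕ} {A : ℕ → ℕ → Set Ω}

theorem prod_pos (n : ℕ) (ω : Ω) :
    0 < ∏ m ∈ Finset.Ioo N n, (1 - ind (sieveSet N A) m ω / m) :=
  Finset.prod_pos (fun m _ => by linarith [(Sieve.factor_bounds (N := N) (A := A) m ω).1])

theorem Dn_pos (n : ℕ) (ω : Ω) : 0 < Dn N A n ω := inv_pos.2 (prod_pos n ω)

theorem one_le_Dn (n : ℕ) (ω : Ω) : 1 ≤ Dn N A n ω :=
  (one_le_inv₀ (prod_pos n ω)).2 (Sieve.prod_le_one _ ω)

theorem Dn_succ {n : ℕ} (hn : N + 2 ≤ n) (ω : Ω) :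
    Dn N A (n + 1) ω = Dn N A n ω + Dn N A n ω / ((n : ℝ) - 1) * ind (sieveSet N A) n ω := by
  have h1 : Finset.Ioo N (n + 1) = insert n (Finset.Ioo N n) := by
    ext m; simp only [Finset.mem_Ioo, Finset.mem_insert]; omega
  unfold Dn
  rw [h1, Finset.prod_insert (by simp), mul_inv]
  set P := ∏ m ∈ Finset.Ioo N n, (1 - ind (sieveSet N A) m ω / m) with hP
  have hn2 : (2 : ℝ) ≤ n := by exact_mod_cast (by omega : 2 ≤ n)
  by_cases h : n ∈ sieveSet N A ω
  · rw [Dens.ind_of_mem h]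
    have h3 : (n : ℝ) - 1 ≠ 0 := by linarith
    have h4 : (n : ℝ) ≠ 0 := by linarith
    have h5 : 1 - 1 / (n : ℝ) ≠ 0 := by
      rw [sub_ne_zero]
      intro h6
      field_simp at h6
      linarith
    have h6 : (1 - 1 / (n : ℝ))⁻¹ = 1 + 1 / ((n : ℝ) - 1) := by
      rw [inv_eq_iff_eq_inv, eq_comm, inv_eq_iff_eq_inv, eq_comm]
      field_simp
      ring
    rw [h6]; ring
  · rw [Dens.ind_of_not h]; simp

theorem Dn_mono {m n : ℕ} (hm : N + 2 ≤ m) (hmn : m ≤ n) (ω : Ω) : Dn N A m ω ≤ Dn N A n ω := by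
  induction n, hmn using Nat.le_induction with
  | base => exact le_rfl
  | succ n hn ih =>
    rw [Dn_succ (by omega)]
    have h1 : (2 : ℝ) ≤ n := by exact_mod_cast (by omega : 2 ≤ n)
    have h2 := (Dn_pos (N := N) (A := A) n ω).le
    have h3 := Dens.ind_nonneg (R := sieveSet N A) n ω
    have : 0 ≤ Dn N A n ω / ((n : ℝ) - 1) * ind (sieveSet N A) n ω :=
      mul_nonneg (div_nonneg h2 (by linarith)) h3
    linarith

theorem Dn_bdd (n : ℕ) (ω : Ω) : |Dn N A n ω| ≤ 2 ^ n := by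
  rw [abs_of_pos (Dn_pos n ω)]
  unfold Dn
  rw [inv_le_comm₀ (prod_pos n ω) (by positivity)]
  have h1 : (1 / 2 : ℝ) ^ (Finset.Ioo N n).card ≤
      ∏ m ∈ Finset.Ioo N n, (1 - ind (sieveSet N A) m ω / m) := by
    rw [← Finset.prod_const]
    apply Finset.prod_le_prod
    · intro m _; norm_num
    · intro m _; exact (Sieve.factor_bounds m ω).1
  refine le_trans ?_ h1
  rw [← inv_pow, ← one_div]
  apply pow_le_pow_of_le_one (by norm_num) (by norm_num)
  rw [Nat.card_Ioo]; omega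

theorem Dn_meas (hA : ∀ m n, MeasurableSet (A m n)) {n k : ℕ} (h : n ≤ k + 1) :
    Measurable[filt A hA k] (Dn N A n) := by
  unfold Dn
  have : Measurable[filt A hA k] (fun ω => (∏ m ∈ Finset.Ioo N n,
      (1 - ind (sieveSet N A) m ω / m))⁻¹) := by
    apply Measurable.inv
    apply Finset.measurable_fun_prod
    intro m hm
    rw [Finset.mem_Ioo] at hm
    exact measurable_const.sub ((Sieve.ind_meas hA (by omega)).div_const _)
  exact this

theorem sdens_mul {n : ℕ} (hn : N + 2 ≤ n) (ω : Ω) :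
    Dn N A n ω * sdens N A n ω = cop N n := by
  rw [sdens, if_neg (by omega), Dn]
  have := (prod_pos (N := N) (A := A) n ω).ne'
  field_simp

/-- the martingale -/
noncomputable def f (N : ℕ) (A : ℕ → ℕ → Set Ω) (k : ℕ) (ω : Ω) : ℝ :=
  Dn N A (k + (N + 2)) ω - Path.S N (k + (N + 2))

/-- shifted filtration -/
def filt' (N : ℕ) (A : ℕ → ℕ → Set Ω) (hA : ∀ m n, MeasurableSet (A m n)) : Filtration ℕ m0 where
  seq k := filt A hA (k + (N + 1))
  mono' := fun a b hab => (filt A hA).mono (by omega)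
  le' := fun k => (filt A hA).le _

theorem S_succ (k : ℕ) : Path.S N (k + 1 + (N + 2)) = Path.S N (k + (N + 2)) +
    cop N (k + (N + 2)) / (((k + (N + 2) : ℕ) : ℝ) - 1) := by
  unfold Path.S
  have e : k + 1 + (N + 2) = (k + (N + 2)) + 1 := by ring
  rw [e, Finset.sum_Ico_succ_top (by omega)]

theorem f_succ (k : ℕ) (ω : Ω) : f N A (k + 1) ω = f N A k ω +
    (Dn N A (k + (N + 2)) ω * ind (sieveSet N A) (k + (N + 2)) ω - cop N (k + (N + 2))) /
      (((k + (N + 2) : ℕ) : ℝ) - 1) := by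
  unfold f
  have e : k + 1 + (N + 2) = (k + (N + 2)) + 1 := by ring
  rw [S_succ, e, Dn_succ (by omega)]
  ring

theorem f_meas (hA : ∀ m n, MeasurableSet (A m n)) (k : ℕ) :
    Measurable[filt' N A hA k] (f N A k) := by
  have : Measurable[filt A hA (k + (N + 1))] (fun ω => Dn N A (k + (N + 2)) ω -
      Path.S N (k + (N + 2))) := (Dn_meas hA (by omega)).sub_const _
  exact this

theorem f_bdd (k : ℕ) (ω : Ω) : |f N A k ω| ≤ 2 ^ (k + (N + 2)) + |Path.S N (k + (N + 2))| := by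
  unfold f
  exact (abs_sub _ _).trans (add_le_add (Dn_bdd _ ω) le_rfl)

theorem f_int (hA : ∀ m n, MeasurableSet (A m n)) (k : ℕ) : Integrable (f N A k) μ :=
  Dens.integrable_of _ ((f_meas hA k).mono ((filt' N A hA).le k) le_rfl) ⟨_, f_bdd k⟩

/-- increments -/
theorem incr (hA : ∀ m n, MeasurableSet (A m n))
    (hD : Dens μ (filt A hA) (sieveSet N A) (sdens N A)) {n : ℕ} (hn : N + 2 ≤ n)
    (Z : Ω → ℝ) (hZ : Measurable[filt A hA (n - 1)] Z) (hb : ∃ C, ∀ ω, |Z ω| ≤ C) :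
    ∫ ω, Z ω * (Dn N A n ω * ind (sieveSet N A) n ω) ∂μ = cop N n * ∫ ω, Z ω ∂μ := by
  obtain ⟨C, hC⟩ := hb
  have hZD : Measurable[filt A hA (n - 1)] (fun ω => Z ω * Dn N A n ω) :=
    hZ.mul (Dn_meas hA (by omega))
  have hb' : ∃ C', ∀ ω, |Z ω * Dn N A n ω| ≤ C' := by
    refine ⟨C * 2 ^ n, fun ω => ?_⟩
    rw [abs_mul]
    exact mul_le_mul (hC ω) (Dn_bdd n ω) (abs_nonneg _) ((abs_nonneg _).trans (hC ω))
  have h := hD.dens n (by omega) _ hZD hb'
  calc ∫ ω, Z ω * (Dn N A n ω * ind (sieveSet N A) n ω) ∂μ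
      = ∫ ω, (Z ω * Dn N A n ω) * ind (sieveSet N A) n ω ∂μ := by
        apply integral_congr_ae
        exact ae_of_all _ (fun ω => by simp only; ring)
    _ = ∫ ω, (Z ω * Dn N A n ω) * sdens N A n ω ∂μ := h
    _ = ∫ ω, cop N n * Z ω ∂μ := by
        apply integral_congr_ae
        refine ae_of_all _ (fun ω => ?_)
        simp only
        rw [mul_assoc, sdens_mul hn ω, mul_comm]
    _ = _ := integral_const_mul _ _

theorem Dn_int (hA : ∀ m n, MeasurableSet (A m n)) (n : ℕ) : Integrable (Dn N A n) μ :=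
  Dens.integrable_of _ ((Dn_meas hA (Nat.le_succ n)).mono ((filt A hA).le _) le_rfl)
    ⟨_, Dn_bdd n⟩

theorem martingale (hA : ∀ m n, MeasurableSet (A m n))
    (hD : Dens μ (filt A hA) (sieveSet N A) (sdens N A)) :
    Martingale (f N A) (filt' N A hA) μ := by
  apply martingale_of_setIntegral_eq_succ
  · intro k
    exact (f_meas hA k).stronglyMeasurable
  · exact f_int hA
  · intro k s hs
    have hs0 : MeasurableSet s := (filt' N A hA).le k _ hs
    set n := k + (N + 2) with hn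
    have hsn : MeasurableSet[filt A hA (n - 1)] s := by
      have e : n - 1 = k + (N + 1) := by omega
      rw [e]; exact hs
    rw [← integral_indicator hs0, ← integral_indicator hs0]
    set Z : Ω → ℝ := s.indicator (fun _ => (1 : ℝ)) with hZ
    have hZm : Measurable[filt A hA (n - 1)] Z := Measurable.indicator measurable_const hsn
    have hZb : ∀ ω, |Z ω| ≤ 1 := by
      intro ω
      rw [hZ, abs_of_nonneg (Set.indicator_nonneg (fun _ _ => zero_le_one) _)]
      exact Set.indicator_le_self' (fun _ _ => zero_le_one) _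
    have h1 := incr (μ := μ) hA hD (show N + 2 ≤ n by omega) Z hZm ⟨1, hZb⟩
    have hZ0 : Measurable Z := hZm.mono ((filt A hA).le _) le_rfl
    have hI1 : Integrable (s.indicator (f N A k)) μ := (f_int hA k).indicator hs0
    have hI2 : Integrable (fun ω => Z ω * (Dn N A n ω * ind (sieveSet N A) n ω)) μ := by
      apply Dens.integrable_of _ (hZ0.mul
        (((Dn_meas hA (Nat.le_succ n)).mono ((filt A hA).le _) le_rfl).mul
          ((Sieve.ind_meas hA le_rfl).mono ((filt A hA).le n) le_rfl)))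
      refine ⟨1 * (2 ^ n * 1), fun ω => ?_⟩
      change |Z ω * (Dn N A n ω * ind (sieveSet N A) n ω)| ≤ _
      rw [abs_mul, abs_mul]
      have h3 := Dens.ind_nonneg (R := sieveSet N A) n ω
      have h4 := Dens.ind_le_one (R := sieveSet N A) n ω
      rw [abs_of_nonneg h3]
      exact mul_le_mul (hZb ω) (mul_le_mul (Dn_bdd n ω) h4 h3 (by positivity))
        (by positivity) zero_le_one
    have hI3 : Integrable Z μ := Dens.integrable_of _ hZ0 ⟨1, hZb⟩
    set r : ℝ := ((n : ℕ) : ℝ) - 1 with hr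
    have e : ∀ ω, s.indicator (f N A (k + 1)) ω = s.indicator (f N A k) ω +
        ((1 / r) * (Z ω * (Dn N A n ω * ind (sieveSet N A) n ω)) - (cop N n / r) * Z ω) := by
      intro ω
      by_cases hω : ω ∈ s
      · rw [Set.indicator_of_mem hω, Set.indicator_of_mem hω, hZ, Set.indicator_of_mem hω,
          f_succ]
        ring
      · rw [Set.indicator_of_notMem hω, Set.indicator_of_notMem hω, hZ,
          Set.indicator_of_notMem hω]
        ring
    have g2 : Integrable (fun ω => (1 / r) * (Z ω * (Dn N A n ω * ind (sieveSet N A) n ω))) μ :=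
      hI2.const_mul _
    have g3 : Integrable (fun ω => (cop N n / r) * Z ω) μ := hI3.const_mul _
    have g23 : Integrable (fun ω => (1 / r) * (Z ω * (Dn N A n ω * ind (sieveSet N A) n ω)) -
      (cop N n / r) * Z ω) μ := g2.sub g3
    rw [integral_congr_ae (ae_of_all μ e), integral_add hI1 g23, integral_sub g2 g3,
      integral_const_mul, integral_const_mul, h1]
    ring

theorem int_Dn (hA : ∀ m n, MeasurableSet (A m n))
    (hD : Dens μ (filt A hA) (sieveSet N A) (sdens N A)) (k : ℕ) :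
    ∫ ω, Dn N A (k + (N + 2)) ω ∂μ ≤ 2 + ∑ i ∈ Finset.range k, 1 / ((i : ℝ) + 1) := by
  induction k with
  | zero =>
    have h1 : ∀ ω, Dn N A (0 + (N + 2)) ω ≤ 2 := by
      intro ω
      unfold Dn
      have e : Finset.Ioo N (0 + (N + 2)) = {N + 1} := by
        ext m; simp only [Finset.mem_Ioo, Finset.mem_singleton]; omega
      rw [e, Finset.prod_singleton]
      have := (Sieve.factor_bounds (N := N) (A := A) (N + 1) ω).1
      rw [inv_le_comm₀ (by linarith) (by norm_num)]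
      linarith
    calc ∫ ω, Dn N A (0 + (N + 2)) ω ∂μ ≤ ∫ ω, (2 : ℝ) ∂μ :=
          integral_mono (Dn_int hA _) (integrable_const _) h1
      _ = 2 := by simp
      _ ≤ _ := by simp
  | succ k ih =>
    set n := k + (N + 2) with hn
    have h1 := incr (μ := μ) hA hD (show N + 2 ≤ n by omega) (fun _ => 1) measurable_const
      ⟨1, fun ω => by simp⟩
    simp only [one_mul, integral_const, probReal_univ, smul_eq_mul, mul_one] at h1
    have e1 : k + 1 + (N + 2) = n + 1 := by omega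
    have hI2 : Integrable (fun ω => Dn N A n ω * ind (sieveSet N A) n ω) μ := by
      apply Dens.integrable_of _
        (((Dn_meas hA (Nat.le_succ n)).mono ((filt A hA).le _) le_rfl).mul
          ((Sieve.ind_meas hA le_rfl).mono ((filt A hA).le n) le_rfl))
      refine ⟨2 ^ n * 1, fun ω => ?_⟩
      change |Dn N A n ω * ind (sieveSet N A) n ω| ≤ _
      rw [abs_mul]
      have h3 := Dens.ind_nonneg (R := sieveSet N A) n ω
      have h4 := Dens.ind_le_one (R := sieveSet N A) n ω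
      rw [abs_of_nonneg h3]
      exact mul_le_mul (Dn_bdd n ω) h4 h3 (by positivity)
    have e2 : ∫ ω, Dn N A (k + 1 + (N + 2)) ω ∂μ = ∫ ω, Dn N A n ω ∂μ +
        (1 / ((n : ℝ) - 1)) * cop N n := by
      rw [e1]
      calc ∫ ω, Dn N A (n + 1) ω ∂μ = ∫ ω, (Dn N A n ω + (1 / ((n : ℝ) - 1)) *
            (Dn N A n ω * ind (sieveSet N A) n ω)) ∂μ := by
            apply integral_congr_ae
            refine ae_of_all _ (fun ω => ?_)
            simp only
            rw [Dn_succ (by omega)]; ring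
        _ = _ := by
            rw [integral_add (Dn_int hA n) (hI2.const_mul _), integral_const_mul, h1]
    rw [e2, Finset.sum_range_succ]
    have h2 : (1 / ((n : ℝ) - 1)) * cop N n ≤ 1 / ((k : ℝ) + 1) := by
      have h3 := Sieve.cop_le_one (N := N) n
      have h4 := Sieve.cop_nonneg (N := N) n
      have h5 : (k : ℝ) + 1 ≤ (n : ℝ) - 1 := by
        rw [hn]; push_cast
        have : (0 : ℝ) ≤ N := Nat.cast_nonneg _
        linarith
      have h6 : (0 : ℝ) ≤ k := Nat.cast_nonneg _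
      have h7 : 1 / ((n : ℝ) - 1) ≤ 1 / ((k : ℝ) + 1) :=
        one_div_le_one_div_of_le (by linarith) h5
      have h8 : 0 ≤ 1 / ((n : ℝ) - 1) := by
        apply div_nonneg zero_le_one; linarith
      nlinarith
    linarith

theorem harm_le (k : ℕ) : ∑ i ∈ Finset.range k, 1 / ((i : ℝ) + 1) ≤ 2 * Real.sqrt k := by
  induction k with
  | zero => simp
  | succ k ih =>
    rw [Finset.sum_range_succ]
    have h1 : 0 ≤ Real.sqrt k := Real.sqrt_nonneg _
    have h2 : 0 < Real.sqrt ((k + 1 : ℕ) : ℝ) := Real.sqrt_pos.2 (by positivity)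
    have h3 : Real.sqrt k ^ 2 = k := Real.sq_sqrt (Nat.cast_nonneg _)
    have h4 : Real.sqrt ((k + 1 : ℕ) : ℝ) ^ 2 = (k : ℝ) + 1 := by
      rw [Real.sq_sqrt (by positivity)]; push_cast; ring
    have h5 : Real.sqrt k ≤ Real.sqrt ((k + 1 : ℕ) : ℝ) := Real.sqrt_le_sqrt (by
      push_cast; linarith)
    have h6 : 1 ≤ Real.sqrt ((k + 1 : ℕ) : ℝ) := by
      rw [Real.one_le_sqrt]
      push_cast
      have : (0 : ℝ) ≤ k := Nat.cast_nonneg _
      linarith
    set a := Real.sqrt k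
    set b := Real.sqrt ((k + 1 : ℕ) : ℝ)
    have h7 : 1 / ((k : ℝ) + 1) ≤ 2 * (b - a) := by
      rw [← h4, div_le_iff₀ (by positivity)]
      have h8 : (b - a) * (b + a) = 1 := by nlinarith
      have h9 : 1 ≤ 2 * (b - a) * b ^ 2 := by
        have h10 : (b - a) * (b + a) ≤ (b - a) * (2 * b) :=
          mul_le_mul_of_nonneg_left (by linarith) (by linarith)
        have h11 : (b - a) * (2 * b) * 1 ≤ (b - a) * (2 * b) * b :=
          mul_le_mul_of_nonneg_left h6 (mul_nonneg (by linarith) (by linarith))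
        nlinarith
      linarith
    linarith

/-- second moments -/
theorem int_sq_step (hA : ∀ m n, MeasurableSet (A m n))
    (hD : Dens μ (filt A hA) (sieveSet N A) (sdens N A)) (k : ℕ) :
    ∫ ω, f N A (k + 1) ω ^ 2 ∂μ ≤ ∫ ω, f N A k ω ^ 2 ∂μ +
      (2 + 2 * Real.sqrt k) / ((k : ℝ) + 1) ^ 2 := by
  set n := k + (N + 2) with hn
  set r : ℝ := ((n : ℕ) : ℝ) - 1 with hr
  have hk0 : (0 : ℝ) ≤ k := Nat.cast_nonneg _
  have hrk : (k : ℝ) + 1 ≤ r := by
    rw [hr, hn]; push_cast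
    have : (0 : ℝ) ≤ N := Nat.cast_nonneg _
    linarith
  have hr0 : 0 < r := by linarith
  set X : Ω → ℝ := fun ω => Dn N A n ω * ind (sieveSet N A) n ω with hX
  have hDm : Measurable (Dn N A n) := (Dn_meas hA (Nat.le_succ n)).mono ((filt A hA).le _) le_rfl
  have him : Measurable (ind (sieveSet N A) n) :=
    (Sieve.ind_meas hA le_rfl).mono ((filt A hA).le n) le_rfl
  have hXb : ∀ ω, |X ω| ≤ 2 ^ n := by
    intro ω
    rw [hX]
    simp only
    rw [abs_mul]
    have h3 := Dens.ind_nonneg (R := sieveSet N A) n ω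
    have h4 := Dens.ind_le_one (R := sieveSet N A) n ω
    rw [abs_of_nonneg h3]
    have h5 := Dn_bdd (N := N) (A := A) n ω
    have h6 := abs_nonneg (Dn N A n ω)
    nlinarith
  have hfm : Measurable (f N A k) := (f_meas hA k).mono ((filt' N A hA).le k) le_rfl
  have hfm' : Measurable[filt A hA (n - 1)] (f N A k) := by
    have e : n - 1 = k + (N + 1) := by omega
    rw [e]; exact f_meas hA k
  -- integrals
  have i1 := incr (μ := μ) hA hD (show N + 2 ≤ n by omega) (f N A k) hfm' ⟨_, f_bdd k⟩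
  have i2 := incr (μ := μ) hA hD (show N + 2 ≤ n by omega) (Dn N A n)
    (Dn_meas hA (by omega)) ⟨_, Dn_bdd n⟩
  have i3 := incr (μ := μ) hA hD (show N + 2 ≤ n by omega) (fun _ => 1) measurable_const
      ⟨1, fun ω => by simp⟩
  simp only [one_mul, integral_const, probReal_univ, smul_eq_mul, mul_one] at i3
  have hsq : ∀ ω, X ω ^ 2 = Dn N A n ω * X ω := by
    intro ω
    rw [hX]
    by_cases h : n ∈ sieveSet N A ω
    · simp only [Dens.ind_of_mem h]; ring
    · simp only [Dens.ind_of_not h]; ring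
  have hI_ff : Integrable (fun ω => f N A k ω ^ 2) μ := by
    apply Dens.integrable_of _ (hfm.pow_const 2)
    refine ⟨(2 ^ (k + (N + 2)) + |Path.S N (k + (N + 2))|) ^ 2, fun ω => ?_⟩
    rw [abs_pow]
    exact pow_le_pow_left₀ (abs_nonneg _) (f_bdd k ω) 2
  have hI_fX : Integrable (fun ω => f N A k ω * X ω) μ := by
    apply Dens.integrable_of _ (hfm.mul (hDm.mul him))
    refine ⟨(2 ^ (k + (N + 2)) + |Path.S N (k + (N + 2))|) * 2 ^ n, fun ω => ?_⟩
    change |f N A k ω * X ω| ≤ _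
    rw [abs_mul]
    exact mul_le_mul (f_bdd k ω) (hXb ω) (abs_nonneg _) (by positivity)
  have hI_DX : Integrable (fun ω => Dn N A n ω * X ω) μ := by
    apply Dens.integrable_of _ (hDm.mul (hDm.mul him))
    refine ⟨2 ^ n * 2 ^ n, fun ω => ?_⟩
    change |Dn N A n ω * X ω| ≤ _
    rw [abs_mul]
    exact mul_le_mul (Dn_bdd n ω) (hXb ω) (abs_nonneg _) (by positivity)
  have hI_X : Integrable X μ := Dens.integrable_of _ (hDm.mul him) ⟨_, hXb⟩
  set c := cop N n with hc
  have hcc : c ^ 2 = c := by rw [hc, cop]; split_ifs <;> norm_num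
  have expand : ∀ ω, f N A (k + 1) ω ^ 2 = f N A k ω ^ 2 + (2 / r) * (f N A k ω * X ω) -
      (2 * c / r) * f N A k ω + (1 / r ^ 2) * (Dn N A n ω * X ω) - (2 * c / r ^ 2) * X ω +
      c / r ^ 2 := by
    intro ω
    have h1 := f_succ (N := N) (A := A) k ω
    rw [← hn, ← hr] at h1
    rw [h1]
    have h2 : Dn N A n ω * ind (sieveSet N A) n ω = X ω := rfl
    rw [h2, ← hsq ω, ← hc]
    field_simp
    linear_combination hcc
  have hval : ∫ ω, f N A (k + 1) ω ^ 2 ∂μ = ∫ ω, f N A k ω ^ 2 ∂μ +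
      (2 / r) * (c * ∫ ω, f N A k ω ∂μ) - (2 * c / r) * ∫ ω, f N A k ω ∂μ +
      (1 / r ^ 2) * (c * ∫ ω, Dn N A n ω ∂μ) - (2 * c / r ^ 2) * c + c / r ^ 2 := by
    rw [integral_congr_ae (ae_of_all μ expand)]
    have g2 : Integrable (fun ω => (2 / r) * (f N A k ω * X ω)) μ := hI_fX.const_mul _
    have g3 : Integrable (fun ω => (2 * c / r) * f N A k ω) μ := (f_int hA k).const_mul _
    have g4 : Integrable (fun ω => (1 / r ^ 2) * (Dn N A n ω * X ω)) μ := hI_DX.const_mul _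
    have g5 : Integrable (fun ω => (2 * c / r ^ 2) * X ω) μ := hI_X.const_mul _
    have s1 : Integrable (fun ω => f N A k ω ^ 2 + (2 / r) * (f N A k ω * X ω)) μ := hI_ff.add g2
    have s2 : Integrable (fun ω => f N A k ω ^ 2 + (2 / r) * (f N A k ω * X ω) -
      (2 * c / r) * f N A k ω) μ := s1.sub g3
    have s3 : Integrable (fun ω => f N A k ω ^ 2 + (2 / r) * (f N A k ω * X ω) -
      (2 * c / r) * f N A k ω + (1 / r ^ 2) * (Dn N A n ω * X ω)) μ := s2.add g4
    have s4 : Integrable (fun ω => f N A k ω ^ 2 + (2 / r) * (f N A k ω * X ω) -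
      (2 * c / r) * f N A k ω + (1 / r ^ 2) * (Dn N A n ω * X ω) - (2 * c / r ^ 2) * X ω) μ :=
      s3.sub g5
    rw [integral_add s4 (integrable_const _), integral_sub s3 g5, integral_add s2 g4,
      integral_sub s1 g3, integral_add hI_ff g2]
    rw [integral_const_mul, integral_const_mul, integral_const_mul, integral_const_mul]
    have j1 : ∫ ω, f N A k ω * X ω ∂μ = c * ∫ ω, f N A k ω ∂μ := i1
    have j2 : ∫ ω, Dn N A n ω * X ω ∂μ = c * ∫ ω, Dn N A n ω ∂μ := i2
    have j3 : ∫ ω, X ω ∂μ = c := i3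
    rw [j1, j2, j3]
    simp
  rw [hval]
  have hDn := (int_Dn hA hD k).trans (add_le_add le_rfl (harm_le k))
  rw [← hn] at hDn
  have hc0 : 0 ≤ c := Sieve.cop_nonneg n
  have hc1 : c ≤ 1 := Sieve.cop_le_one n
  have hDpos : 0 ≤ ∫ ω, Dn N A n ω ∂μ := integral_nonneg (fun ω => (Dn_pos n ω).le)
  have hfin : (1 / r ^ 2) * (c * ∫ ω, Dn N A n ω ∂μ) - (2 * c / r ^ 2) * c + c / r ^ 2 ≤
      (2 + 2 * Real.sqrt k) / ((k : ℝ) + 1) ^ 2 := by
    have e : (1 / r ^ 2) * (c * ∫ ω, Dn N A n ω ∂μ) - (2 * c / r ^ 2) * c + c / r ^ 2 =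
        (c * ∫ ω, Dn N A n ω ∂μ - 2 * c ^ 2 + c) / r ^ 2 := by ring
    rw [e, hcc]
    have h1 : c * ∫ ω, Dn N A n ω ∂μ - 2 * c + c ≤ 2 + 2 * Real.sqrt k := by nlinarith
    have h2 : 0 ≤ 2 + 2 * Real.sqrt k := by positivity
    calc (c * ∫ ω, Dn N A n ω ∂μ - 2 * c + c) / r ^ 2 ≤ (2 + 2 * Real.sqrt k) / r ^ 2 :=
          div_le_div_of_nonneg_right h1 (by positivity)
      _ ≤ (2 + 2 * Real.sqrt k) / ((k : ℝ) + 1) ^ 2 := by
          apply div_le_div_of_nonneg_left h2 (by positivity)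
          exact pow_le_pow_left₀ (by positivity) hrk 2
  have e0 : (2 / r) * (c * ∫ ω, f N A k ω ∂μ) - (2 * c / r) * ∫ ω, f N A k ω ∂μ = 0 := by ring
  linarith

theorem summ : Summable (fun k : ℕ => (2 + 2 * Real.sqrt k) / ((k : ℝ) + 1) ^ 2) := by
  have h1 : Summable (fun k : ℕ => 4 * (((k + 1 : ℕ) : ℝ)) ^ (-(3 / 2 : ℝ))) := by
    apply Summable.mul_left
    exact (summable_nat_add_iff 1).2 (Real.summable_nat_rpow.2 (by norm_num))
  refine Summable.of_nonneg_of_le (fun k => by positivity) (fun k => ?_) h1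
  have hk : (0 : ℝ) ≤ k := Nat.cast_nonneg _
  have hp : (0 : ℝ) < (k : ℝ) + 1 := by linarith
  have e : (((k + 1 : ℕ) : ℝ)) ^ (-(3 / 2 : ℝ)) = Real.sqrt ((k : ℝ) + 1) / ((k : ℝ) + 1) ^ 2 := by
    push_cast
    rw [Real.sqrt_eq_rpow, ← Real.rpow_natCast ((k : ℝ) + 1) 2, ← Real.rpow_sub hp]
    congr 1; norm_num
  rw [e, mul_div_assoc']
  apply div_le_div_of_nonneg_right _ (by positivity)
  have h2 : Real.sqrt k ≤ Real.sqrt ((k : ℝ) + 1) := Real.sqrt_le_sqrt (by linarith)
  have h3 : 1 ≤ Real.sqrt ((k : ℝ) + 1) := by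
    rw [Real.one_le_sqrt]; linarith
  linarith

theorem int_sq_bdd (hA : ∀ m n, MeasurableSet (A m n))
    (hD : Dens μ (filt A hA) (sieveSet N A) (sdens N A)) : ∃ C : ℝ, ∀ k,
    ∫ ω, f N A k ω ^ 2 ∂μ ≤ C := by
  refine ⟨∫ ω, f N A 0 ω ^ 2 ∂μ + ∑' k : ℕ, (2 + 2 * Real.sqrt k) / ((k : ℝ) + 1) ^ 2,
    fun k => ?_⟩
  have h1 : ∫ ω, f N A k ω ^ 2 ∂μ ≤ ∫ ω, f N A 0 ω ^ 2 ∂μ +
      ∑ i ∈ Finset.range k, (2 + 2 * Real.sqrt i) / ((i : ℝ) + 1) ^ 2 := by
    induction k with
    | zero => simp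
    | succ k ih =>
      rw [Finset.sum_range_succ]
      linarith [int_sq_step hA hD k]
  have h2 := summ.sum_le_tsum (Finset.range k) (fun i _ => by positivity)
  linarith

/-- almost surely the martingale converges, hence is bounded -/
theorem ae_bdd (hA : ∀ m n, MeasurableSet (A m n))
    (hD : Dens μ (filt A hA) (sieveSet N A) (sdens N A)) :
    ∀ᵐ ω ∂μ, ∃ C : ℝ, ∀ k, |f N A k ω| ≤ C := by
  obtain ⟨C, hC⟩ := int_sq_bdd hA hD
  have hm := (martingale hA hD).submartingale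
  have hb : ∀ k, eLpNorm (f N A k) 1 μ ≤ ((Real.toNNReal (1 + C) : NNReal) : ENNReal) := by
    intro k
    rw [eLpNorm_one_eq_lintegral_enorm, ← ofReal_integral_norm_eq_lintegral_enorm (f_int hA k)]
    have hI : Integrable (fun ω => f N A k ω ^ 2) μ := by
      apply Dens.integrable_of _
        (((f_meas hA k).mono ((filt' N A hA).le k) le_rfl).pow_const 2)
      refine ⟨(2 ^ (k + (N + 2)) + |Path.S N (k + (N + 2))|) ^ 2, fun ω => ?_⟩
      rw [abs_pow]
      exact pow_le_pow_left₀ (abs_nonneg _) (f_bdd k ω) 2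
    have h1 : ∫ ω, ‖f N A k ω‖ ∂μ ≤ 1 + C := by
      calc ∫ ω, ‖f N A k ω‖ ∂μ ≤ ∫ ω, (1 + f N A k ω ^ 2) ∂μ := by
            apply integral_mono (f_int hA k).norm ((integrable_const _).add hI)
            intro ω
            change ‖f N A k ω‖ ≤ 1 + f N A k ω ^ 2
            rw [Real.norm_eq_abs, ← sq_abs]
            nlinarith [sq_nonneg (|f N A k ω| - 1), abs_nonneg (f N A k ω)]
        _ = 1 + ∫ ω, f N A k ω ^ 2 ∂μ := by
            rw [integral_add (integrable_const _) hI]; simp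
        _ ≤ 1 + C := by linarith [hC k]
    rw [ENNReal.ofReal]
    exact_mod_cast Real.toNNReal_mono h1
  filter_upwards [hm.exists_ae_tendsto_of_bdd hb] with ω hω
  obtain ⟨c, hc⟩ := hω
  obtain ⟨C', hC'⟩ := (Metric.isBounded_range_of_tendsto _ hc).exists_norm_le
  exact ⟨C', fun k => hC' _ (Set.mem_range_self k)⟩

/-- Shanks' law for the random sieve -/
theorem shanks (hA : ∀ m n, MeasurableSet (A m n))
    (hI : iIndepSet (fun q : ℕ × ℕ => A q.1 q.2) μ)
    (hP : ∀ m n, N < m → m < n → μ.real (A m n) = 1 / m) :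
    ∀ᵐ ω ∂μ, ShanksLaw (sieveSet N A ω) := by
  have hD := Sieve.dens (μ := μ) hA hI hP
  have hreg : ∀ᵐ ω ∂μ, Tendsto (fun n => sdens N A n ω) atTop (𝓝 0) ∧
      Regular (fun n => sdens N A n ω) := by
    filter_upwards [ae_bdd hA hD] with ω hω
    obtain ⟨C, hC⟩ := hω
    apply Path.regular N (fun n => Dn N A n ω)
    · intro n _; exact Dn_pos n ω
    · intro m n hm hmn; exact Dn_mono hm hmn ω
    · intro n hn
      rw [eq_div_iff (Dn_pos n ω).ne', mul_comm]
      exact sdens_mul hn ω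
    · exact Path.D_asymp N _ C hC
  exact hD.shanks (hreg.mono (fun ω h => h.1)) (hreg.mono (fun ω h => h.2))

end Mart

end Pool.Agent.Lib.MP_926cc3_nt.RS
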