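import Pool.Agent.Lib.MP_926cc3_nt.RS.Sieve

set_option autoImplicit false
set_option linter.unusedSectionVars false
set_option linter.unusedVariables false

open Filter Topology

namespace Pool.Agent.Lib.MP_926cc3_nt.RS

namespace Path

/-- the density of the integers coprime to the primes up to `N` -/
noncomputable def theta (N : ℕ) : ℝ := ((primorial N).totient : ℝ) / (primorial N : ℝ)

theorem theta_pos (N : ℕ) : 0 < theta N := by
  unfold theta
  have h1 : 0 < primorial N := primorial_pos N
  have h2 : 0 < (primorial N).totient := Nat.totient_pos.2 h1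
  positivity

theorem theta_le_one (N : ℕ) : theta N ≤ 1 := by
  unfold theta
  have h1 : 0 < primorial N := primorial_pos N
  rw [div_le_one (by exact_mod_cast h1)]
  exact_mod_cast Nat.totient_le _

theorem cop_sum_period (N a : ℕ) :
    ∑ n ∈ Finset.Ico a (a + primorial N), cop N n = (primorial N).totient := by
  have h := Nat.filter_coprime_Ico_eq_totient (primorial N) a
  rw [← h]
  unfold cop
  rw [Finset.sum_ite]
  simp

theorem cop_sum_mul (N a q : ℕ) :
    ∑ n ∈ Finset.Ico a (a + q * primorial N), cop N n = q * (primorial N).totient := by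
  induction q with
  | zero => simp
  | succ q ih =>
    rw [← Finset.sum_Ico_consecutive _ (show a ≤ a + q * primorial N by omega)
      (show a + q * primorial N ≤ a + (q + 1) * primorial N by
        have : q * primorial N ≤ (q + 1) * primorial N := Nat.mul_le_mul_right _ (Nat.le_succ q)
        omega), ih]
    have e : a + (q + 1) * primorial N = a + q * primorial N + primorial N := by ring
    rw [e, cop_sum_period]
    push_cast; ring

theorem cop_count (N a L : ℕ) :
    |∑ n ∈ Finset.Ico a (a + L), cop N n - theta N * L| ≤ primorial N := by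
  have hP : 0 < primorial N := primorial_pos N
  have hP' : (0 : ℝ) < primorial N := by exact_mod_cast hP
  set q := L / primorial N with hq
  set r := L % primorial N with hr
  have hL : L = q * primorial N + r := by
    rw [hq, hr]; exact (Nat.div_add_mod' L _).symm
  have hrP : r < primorial N := Nat.mod_lt _ hP
  rw [← Finset.sum_Ico_consecutive _ (show a ≤ a + q * primorial N by omega)
      (show a + q * primorial N ≤ a + L by omega), cop_sum_mul]
  have h1 : 0 ≤ ∑ n ∈ Finset.Ico (a + q * primorial N) (a + L), cop N n :=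
    Finset.sum_nonneg (fun n _ => Sieve.cop_nonneg n)
  have h2 : ∑ n ∈ Finset.Ico (a + q * primorial N) (a + L), cop N n ≤ r := by
    calc ∑ n ∈ Finset.Ico (a + q * primorial N) (a + L), cop N n
        ≤ ∑ n ∈ Finset.Ico (a + q * primorial N) (a + L), (1 : ℝ) :=
          Finset.sum_le_sum (fun n _ => Sieve.cop_le_one n)
      _ = r := by
        simp only [Finset.sum_const, Nat.card_Ico, nsmul_eq_mul, mul_one]
        congr 1
        omega
  have h3 : theta N * L = q * (primorial N).totient + theta N * r := by
    rw [hL]; push_cast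
    rw [mul_add, theta]
    field_simp
  rw [h3]
  have h4 : (r : ℝ) ≤ primorial N := by exact_mod_cast hrP.le
  have h5 : 0 ≤ theta N * r := mul_nonneg (theta_pos N).le (Nat.cast_nonneg _)
  have h6 : theta N * r ≤ r := by
    have := theta_le_one N
    have h7 : (0 : ℝ) ≤ r := Nat.cast_nonneg _
    nlinarith
  rw [abs_le]
  constructor <;> linarith

/-- partial sums of `cop m / (m - 1)` -/
noncomputable def S (N n : ℕ) : ℝ := ∑ m ∈ Finset.Ico (N + 2) n, cop N m / ((m : ℝ) - 1)

theorem S_shift (N n : ℕ) : S N (n + (N + 2)) =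
    ∑ i ∈ Finset.range n, cop N (i + (N + 2)) / ((i : ℝ) + N + 1) := by
  unfold S
  rw [Finset.sum_Ico_eq_sum_range]
  have : n + (N + 2) - (N + 2) = n := by omega
  rw [this]
  apply Finset.sum_congr rfl
  intro i _
  have e : N + 2 + i = i + (N + 2) := by ring
  rw [e]
  congr 1
  push_cast; ring

theorem S_asymp (N : ℕ) : ∃ C : ℝ, ∀ n : ℕ, 1 ≤ n →
    |S N (n + (N + 2)) - theta N * Real.log n| ≤ C := by
  -- Dirichlet
  have hd : CauchySeq (fun n : ℕ => ∑ i ∈ Finset.range n,
      (1 / ((i : ℝ) + N + 1)) • (cop N (i + (N + 2)) - theta N)) := by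
    apply Antitone.cauchySeq_series_mul_of_tendsto_zero_of_bounded (b := (primorial N : ℝ))
    · intro i j hij
      have : (i : ℝ) ≤ j := by exact_mod_cast hij
      apply one_div_le_one_div_of_le (by positivity)
      linarith
    · apply Tendsto.div_atTop tendsto_const_nhds
      apply tendsto_atTop_add_const_right
      exact tendsto_atTop_add_const_right _ _ tendsto_natCast_atTop_atTop
    · intro n
      rw [Finset.sum_sub_distrib, Finset.sum_const, Finset.card_range, nsmul_eq_mul,
        Real.norm_eq_abs]
      have h := cop_count N (N + 2) n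
      rw [Finset.sum_Ico_eq_sum_range] at h
      have e : N + 2 + n - (N + 2) = n := by omega
      rw [e] at h
      have e2 : ∑ i ∈ Finset.range n, cop N (i + (N + 2)) =
          ∑ i ∈ Finset.range n, cop N (N + 2 + i) := by
        apply Finset.sum_congr rfl
        intro i _
        rw [add_comm]
      rw [e2, mul_comm (n : ℝ)]
      exact h
  obtain ⟨C1, hC1⟩ := hd.isBounded_range.exists_norm_le
  -- harmonic
  have hh : ∃ C2 : ℝ, ∀ n : ℕ, 1 ≤ n →
      |∑ i ∈ Finset.range n, 1 / ((i : ℝ) + N + 1) - Real.log n| ≤ C2 := by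
    refine ⟨N + 1, fun n hn => ?_⟩
    have hn' : (1 : ℝ) ≤ n := by exact_mod_cast hn
    have h1 : ((harmonic n : ℚ) : ℝ) = ∑ i ∈ Finset.range n, 1 / ((i : ℝ) + 1) := by
      rw [harmonic]; push_cast; simp
    have h2 : Real.log (n + 1) ≤ harmonic n := by
      have := log_add_one_le_harmonic n
      push_cast at this
      exact this
    have h3 : (harmonic n : ℝ) ≤ 1 + Real.log n := harmonic_le_one_add_log n
    have h4 : Real.log n ≤ Real.log (n + 1) := Real.log_le_log (by linarith) (by linarith)
    have h5 : ∑ i ∈ Finset.range n, 1 / ((i : ℝ) + N + 1) ≤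
        ∑ i ∈ Finset.range n, 1 / ((i : ℝ) + 1) := by
      apply Finset.sum_le_sum
      intro i _
      apply one_div_le_one_div_of_le (by positivity)
      have : (0 : ℝ) ≤ N := Nat.cast_nonneg _
      linarith
    have h6 : ∑ i ∈ Finset.range n, 1 / ((i : ℝ) + 1) -
        ∑ i ∈ Finset.range n, 1 / ((i : ℝ) + N + 1) ≤ N := by
      -- sum_{i<n} 1/(i+1) ≤ sum_{i<n+N} 1/(i+1) = sum_{i<N} + sum_{i<n} 1/(i+N+1)
      have e1 : ∑ i ∈ Finset.range (N + n), 1 / ((i : ℝ) + 1) =
          ∑ i ∈ Finset.range N, 1 / ((i : ℝ) + 1) +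
          ∑ i ∈ Finset.range n, 1 / ((i : ℝ) + N + 1) := by
        rw [Finset.sum_range_add]
        congr 1
        apply Finset.sum_congr rfl
        intro i _
        congr 1
        push_cast; ring
      have e2 : ∑ i ∈ Finset.range n, 1 / ((i : ℝ) + 1) ≤
          ∑ i ∈ Finset.range (N + n), 1 / ((i : ℝ) + 1) := by
        apply Finset.sum_le_sum_of_subset_of_nonneg
        · intro i hi
          rw [Finset.mem_range] at hi ⊢
          omega
        · intro i _ _; positivity
      have e3 : ∑ i ∈ Finset.range N, 1 / ((i : ℝ) + 1) ≤ N := by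
        calc ∑ i ∈ Finset.range N, 1 / ((i : ℝ) + 1) ≤ ∑ i ∈ Finset.range N, (1 : ℝ) := by
              apply Finset.sum_le_sum
              intro i _
              rw [div_le_one (by positivity)]
              have : (0 : ℝ) ≤ i := Nat.cast_nonneg _
              linarith
          _ = N := by simp
      linarith
    rw [abs_le]
    rw [h1] at h2 h3
    have : (0 : ℝ) ≤ N := Nat.cast_nonneg _
    constructor <;> linarith
  obtain ⟨C2, hC2⟩ := hh
  refine ⟨C1 + C2, fun n hn => ?_⟩
  have h1 := hC1 _ (Set.mem_range_self n)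
  rw [Real.norm_eq_abs] at h1
  have h2 := hC2 n hn
  have e : S N (n + (N + 2)) - theta N * Real.log n =
      (∑ i ∈ Finset.range n, (1 / ((i : ℝ) + N + 1)) • (cop N (i + (N + 2)) - theta N)) +
      theta N * (∑ i ∈ Finset.range n, 1 / ((i : ℝ) + N + 1) - Real.log n) := by
    rw [S_shift, mul_sub, Finset.mul_sum]
    have : ∑ i ∈ Finset.range n, (1 / ((i : ℝ) + N + 1)) • (cop N (i + (N + 2)) - theta N) =
        ∑ i ∈ Finset.range n, cop N (i + (N + 2)) / ((i : ℝ) + N + 1) -
        ∑ i ∈ Finset.range n, theta N * (1 / ((i : ℝ) + N + 1)) := by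
      rw [← Finset.sum_sub_distrib]
      apply Finset.sum_congr rfl
      intro i _
      rw [smul_eq_mul]; ring
    rw [this]; ring
  rw [e]
  refine (abs_add_le _ _).trans (add_le_add h1 ?_)
  rw [abs_mul, abs_of_pos (theta_pos N)]
  have h3 := theta_le_one N
  have h4 := (theta_pos N).le
  have h5 := abs_nonneg (∑ i ∈ Finset.range n, 1 / ((i : ℝ) + N + 1) - Real.log n)
  nlinarith

/-- If `D - S` is bounded then `D n / log n → θ`. -/
theorem D_asymp (N : ℕ) (D : ℕ → ℝ) (C : ℝ)
    (hD : ∀ k : ℕ, |D (k + (N + 2)) - S N (k + (N + 2))| ≤ C) :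
    Tendsto (fun n : ℕ => D n / Real.log n) atTop (𝓝 (theta N)) := by
  obtain ⟨C1, hC1⟩ := S_asymp N
  have hlog : Tendsto (fun n : ℕ => Real.log (n : ℝ)) atTop atTop :=
    Real.tendsto_log_atTop.comp tendsto_natCast_atTop_atTop
  -- it suffices along shift
  rw [← tendsto_add_atTop_iff_nat (N + 2)]
  have hratio : Tendsto (fun k : ℕ => Real.log (k : ℝ) / Real.log ((k + (N + 2) : ℕ) : ℝ)) atTop
      (𝓝 1) := by
    have h1 : Tendsto (fun k : ℕ => 1 - Real.log (N + 3) / Real.log ((k + (N + 2) : ℕ) : ℝ))
        atTop (𝓝 (1 - 0)) := by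
      apply Tendsto.const_sub
      apply Tendsto.div_atTop tendsto_const_nhds
      exact hlog.comp (tendsto_add_atTop_nat (N + 2))
    rw [sub_zero] at h1
    refine tendsto_of_tendsto_of_tendsto_of_le_of_le' h1 tendsto_const_nhds ?_ ?_
    · filter_upwards [eventually_ge_atTop 2] with k hk
      have hk' : (2 : ℝ) ≤ k := by exact_mod_cast hk
      have hpos : 0 < Real.log ((k + (N + 2) : ℕ) : ℝ) := Real.log_pos (by
        push_cast
        have : (0 : ℝ) ≤ N := Nat.cast_nonneg _
        linarith)
      rw [le_div_iff₀ hpos, sub_mul, one_mul, div_mul_cancel₀ _ hpos.ne']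
      have h2 : Real.log ((k + (N + 2) : ℕ) : ℝ) ≤ Real.log (k * (N + 3)) := by
        apply Real.log_le_log (by positivity)
        push_cast
        have : (0 : ℝ) ≤ N := Nat.cast_nonneg _
        nlinarith
      rw [Real.log_mul (by positivity) (by positivity)] at h2
      linarith
    · filter_upwards [eventually_ge_atTop 2] with k hk
      have hk' : (2 : ℝ) ≤ k := by exact_mod_cast hk
      have hpos : 0 < Real.log ((k + (N + 2) : ℕ) : ℝ) := Real.log_pos (by
        push_cast
        have : (0 : ℝ) ≤ N := Nat.cast_nonneg _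
        linarith)
      rw [div_le_one hpos]
      apply Real.log_le_log (by linarith)
      push_cast
      have : (0 : ℝ) ≤ N := Nat.cast_nonneg _
      linarith
  have hmain : Tendsto (fun k : ℕ => theta N * (Real.log (k : ℝ) /
      Real.log ((k + (N + 2) : ℕ) : ℝ))) atTop (𝓝 (theta N)) := by
    simpa using hratio.const_mul (theta N)
  have herr : Tendsto (fun k : ℕ => (C + C1) / Real.log ((k + (N + 2) : ℕ) : ℝ)) atTop (𝓝 0) := by
    apply Tendsto.div_atTop tendsto_const_nhds
    exact hlog.comp (tendsto_add_atTop_nat (N + 2))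
  rw [tendsto_iff_dist_tendsto_zero]
  have hmain' := tendsto_iff_dist_tendsto_zero.1 hmain
  have hsum := herr.add hmain'
  rw [add_zero] at hsum
  refine squeeze_zero' (Eventually.of_forall (fun _ => dist_nonneg)) ?_ hsum
  filter_upwards [eventually_ge_atTop 2] with k hk
  have hk' : (2 : ℝ) ≤ k := by exact_mod_cast hk
  have hpos : 0 < Real.log ((k + (N + 2) : ℕ) : ℝ) := Real.log_pos (by
    push_cast
    have : (0 : ℝ) ≤ N := Nat.cast_nonneg _
    linarith)
  refine (dist_triangle _ (theta N * (Real.log (k : ℝ) /
      Real.log ((k + (N + 2) : ℕ) : ℝ))) _).trans (add_le_add ?_ le_rfl)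
  rw [Real.dist_eq, mul_div_assoc', ← sub_div, abs_div, abs_of_pos hpos]
  apply div_le_div_of_nonneg_right _ hpos.le
  have h1 := hD k
  have h2 := hC1 k (by omega)
  calc |D (k + (N + 2)) - theta N * Real.log k|
      = |(D (k + (N + 2)) - S N (k + (N + 2))) + (S N (k + (N + 2)) - theta N * Real.log k)| := by
        congr 1; ring
    _ ≤ C + C1 := (abs_add_le _ _).trans (add_le_add h1 h2)

theorem floor_le_self (c : ℝ) (hc : 0 < c) : ∀ᶠ a : ℕ in atTop, ⌊c * Real.log a ^ 2⌋₊ ≤ a := by
  have h1 : Tendsto (fun x : ℝ => Real.log x ^ 2 / (1 * x + 0)) atTop (𝓝 0) :=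
    Real.tendsto_pow_log_div_mul_add_atTop 1 0 2 one_ne_zero
  have h3 := (h1.comp (tendsto_natCast_atTop_atTop (R := ℝ))).eventually
    (gt_mem_nhds (show (0:ℝ) < 1 / c by positivity))
  filter_upwards [h3, eventually_gt_atTop 0] with a ha ha0
  have ha0' : (0 : ℝ) < a := by exact_mod_cast ha0
  simp only [Function.comp] at ha
  rw [div_lt_iff₀ (by linarith)] at ha
  have h4 : c * Real.log a ^ 2 ≤ a := by
    have : c * Real.log a ^ 2 < c * (1 / c * (1 * a + 0)) := mul_lt_mul_of_pos_left ha hc
    have e : c * (1 / c * (1 * (a : ℝ) + 0)) = a := by field_simp; ring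
    linarith
  have h5 := Nat.floor_le_floor h4
  rwa [Nat.floor_natCast] at h5

theorem floor_ratio (c : ℝ) (hc : 0 < c) :
    Tendsto (fun a : ℕ => (⌊c * Real.log a ^ 2⌋₊ : ℝ) / Real.log a ^ 2) atTop (𝓝 c) := by
  have hlog : Tendsto (fun n : ℕ => Real.log (n : ℝ)) atTop atTop :=
    Real.tendsto_log_atTop.comp tendsto_natCast_atTop_atTop
  have hlog2 : Tendsto (fun n : ℕ => Real.log (n : ℝ) ^ 2) atTop atTop :=
    (tendsto_pow_atTop two_ne_zero).comp hlog
  have := (tendsto_nat_floor_mul_div_atTop (R := ℝ) hc.le).comp hlog2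
  exact this

/-- the pathwise regularity -/
theorem regular (N : ℕ) (D : ℕ → ℝ) (d : ℕ → ℝ)
    (hpos : ∀ n, N + 2 ≤ n → 0 < D n) (hmono : ∀ m n, N + 2 ≤ m → m ≤ n → D m ≤ D n)
    (hd : ∀ n, N + 2 ≤ n → d n = cop N n / D n)
    (hD : Tendsto (fun n : ℕ => D n / Real.log n) atTop (𝓝 (theta N))) :
    Tendsto d atTop (𝓝 0) ∧ Regular d := by
  have hlog : Tendsto (fun n : ℕ => Real.log (n : ℝ)) atTop atTop :=
    Real.tendsto_log_atTop.comp tendsto_natCast_atTop_atTop
  have hth := theta_pos N
  have hDtop : Tendsto D atTop atTop := by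
    have h1 : Tendsto (fun n : ℕ => D n / Real.log n * Real.log n) atTop atTop :=
      Tendsto.pos_mul_atTop hth hD hlog
    refine h1.congr' ?_
    filter_upwards [eventually_ge_atTop 2] with n hn
    have : 0 < Real.log (n : ℝ) := Real.log_pos (by exact_mod_cast (by omega : 1 < n))
    field_simp
  constructor
  · have h1 : Tendsto (fun n => 1 / D n) atTop (𝓝 0) := Tendsto.div_atTop tendsto_const_nhds hDtop
    refine squeeze_zero' ?_ ?_ h1
    · filter_upwards [eventually_ge_atTop (N + 2)] with n hn
      rw [hd n hn]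
      exact div_nonneg (Sieve.cop_nonneg n) (hpos n hn).le
    · filter_upwards [eventually_ge_atTop (N + 2)] with n hn
      rw [hd n hn]
      exact div_le_div_of_nonneg_right (Sieve.cop_le_one n) (hpos n hn).le
  · intro c hc
    set L : ℕ → ℕ := fun a => ⌊c * Real.log a ^ 2⌋₊ with hL
    have hfr := floor_ratio c hc
    have hP0 : Tendsto (fun a : ℕ => (primorial N : ℝ) / Real.log a ^ 2) atTop (𝓝 0) := by
      apply Tendsto.div_atTop tendsto_const_nhds
      exact (tendsto_pow_atTop two_ne_zero).comp hlog
    -- upper and lower counting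
    have hup : Tendsto (fun a : ℕ => (theta N * (L a : ℝ) + primorial N) / Real.log a ^ 2) atTop
        (𝓝 (theta N * c)) := by
      have := (hfr.const_mul (theta N)).add hP0
      rw [add_zero] at this
      refine this.congr (fun a => ?_)
      rw [add_div, mul_div_assoc]
    have hlow : Tendsto (fun a : ℕ => (theta N * (L a : ℝ) - primorial N) / Real.log a ^ 2) atTop
        (𝓝 (theta N * c)) := by
      have := (hfr.const_mul (theta N)).sub hP0
      rw [sub_zero] at this
      refine this.congr (fun a => ?_)
      rw [sub_div, mul_div_assoc]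
    -- D (2a) / log a
    have hD2 : Tendsto (fun a : ℕ => D (2 * a) / Real.log a) atTop (𝓝 (theta N)) := by
      have h1 : Tendsto (fun a : ℕ => 2 * a) atTop atTop :=
        tendsto_id.const_mul_atTop' (by norm_num)
      have h2 := hD.comp h1
      have h3 : Tendsto (fun a : ℕ => 1 + Real.log 2 / Real.log a) atTop (𝓝 (1 + 0)) :=
        (Tendsto.div_atTop tendsto_const_nhds hlog).const_add 1
      have h4 := h2.mul h3
      rw [add_zero, mul_one] at h4
      refine h4.congr' ?_
      filter_upwards [eventually_ge_atTop 2] with a ha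
      have ha' : (2 : ℝ) ≤ a := by exact_mod_cast ha
      have hp : 0 < Real.log (a : ℝ) := Real.log_pos (by linarith)
      have e : Real.log ((2 * a : ℕ) : ℝ) = Real.log 2 + Real.log a := by
        push_cast
        rw [Real.log_mul (by norm_num) (by linarith)]
      have hp2 : 0 < Real.log 2 + Real.log (a : ℝ) := by
        have := Real.log_pos (show (1:ℝ) < 2 by norm_num)
        linarith
      simp only [Function.comp]
      rw [e]
      field_simp
      ring
    have hlimU : Tendsto (fun a : ℕ => ((theta N * (L a : ℝ) + primorial N) / Real.log a ^ 2) /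
        (D a / Real.log a)) atTop (𝓝 c) := by
      have := hup.div hD hth.ne'
      have e : theta N * c / theta N = c := by field_simp
      rwa [e] at this
    have hlimL : Tendsto (fun a : ℕ => ((theta N * (L a : ℝ) - primorial N) / Real.log a ^ 2) /
        (D (2 * a) / Real.log a)) atTop (𝓝 c) := by
      have := hlow.div hD2 hth.ne'
      have e : theta N * c / theta N = c := by field_simp
      rwa [e] at this
    refine tendsto_of_tendsto_of_tendsto_of_le_of_le' hlimL hlimU ?_ ?_
    · filter_upwards [eventually_ge_atTop (N + 2), floor_le_self c hc] with a ha hLa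
      have ha2 : 2 ≤ a := by omega
      have ha' : (2 : ℝ) ≤ a := by exact_mod_cast ha2
      have hp : 0 < Real.log (a : ℝ) := Real.log_pos (by linarith)
      have hDa := hpos (2 * a) (by omega)
      have h1 := (abs_le.1 (cop_count N a (L a))).1
      have h2 : (theta N * (L a : ℝ) - primorial N) / D (2 * a) ≤
          ∑ n ∈ Finset.Ico a (a + L a), d n := by
        calc (theta N * (L a : ℝ) - primorial N) / D (2 * a)
            ≤ (∑ n ∈ Finset.Ico a (a + L a), cop N n) / D (2 * a) :=
              div_le_div_of_nonneg_right (by linarith) hDa.le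
          _ = ∑ n ∈ Finset.Ico a (a + L a), cop N n / D (2 * a) := Finset.sum_div _ _ _
          _ ≤ ∑ n ∈ Finset.Ico a (a + L a), d n := by
              apply Finset.sum_le_sum
              intro n hn
              rw [Finset.mem_Ico] at hn
              have hLa' : L a ≤ a := hLa
              rw [hd n (by omega)]
              apply div_le_div_of_nonneg_left (Sieve.cop_nonneg n) (hpos n (by omega))
              exact hmono n (2 * a) (by omega) (by omega)
      have h3 : ((theta N * (L a : ℝ) - primorial N) / Real.log a ^ 2) / (D (2 * a) / Real.log a) =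
          (theta N * (L a : ℝ) - primorial N) / D (2 * a) / Real.log a := by
        field_simp
      rw [h3]
      exact div_le_div_of_nonneg_right h2 hp.le
    · filter_upwards [eventually_ge_atTop (N + 2)] with a ha
      have ha2 : 2 ≤ a := by omega
      have ha' : (2 : ℝ) ≤ a := by exact_mod_cast ha2
      have hp : 0 < Real.log (a : ℝ) := Real.log_pos (by linarith)
      have hDa := hpos a ha
      have h1 := (abs_le.1 (cop_count N a (L a))).2
      have h2 : ∑ n ∈ Finset.Ico a (a + L a), d n ≤
          (theta N * (L a : ℝ) + primorial N) / D a := by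
        calc ∑ n ∈ Finset.Ico a (a + L a), d n
            ≤ ∑ n ∈ Finset.Ico a (a + L a), cop N n / D a := by
              apply Finset.sum_le_sum
              intro n hn
              rw [Finset.mem_Ico] at hn
              rw [hd n (by omega)]
              apply div_le_div_of_nonneg_left (Sieve.cop_nonneg n) hDa
              exact hmono a n ha (by omega)
          _ = (∑ n ∈ Finset.Ico a (a + L a), cop N n) / D a := (Finset.sum_div _ _ _).symm
          _ ≤ (theta N * (L a : ℝ) + primorial N) / D a :=
              div_le_div_of_nonneg_right (by linarith) hDa.le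
      have h3 : ((theta N * (L a : ℝ) + primorial N) / Real.log a ^ 2) / (D a / Real.log a) =
          (theta N * (L a : ℝ) + primorial N) / D a / Real.log a := by
        field_simp
      rw [h3]
      exact div_le_div_of_nonneg_right h2 hp.le

end Path

end Pool.Agent.Lib.MP_926cc3_nt.RS
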