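import Pool.Agent.Lib.MP_926cc3_nt.RS.Det

set_option autoImplicit false
set_option linter.unusedSectionVars false
set_option linter.unusedVariables false

open Filter Topology MeasureTheory

namespace Pool.Agent.Lib.MP_926cc3_nt.RS

variable {Ω : Type*} [m0 : MeasurableSpace Ω]

/-- indicator of the event that `n` belongs to the random set -/
noncomputable def ind (R : Ω → Set ℕ) (n : ℕ) : Ω → ℝ :=
  Set.indicator {ω | n ∈ R ω} (fun _ => (1 : ℝ))

/-- `d` is a predictable density of the adapted random set `R` -/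
structure Dens (μ : Measure Ω) (ℱ : Filtration ℕ m0) (R : Ω → Set ℕ) (d : ℕ → Ω → ℝ) : Prop where
  adapted : ∀ n, MeasurableSet[ℱ n] {ω | n ∈ R ω}
  meas : ∀ n, 1 ≤ n → Measurable[ℱ (n - 1)] (d n)
  nonneg : ∀ n ω, 0 ≤ d n ω
  le_one : ∀ n ω, d n ω ≤ 1
  dens : ∀ n, 1 ≤ n → ∀ Z : Ω → ℝ, Measurable[ℱ (n - 1)] Z → (∃ C, ∀ ω, |Z ω| ≤ C) →
    ∫ ω, Z ω * ind R n ω ∂μ = ∫ ω, Z ω * d n ω ∂μ

namespace Dens

variable {μ : Measure Ω} [IsProbabilityMeasure μ] {ℱ : Filtration ℕ m0} {R : Ω → Set ℕ}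
  {d : ℕ → Ω → ℝ}

theorem ind_nonneg (n : ℕ) (ω : Ω) : 0 ≤ ind R n ω :=
  Set.indicator_nonneg (fun _ _ => zero_le_one) _

theorem ind_le_one (n : ℕ) (ω : Ω) : ind R n ω ≤ 1 :=
  Set.indicator_le_self' (fun _ _ => zero_le_one) _

theorem ind_of_mem {n : ℕ} {ω : Ω} (h : n ∈ R ω) : ind R n ω = 1 := by
  unfold ind; rw [Set.indicator_of_mem]; exact h

theorem ind_of_not {n : ℕ} {ω : Ω} (h : n ∉ R ω) : ind R n ω = 0 := by
  unfold ind; rw [Set.indicator_of_notMem]; exact h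

theorem ind_meas (h : Dens μ ℱ R d) (n : ℕ) : Measurable[ℱ n] (ind R n) :=
  (@measurable_const _ _ _ (ℱ n) (1 : ℝ)).indicator (h.adapted n)

/-- the exponential functional -/
noncomputable def W (R : Ω → Set ℕ) (d : ℕ → Ω → ℝ) (t : ℝ) (a m : ℕ) (ω : Ω) : ℝ :=
  ∏ n ∈ Finset.Ico a m, ((1 - ind R n ω) * Real.exp (t * d n ω))

theorem W_succ {t : ℝ} {a m : ℕ} (ham : a ≤ m) (ω : Ω) :
    W R d t a (m + 1) ω = W R d t a m ω * Real.exp (t * d m ω) * (1 - ind R m ω) := by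
  unfold W
  rw [Finset.prod_Ico_succ_top ham]; ring

theorem W_nonneg (t : ℝ) (a m : ℕ) (ω : Ω) : 0 ≤ W R d t a m ω :=
  Finset.prod_nonneg (fun n _ => mul_nonneg (by linarith [ind_le_one (R := R) n ω])
    (Real.exp_pos _).le)

theorem W_le (h : Dens μ ℱ R d) {t : ℝ} (a m : ℕ) (ω : Ω) :
    W R d t a m ω ≤ Real.exp (t * ∑ n ∈ Finset.Ico a m, d n ω) := by
  unfold W
  rw [Finset.mul_sum, Real.exp_sum]
  apply Finset.prod_le_prod
  · intro n _
    exact mul_nonneg (by linarith [ind_le_one (R := R) n ω]) (Real.exp_pos _).le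
  · intro n _
    have := ind_nonneg (R := R) n ω
    nlinarith [Real.exp_pos (t * d n ω)]

theorem W_eq_zero {t : ℝ} {a m : ℕ} {ω : Ω} {n : ℕ} (h1 : a ≤ n) (h2 : n < m) (h3 : n ∈ R ω) :
    W R d t a m ω = 0 := by
  unfold W
  apply Finset.prod_eq_zero (Finset.mem_Ico.2 ⟨h1, h2⟩)
  rw [ind_of_mem h3]; simp

theorem W_eq {t : ℝ} {a m : ℕ} {ω : Ω} (h3 : ∀ n, a ≤ n → n < m → n ∉ R ω) :
    W R d t a m ω = Real.exp (t * ∑ n ∈ Finset.Ico a m, d n ω) := by
  unfold W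
  rw [Finset.mul_sum, Real.exp_sum]
  apply Finset.prod_congr rfl
  intro n hn
  rw [Finset.mem_Ico] at hn
  rw [ind_of_not (h3 n hn.1 hn.2)]; ring

theorem sum_le (h : Dens μ ℱ R d) (a m : ℕ) (ω : Ω) :
    ∑ n ∈ Finset.Ico a m, d n ω ≤ m := by
  calc ∑ n ∈ Finset.Ico a m, d n ω ≤ ∑ n ∈ Finset.Ico a m, (1 : ℝ) :=
        Finset.sum_le_sum (fun n _ => h.le_one n ω)
    _ = ((m - a : ℕ) : ℝ) := by simp
    _ ≤ m := by exact_mod_cast Nat.sub_le m a

theorem sum_nonneg (h : Dens μ ℱ R d) (a m : ℕ) (ω : Ω) :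
    0 ≤ ∑ n ∈ Finset.Ico a m, d n ω := Finset.sum_nonneg (fun n _ => h.nonneg n ω)

theorem W_bdd (h : Dens μ ℱ R d) {t : ℝ} (ht : 0 ≤ t) (a m : ℕ) (ω : Ω) :
    |W R d t a m ω| ≤ Real.exp (t * m) := by
  rw [abs_of_nonneg (W_nonneg t a m ω)]
  refine (W_le h a m ω).trans (Real.exp_le_exp.2 ?_)
  exact mul_le_mul_of_nonneg_left (h.sum_le a m ω) ht

theorem d_meas (h : Dens μ ℱ R d) {n k : ℕ} (hn : 1 ≤ n) (hk : n ≤ k + 1) :
    Measurable[ℱ k] (d n) := (h.meas n hn).mono (ℱ.mono (by omega)) le_rfl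

theorem ind_meas' (h : Dens μ ℱ R d) {n k : ℕ} (hk : n ≤ k) :
    Measurable[ℱ k] (ind R n) := (h.ind_meas n).mono (ℱ.mono hk) le_rfl

theorem W_meas (h : Dens μ ℱ R d) {t : ℝ} {a m : ℕ} (ha : 1 ≤ a) (hm : 1 ≤ m) :
    Measurable[ℱ (m - 1)] (W R d t a m) := by
  unfold W
  have : Measurable[ℱ (m - 1)] (fun ω => ∏ n ∈ Finset.Ico a m,
      ((1 - ind R n ω) * Real.exp (t * d n ω))) := by
    apply Finset.measurable_fun_prod
    intro n hn
    rw [Finset.mem_Ico] at hn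
    apply Measurable.mul
    · exact measurable_const.sub (h.ind_meas' (by omega))
    · exact Real.measurable_exp.comp (measurable_const.mul (h.d_meas (by omega) (by omega)))
  exact this

theorem integrable_of (Z : Ω → ℝ) (hZ : Measurable Z) (hb : ∃ C, ∀ ω, |Z ω| ≤ C) :
    Integrable Z μ := by
  obtain ⟨C, hC⟩ := hb
  exact Integrable.of_bound hZ.aestronglyMeasurable C (ae_of_all _ (fun ω => by
    rw [Real.norm_eq_abs]; exact hC ω))

theorem sum_meas (h : Dens μ ℱ R d) {a m k : ℕ} (ha : 1 ≤ a) (hk : m ≤ k + 2) :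
    Measurable[ℱ k] (fun ω => ∑ n ∈ Finset.Ico a m, d n ω) := by
  apply Finset.measurable_fun_sum
  intro n hn
  rw [Finset.mem_Ico] at hn
  exact h.d_meas (by omega) (by omega)

/-- the key identity, in the form used below -/
theorem int_one_sub (h : Dens μ ℱ R d) {n : ℕ} (hn : 1 ≤ n) (Z : Ω → ℝ)
    (hZ : Measurable[ℱ (n - 1)] Z) (hb : ∃ C, ∀ ω, |Z ω| ≤ C) :
    ∫ ω, Z ω * (1 - ind R n ω) ∂μ = ∫ ω, Z ω * (1 - d n ω) ∂μ := by
  have hZ0 : Measurable Z := hZ.mono (ℱ.le _) le_rfl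
  have hI := integrable_of (μ := μ) Z hZ0 hb
  obtain ⟨C, hC⟩ := hb
  have hI1 : Integrable (fun ω => Z ω * ind R n ω) μ := by
    apply integrable_of _ (hZ0.mul ((h.ind_meas n).mono (ℱ.le _) le_rfl))
    refine ⟨C, fun ω => ?_⟩
    change |Z ω * ind R n ω| ≤ C
    rw [abs_mul, abs_of_nonneg (ind_nonneg n ω)]
    have h1 := ind_le_one (R := R) n ω
    have h2 := hC ω
    have h3 := abs_nonneg (Z ω)
    nlinarith
  have hI2 : Integrable (fun ω => Z ω * d n ω) μ := by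
    apply integrable_of _ (hZ0.mul ((h.meas n hn).mono (ℱ.le _) le_rfl))
    refine ⟨C, fun ω => ?_⟩
    change |Z ω * d n ω| ≤ C
    rw [abs_mul, abs_of_nonneg (h.nonneg n ω)]
    have h1 := h.le_one n ω
    have h2 := hC ω
    have h3 := abs_nonneg (Z ω)
    nlinarith
  have e1 : ∫ ω, Z ω * (1 - ind R n ω) ∂μ = ∫ ω, Z ω ∂μ - ∫ ω, Z ω * ind R n ω ∂μ := by
    rw [← integral_sub hI hI1]
    apply integral_congr_ae
    exact ae_of_all _ (fun ω => by ring)
  have e2 : ∫ ω, Z ω * (1 - d n ω) ∂μ = ∫ ω, Z ω ∂μ - ∫ ω, Z ω * d n ω ∂μ := by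
    rw [← integral_sub hI hI2]
    apply integral_congr_ae
    exact ae_of_all _ (fun ω => by ring)
  rw [e1, e2, h.dens n hn Z hZ ⟨C, hC⟩]

theorem int_W_le (h : Dens μ ℱ R d) {a m : ℕ} (ha : 1 ≤ a) (ham : a ≤ m) :
    ∫ ω, W R d 1 a m ω ∂μ ≤ 1 := by
  induction m, ham using Nat.le_induction with
  | base => simp [W]
  | succ m ham ih =>
    have hm : 1 ≤ m := ha.trans ham
    have hWm := h.W_meas (t := 1) (a := a) (m := m) ha hm
    have hZ : Measurable[ℱ (m - 1)] (fun ω => W R d 1 a m ω * Real.exp (1 * d m ω)) :=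
      hWm.mul (Real.measurable_exp.comp (measurable_const.mul (h.meas m hm)))
    have hb : ∀ ω, |W R d 1 a m ω * Real.exp (1 * d m ω)| ≤
        Real.exp (1 * m) * Real.exp 1 := by
      intro ω
      rw [abs_mul, abs_of_nonneg (Real.exp_pos _).le]
      have h1 := h.W_bdd (t := 1) zero_le_one a m ω
      have h2 : Real.exp (1 * d m ω) ≤ Real.exp 1 :=
        Real.exp_le_exp.2 (by linarith [h.le_one m ω])
      exact mul_le_mul h1 h2 (Real.exp_pos _).le (Real.exp_pos _).le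
    calc ∫ ω, W R d 1 a (m + 1) ω ∂μ
        = ∫ ω, (W R d 1 a m ω * Real.exp (1 * d m ω)) * (1 - ind R m ω) ∂μ := by
          apply integral_congr_ae
          exact ae_of_all _ (fun ω => W_succ ham ω)
      _ = ∫ ω, (W R d 1 a m ω * Real.exp (1 * d m ω)) * (1 - d m ω) ∂μ :=
          h.int_one_sub hm _ hZ ⟨_, hb⟩
      _ ≤ ∫ ω, W R d 1 a m ω ∂μ := by
          apply integral_mono_of_nonneg
          · refine ae_of_all _ (fun ω => ?_)
            exact mul_nonneg (mul_nonneg (W_nonneg _ _ _ _) (Real.exp_pos _).le)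
              (by linarith [h.le_one m ω])
          · exact integrable_of _ (hWm.mono (ℱ.le _) le_rfl)
              ⟨_, fun ω => h.W_bdd zero_le_one a m ω⟩
          · refine ae_of_all _ (fun ω => ?_)
            have h1 : 1 - d m ω ≤ Real.exp (-(d m ω)) := Real.one_sub_le_exp_neg _
            have h2 : Real.exp (1 * d m ω) * (1 - d m ω) ≤ 1 := by
              calc Real.exp (1 * d m ω) * (1 - d m ω)
                  ≤ Real.exp (1 * d m ω) * Real.exp (-(d m ω)) :=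
                    mul_le_mul_of_nonneg_left h1 (Real.exp_pos _).le
                _ = 1 := by rw [← Real.exp_add]; simp
            have h3 := W_nonneg (R := R) (d := d) 1 a m ω
            calc W R d 1 a m ω * Real.exp (1 * d m ω) * (1 - d m ω)
                = W R d 1 a m ω * (Real.exp (1 * d m ω) * (1 - d m ω)) := by ring
              _ ≤ W R d 1 a m ω * 1 := mul_le_mul_of_nonneg_left h2 h3
              _ = W R d 1 a m ω := mul_one _
      _ ≤ 1 := ih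

/-- the event: no element in `[a, m)` and large compensator -/
def EmptyBig (R : Ω → Set ℕ) (d : ℕ → Ω → ℝ) (a m : ℕ) (s : ℝ) : Set Ω :=
  {ω | (∀ n, a ≤ n → n < m → n ∉ R ω) ∧ s ≤ ∑ n ∈ Finset.Ico a m, d n ω}

theorem meas_empty (h : Dens μ ℱ R d) (a m : ℕ) {k : ℕ} (hk : m ≤ k + 1) :
    MeasurableSet[ℱ k] {ω | ∀ n, a ≤ n → n < m → n ∉ R ω} := by
  have : {ω | ∀ n, a ≤ n → n < m → n ∉ R ω} = ⋂ n ∈ Finset.Ico a m, {ω | n ∈ R ω}ᶜ := by
    ext ω
    simp only [Set.mem_ofPred_eq, Set.mem_iInter, Finset.mem_Ico, Set.mem_compl_iff]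
    constructor
    · intro h n hn; exact h n hn.1 hn.2
    · intro h n h1 h2; exact h n ⟨h1, h2⟩
  rw [this]
  apply Finset.measurableSet_biInter
  intro n hn
  rw [Finset.mem_Ico] at hn
  exact ((ℱ.mono (show n ≤ k by omega)) _ (h.adapted n)).compl

theorem meas_emptyBig (h : Dens μ ℱ R d) {a m : ℕ} (ha : 1 ≤ a) (s : ℝ) :
    MeasurableSet (EmptyBig R d a m s) := by
  have h1 : MeasurableSet {ω | ∀ n, a ≤ n → n < m → n ∉ R ω} :=
    ℱ.le m _ (h.meas_empty a m (Nat.le_succ m))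
  have h2 : MeasurableSet {ω | s ≤ ∑ n ∈ Finset.Ico a m, d n ω} :=
    measurableSet_le measurable_const ((h.sum_meas (k := m) ha (by omega)).mono (ℱ.le _) le_rfl)
  exact h1.inter h2

theorem measure_emptyBig (h : Dens μ ℱ R d) {a m : ℕ} (ha : 1 ≤ a) (ham : a ≤ m) (s : ℝ) :
    μ (EmptyBig R d a m s) ≤ ENNReal.ofReal (Real.exp (-s)) := by
  have h1 := h.int_W_le ha ham
  have hms := h.meas_emptyBig (m := m) ha s
  have h2 : Real.exp s * μ.real (EmptyBig R d a m s) ≤ ∫ ω, W R d 1 a m ω ∂μ := by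
    have h3 : ∫ ω, (EmptyBig R d a m s).indicator (fun _ => Real.exp s) ω ∂μ =
        Real.exp s * μ.real (EmptyBig R d a m s) := by
      rw [integral_indicator_const _ hms, smul_eq_mul, mul_comm]
    rw [← h3]
    apply integral_mono_of_nonneg
    · exact ae_of_all _ (fun ω => Set.indicator_nonneg (fun _ _ => (Real.exp_pos _).le) _)
    · exact integrable_of _ ((h.W_meas ha (ha.trans ham)).mono (ℱ.le _) le_rfl)
        ⟨_, fun ω => h.W_bdd zero_le_one a m ω⟩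
    · refine ae_of_all _ (fun ω => ?_)
      by_cases hω : ω ∈ EmptyBig R d a m s
      · rw [Set.indicator_of_mem hω, W_eq hω.1, one_mul]
        exact Real.exp_le_exp.2 hω.2
      · rw [Set.indicator_of_notMem hω]
        exact W_nonneg _ _ _ _
  have h4 : μ.real (EmptyBig R d a m s) ≤ Real.exp (-s) := by
    rw [Real.exp_neg, ← one_div, le_div_iff₀ (Real.exp_pos s)]
    linarith
  rw [← ENNReal.ofReal_toReal (measure_ne_top μ (EmptyBig R d a m s))]
  exact ENNReal.ofReal_le_ofReal h4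

end Dens

end Pool.Agent.Lib.MP_926cc3_nt.RS
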