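import Pool.Agent.Lib.MP_926cc3_nt.RS.Univ

set_option autoImplicit false
set_option linter.unusedSectionVars false
set_option linter.unusedVariables false

open Filter Topology MeasureTheory ProbabilityTheory

namespace Pool.Agent.Lib.MP_926cc3_nt.RS

theorem kept_iff (strike : ℕ → ℕ → Prop) (n : ℕ) :
    Kept strike n ↔ 2 ≤ n ∧ ∀ m < n, Kept strike m → ¬ strike m n := by
  rw [Kept]

/-- The sieve of Eratosthenes: if `m` strikes out its multiples, the kept numbers are the primes. -/
theorem kept_dvd (n : ℕ) : Kept (fun m n => m ∣ n) n ↔ n.Prime := by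
  induction n using Nat.strong_induction_on with
  | _ n ih =>
    rw [kept_iff]
    constructor
    · rintro ⟨h2, h⟩
      by_contra hp
      have h3 := Nat.minFac_prime (show n ≠ 1 by omega)
      have h4 : n.minFac < n := (Nat.not_prime_iff_minFac_lt h2).1 hp
      exact h _ h4 ((ih _ h4).2 h3) (Nat.minFac_dvd n)
    · intro hp
      refine ⟨hp.two_le, fun m hm hk hd => ?_⟩
      have h3 := ((ih m hm).1 hk)
      rcases (Nat.dvd_prime hp).1 hd with h4 | h4
      · exact h3.one_lt.ne' h4
      · omega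

theorem kept_small (N : ℕ) (A : ℕ → ℕ → Prop) (n : ℕ) (hn : n ≤ N + 1) :
    Kept (strikes N A) n ↔ n.Prime := by
  induction n using Nat.strong_induction_on with
  | _ n ih =>
    rw [← kept_dvd, kept_iff, kept_iff]
    constructor
    · rintro ⟨h2, h⟩
      refine ⟨h2, fun m hm hk hd => h m hm ?_ (Or.inl ⟨by omega, hd⟩)⟩
      rw [ih m hm (by omega), ← kept_dvd]; exact hk
    · rintro ⟨h2, h⟩
      refine ⟨h2, fun m hm hk hd => ?_⟩
      rcases hd with ⟨h3, h4⟩ | ⟨h3, h4⟩
      · refine h m hm ?_ h4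
        rw [kept_dvd, ← ih m hm (by omega)]; exact hk
      · omega

theorem kept_large (N : ℕ) (A : ℕ → ℕ → Prop) (n : ℕ) (hn : N + 2 ≤ n) :
    Kept (strikes N A) n ↔ (primorial N).Coprime n ∧
      ∀ m, N < m → m < n → Kept (strikes N A) m → ¬ A m n := by
  rw [kept_iff]
  constructor
  · rintro ⟨h2, h⟩
    constructor
    · rw [primorial, Nat.coprime_prod_left_iff]
      intro p hp
      rw [Finset.mem_filter, Finset.mem_range] at hp
      rw [hp.2.coprime_iff_not_dvd]
      intro hd
      refine h p (by omega) ?_ (Or.inl ⟨by omega, hd⟩)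
      rw [kept_small N A p (by omega)]; exact hp.2
    · intro m h1 h3 h4 h5
      exact h m h3 h4 (Or.inr ⟨h1, h5⟩)
  · rintro ⟨h1, h2⟩
    refine ⟨by omega, fun m hm hk hd => ?_⟩
    rcases hd with ⟨h3, h4⟩ | ⟨h3, h4⟩
    · rw [kept_small N A m (by omega)] at hk
      rw [primorial, Nat.coprime_prod_left_iff] at h1
      have := h1 m (by rw [Finset.mem_filter, Finset.mem_range]; exact ⟨by omega, hk⟩)
      rw [hk.coprime_iff_not_dvd] at this
      exact this h4
    · exact h2 m h3 hm hk h4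

variable {Ω : Type*} [m0 : MeasurableSpace Ω]

/-- the sigma-algebra generated by the strikes in `S` -/
def gen (A : ℕ → ℕ → Set Ω) (S : Set (ℕ × ℕ)) : MeasurableSpace Ω :=
  MeasurableSpace.generateFrom {t | ∃ q ∈ S, A q.1 q.2 = t}

/-- past of the strikes -/
def filt (A : ℕ → ℕ → Set Ω) (hA : ∀ m n, MeasurableSet (A m n)) : Filtration ℕ m0 where
  seq n := MeasurableSpace.generateFrom {t | ∃ q ∈ {q : ℕ × ℕ | q.2 ≤ n}, A q.1 q.2 = t}
  mono' := by
    intro a b hab
    apply MeasurableSpace.generateFrom_mono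
    rintro t ⟨q, hq, rfl⟩
    exact ⟨q, le_trans hq hab, rfl⟩
  le' := by
    intro n
    apply MeasurableSpace.generateFrom_le
    rintro t ⟨q, hq, rfl⟩
    exact hA _ _

/-- the `0`-`1` function of the integers coprime to the primes up to `N` -/
noncomputable def cop (N n : ℕ) : ℝ := if (primorial N).Coprime n then 1 else 0

/-- the predictable density of the sieve -/
noncomputable def sdens (N : ℕ) (A : ℕ → ℕ → Set Ω) (n : ℕ) (ω : Ω) : ℝ :=
  if n ≤ N + 1 then (if n.Prime then 1 else 0)
  else cop N n * ∏ m ∈ Finset.Ioo N n, (1 - ind (sieveSet N A) m ω / m)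

namespace Sieve

variable {μ : Measure Ω} [IsProbabilityMeasure μ] {N : ℕ} {A : ℕ → ℕ → Set Ω}

theorem mem_filt (hA : ∀ m n, MeasurableSet (A m n)) {m n k : ℕ} (h : n ≤ k) :
    MeasurableSet[filt A hA k] (A m n) :=
  MeasurableSpace.measurableSet_generateFrom ⟨(m, n), h, rfl⟩

theorem adapted (hA : ∀ m n, MeasurableSet (A m n)) (n : ℕ) :
    MeasurableSet[filt A hA n] {ω | n ∈ sieveSet N A ω} := by
  induction n using Nat.strong_induction_on with
  | _ n ih =>
    by_cases hn : n ≤ N + 1
    · have : {ω | n ∈ sieveSet N A ω} = {ω | n.Prime} := by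
        ext ω
        exact kept_small N _ n hn
      rw [this]
      exact @MeasurableSet.const _ (filt A hA n) _
    · have : {ω | n ∈ sieveSet N A ω} = {ω | (primorial N).Coprime n} ∩
          ⋂ m ∈ Finset.Ioo N n, ({ω | m ∈ sieveSet N A ω} ∩ A m n)ᶜ := by
        ext ω
        have h1 := kept_large N (fun m n => ω ∈ A m n) n (by omega)
        simp only [Set.mem_inter_iff, Set.mem_iInter, Finset.mem_Ioo, Set.mem_compl_iff,
          Set.mem_ofPred_eq, not_and]
        constructor
        · intro h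
          obtain ⟨h2, h3⟩ := h1.1 h
          exact ⟨h2, fun m hm h4 => h3 m hm.1 hm.2 h4⟩
        · rintro ⟨h2, h3⟩
          exact h1.2 ⟨h2, fun m h4 h5 h6 => h3 m ⟨h4, h5⟩ h6⟩
      rw [this]
      apply MeasurableSet.inter
      · exact @MeasurableSet.const _ (filt A hA n) _
      · apply Finset.measurableSet_biInter
        intro m hm
        rw [Finset.mem_Ioo] at hm
        apply MeasurableSet.compl
        apply MeasurableSet.inter
        · exact (filt A hA).mono hm.2.le _ (ih m hm.2)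
        · exact mem_filt hA le_rfl

theorem ind_meas (hA : ∀ m n, MeasurableSet (A m n)) {n k : ℕ} (h : n ≤ k) :
    Measurable[filt A hA k] (ind (sieveSet N A) n) := by
  have h1 : MeasurableSet[filt A hA k] {ω | n ∈ sieveSet N A ω} :=
    (filt A hA).mono h _ (adapted hA n)
  exact Measurable.indicator measurable_const h1

theorem one_not_mem (ω : Ω) : 1 ∉ sieveSet N A ω := by
  intro h
  have := ((kept_iff _ _).1 h).1
  omega

theorem factor_bounds (m : ℕ) (ω : Ω) : 1 / 2 ≤ 1 - ind (sieveSet N A) m ω / m ∧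
    1 - ind (sieveSet N A) m ω / m ≤ 1 := by
  by_cases h : m ∈ sieveSet N A ω
  · have h2 : 2 ≤ m := ((kept_iff _ _).1 h).1
    have h3 : (2 : ℝ) ≤ m := by exact_mod_cast h2
    rw [Dens.ind_of_mem h]
    have h4 : 1 / (m : ℝ) ≤ 1 / 2 := one_div_le_one_div_of_le (by norm_num) h3
    have h5 : 0 ≤ 1 / (m : ℝ) := by positivity
    constructor <;> linarith
  · rw [Dens.ind_of_not h]; norm_num

theorem prod_nonneg (B : Finset ℕ) (ω : Ω) :
    0 ≤ ∏ m ∈ B, (1 - ind (sieveSet N A) m ω / m) :=
  Finset.prod_nonneg (fun m _ => by linarith [(factor_bounds (N := N) (A := A) m ω).1])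

theorem prod_le_one (B : Finset ℕ) (ω : Ω) :
    ∏ m ∈ B, (1 - ind (sieveSet N A) m ω / m) ≤ 1 :=
  Finset.prod_le_one (fun m _ => by linarith [(factor_bounds (N := N) (A := A) m ω).1])
    (fun m _ => (factor_bounds m ω).2)

theorem cop_nonneg (n : ℕ) : 0 ≤ cop N n := by unfold cop; split_ifs <;> norm_num
theorem cop_le_one (n : ℕ) : cop N n ≤ 1 := by unfold cop; split_ifs <;> norm_num

/-- independence -/
theorem indep_step (hA : ∀ m n, MeasurableSet (A m n))
    (hI : iIndepSet (fun q : ℕ × ℕ => A q.1 q.2) μ) (S : Set (ℕ × ℕ)) (q0 : ℕ × ℕ) (hq : q0 ∉ S)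
    (Z : Ω → ℝ)
    (hZ : Measurable[gen A S] Z)
    (hb : ∃ C, ∀ ω, |Z ω| ≤ C) :
    ∫ ω, Z ω * (A q0.1 q0.2).indicator (fun _ => (1 : ℝ)) ω ∂μ =
      μ.real (A q0.1 q0.2) * ∫ ω, Z ω ∂μ := by
  have h1 := iIndepSet.indep_generateFrom_of_disjoint (s := fun q : ℕ × ℕ => A q.1 q.2)
    (fun q => hA _ _) hI S {q0} (by simpa using hq)
  have hgen : gen A S ≤ m0 := by
    apply MeasurableSpace.generateFrom_le
    rintro t ⟨q, hq, rfl⟩
    exact hA _ _
  have hgen2 : MeasurableSpace.generateFrom {t | ∃ q ∈ ({q0} : Set (ℕ × ℕ)), A q.1 q.2 = t} ≤ m0 := by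
    apply MeasurableSpace.generateFrom_le
    rintro t ⟨q, hq, rfl⟩
    exact hA _ _
  have hX : Measurable[MeasurableSpace.generateFrom
      {t | ∃ q ∈ ({q0} : Set (ℕ × ℕ)), A q.1 q.2 = t}]
      ((A q0.1 q0.2).indicator (fun _ => (1 : ℝ))) := by
    apply Measurable.indicator measurable_const
    exact MeasurableSpace.measurableSet_generateFrom ⟨q0, rfl, rfl⟩
  have hind : IndepFun Z ((A q0.1 q0.2).indicator (fun _ => (1 : ℝ))) μ := by
    rw [IndepFun_iff_Indep]
    exact indep_of_indep_of_le_left (indep_of_indep_of_le_right h1 hX.comap_le) hZ.comap_le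
  rw [hind.integral_fun_mul_eq_mul_integral
    (hZ.mono hgen le_rfl).aestronglyMeasurable (hX.mono hgen2 le_rfl).aestronglyMeasurable]
  rw [integral_indicator_const _ (hA _ _)]
  simp [mul_comm]

/-- the main computation -/
theorem strike_prod (hA : ∀ m n, MeasurableSet (A m n))
    (hI : iIndepSet (fun q : ℕ × ℕ => A q.1 q.2) μ)
    (hP : ∀ m n, N < m → m < n → μ.real (A m n) = 1 / m) {n : ℕ} (hn : 1 ≤ n) (B : Finset ℕ)
    (hB : ∀ m ∈ B, N < m ∧ m < n) :
    ∀ Z : Ω → ℝ, Measurable[filt A hA (n - 1)] Z → (∃ C, ∀ ω, |Z ω| ≤ C) →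
    ∫ ω, Z ω * ∏ m ∈ B, (1 - ind (sieveSet N A) m ω * (A m n).indicator (fun _ => (1 : ℝ)) ω) ∂μ =
    ∫ ω, Z ω * ∏ m ∈ B, (1 - ind (sieveSet N A) m ω / m) ∂μ := by
  classical
  induction B using Finset.induction_on with
  | empty => intro Z hZ hb; simp
  | insert m1 B hm1 ih =>
    intro Z hZ hb
    have hB' : ∀ m ∈ B, N < m ∧ m < n := fun m hm => hB m (Finset.mem_insert_of_mem hm)
    have hm1n := hB m1 (Finset.mem_insert_self _ _)
    have ih' := ih hB'
    set S : Set (ℕ × ℕ) := {q | q.2 ≤ n - 1} ∪ {q | q.2 = n ∧ q.1 ∈ B} with hS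
    have hle1 : (filt A hA (n - 1)) ≤ gen A S := by
      apply MeasurableSpace.generateFrom_mono
      rintro t ⟨q, hq, rfl⟩
      exact ⟨q, Or.inl hq, rfl⟩
    have hle0 : gen A S ≤ m0 := by
      apply MeasurableSpace.generateFrom_le
      rintro t ⟨q, hq, rfl⟩
      exact hA _ _
    have hAB : ∀ m ∈ B, MeasurableSet[gen A S] (A m n) := fun m hm =>
      MeasurableSpace.measurableSet_generateFrom ⟨(m, n), Or.inr ⟨rfl, hm⟩, rfl⟩
    set PR : Ω → ℝ := fun ω => ∏ m ∈ B,
      (1 - ind (sieveSet N A) m ω * (A m n).indicator (fun _ => (1 : ℝ)) ω) with hPR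
    have hPRm : Measurable[gen A S] PR := by
      apply Finset.measurable_fun_prod
      intro m hm
      have h1 : Measurable[gen A S] (ind (sieveSet N A) m) :=
        (ind_meas hA (show m ≤ n - 1 by have := (hB' m hm).2; omega)).mono hle1 le_rfl
      have h2 : Measurable[gen A S] ((A m n).indicator (fun _ => (1 : ℝ))) :=
        Measurable.indicator measurable_const (hAB m hm)
      exact measurable_const.sub (h1.mul h2)
    have hfac : ∀ (m : ℕ) (ω : Ω), 0 ≤ ind (sieveSet N A) m ω *
        (A m n).indicator (fun _ => (1 : ℝ)) ω ∧ ind (sieveSet N A) m ω *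
        (A m n).indicator (fun _ => (1 : ℝ)) ω ≤ 1 := by
      intro m ω
      have h1 := Dens.ind_nonneg (R := sieveSet N A) m ω
      have h2 := Dens.ind_le_one (R := sieveSet N A) m ω
      have h3 : 0 ≤ (A m n).indicator (fun _ => (1 : ℝ)) ω :=
        Set.indicator_nonneg (fun _ _ => zero_le_one) _
      have h4 : (A m n).indicator (fun _ => (1 : ℝ)) ω ≤ 1 :=
        Set.indicator_le_self' (fun _ _ => zero_le_one) _
      exact ⟨mul_nonneg h1 h3, mul_le_one₀ h2 h3 h4⟩
    have hPR0 : ∀ ω, 0 ≤ PR ω := fun ω => Finset.prod_nonneg (fun m _ => by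
      linarith [(hfac m ω).2])
    have hPR1 : ∀ ω, PR ω ≤ 1 := fun ω => Finset.prod_le_one (fun m _ => by
      linarith [(hfac m ω).2]) (fun m _ => by linarith [(hfac m ω).1])
    obtain ⟨C, hC⟩ := hb
    have hZG : Measurable[gen A S] Z := hZ.mono hle1 le_rfl
    have hi1 : Measurable[filt A hA (n - 1)] (ind (sieveSet N A) m1) :=
      ind_meas hA (by omega)
    set Y : Ω → ℝ := fun ω => Z ω * ind (sieveSet N A) m1 ω * PR ω with hY
    have hYm : Measurable[gen A S] Y := (hZG.mul (hi1.mono hle1 le_rfl)).mul hPRm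
    have hYb : ∀ ω, |Y ω| ≤ C := by
      intro ω
      rw [hY]
      simp only
      rw [abs_mul, abs_mul, abs_of_nonneg (Dens.ind_nonneg m1 ω), abs_of_nonneg (hPR0 ω)]
      have h1 := hC ω
      have h2 := Dens.ind_le_one (R := sieveSet N A) m1 ω
      have h2' := Dens.ind_nonneg (R := sieveSet N A) m1 ω
      have h3 := hPR1 ω
      have h4 := hPR0 ω
      have h5 := abs_nonneg (Z ω)
      calc |Z ω| * ind (sieveSet N A) m1 ω * PR ω ≤ |Z ω| * 1 * 1 := by gcongr
        _ ≤ C := by linarith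
    have hstep := indep_step (μ := μ) hA hI S (m1, n) (by
      rw [hS]
      simp only [Set.mem_union, Set.mem_ofPred_eq, not_or, not_and]
      exact ⟨by omega, fun _ => hm1⟩) Y hYm ⟨C, hYb⟩
    simp only at hstep
    rw [hP m1 n hm1n.1 hm1n.2] at hstep
    -- integrability
    have hZPRm : Measurable[gen A S] (fun ω => Z ω * PR ω) := hZG.mul hPRm
    have hI1 : Integrable (fun ω => Z ω * PR ω) μ := by
      apply Dens.integrable_of _ (hZPRm.mono hle0 le_rfl)
      refine ⟨C, fun ω => ?_⟩
      rw [abs_mul, abs_of_nonneg (hPR0 ω)]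
      have := hC ω
      have h5 := abs_nonneg (Z ω)
      nlinarith [hPR1 ω, hPR0 ω]
    have hI2 : Integrable (fun ω => Y ω * (A m1 n).indicator (fun _ => (1 : ℝ)) ω) μ := by
      apply Dens.integrable_of _ ((hYm.mono hle0 le_rfl).mul
        (Measurable.indicator measurable_const (hA m1 n)))
      refine ⟨C, fun ω => ?_⟩
      change |Y ω * (A m1 n).indicator (fun _ => (1 : ℝ)) ω| ≤ C
      have h3 : 0 ≤ (A m1 n).indicator (fun _ => (1 : ℝ)) ω :=
        Set.indicator_nonneg (fun _ _ => zero_le_one) _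
      have h4 : (A m1 n).indicator (fun _ => (1 : ℝ)) ω ≤ 1 :=
        Set.indicator_le_self' (fun _ _ => zero_le_one) _
      rw [abs_mul, abs_of_nonneg h3]
      have := hYb ω
      have h5 := abs_nonneg (Y ω)
      nlinarith
    have hI3 : Integrable (fun ω => (1 / (m1 : ℝ)) * Y ω) μ :=
      (Dens.integrable_of _ (hYm.mono hle0 le_rfl) ⟨C, hYb⟩).const_mul _
    set Z' : Ω → ℝ := fun ω => Z ω * (1 - ind (sieveSet N A) m1 ω / m1) with hZ'
    have hZ'm : Measurable[filt A hA (n - 1)] Z' :=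
      hZ.mul (measurable_const.sub (hi1.div_const _))
    have hZ'b : ∃ C, ∀ ω, |Z' ω| ≤ C := by
      refine ⟨C, fun ω => ?_⟩
      rw [hZ']
      simp only
      have h1 := factor_bounds (N := N) (A := A) m1 ω
      rw [abs_mul, abs_of_nonneg (show 0 ≤ 1 - ind (sieveSet N A) m1 ω / m1 by linarith [h1.1])]
      have := hC ω
      have h5 := abs_nonneg (Z ω)
      nlinarith [h1.1, h1.2]
    calc ∫ ω, Z ω * ∏ m ∈ insert m1 B,
          (1 - ind (sieveSet N A) m ω * (A m n).indicator (fun _ => (1 : ℝ)) ω) ∂μ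
        = ∫ ω, (Z ω * PR ω - Y ω * (A m1 n).indicator (fun _ => (1 : ℝ)) ω) ∂μ := by
          apply integral_congr_ae
          refine ae_of_all _ (fun ω => ?_)
          change Z ω * ∏ m ∈ insert m1 B, _ = _
          rw [Finset.prod_insert hm1]
          simp only [hY, hPR]
          ring
      _ = ∫ ω, Z ω * PR ω ∂μ - ∫ ω, Y ω * (A m1 n).indicator (fun _ => (1 : ℝ)) ω ∂μ :=
          integral_sub hI1 hI2
      _ = ∫ ω, Z ω * PR ω ∂μ - ∫ ω, (1 / (m1 : ℝ)) * Y ω ∂μ := by
          rw [hstep, integral_const_mul]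
      _ = ∫ ω, (Z ω * PR ω - (1 / (m1 : ℝ)) * Y ω) ∂μ := (integral_sub hI1 hI3).symm
      _ = ∫ ω, Z' ω * PR ω ∂μ := by
          apply integral_congr_ae
          refine ae_of_all _ (fun ω => ?_)
          simp only [hY, hZ']
          ring
      _ = ∫ ω, Z' ω * ∏ m ∈ B, (1 - ind (sieveSet N A) m ω / m) ∂μ := ih' Z' hZ'm hZ'b
      _ = _ := by
          apply integral_congr_ae
          refine ae_of_all _ (fun ω => ?_)
          change _ = Z ω * ∏ m ∈ insert m1 B, _
          rw [Finset.prod_insert hm1]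
          simp only [hZ']
          ring

theorem ind_eq (n : ℕ) (hn : N + 2 ≤ n) (ω : Ω) :
    ind (sieveSet N A) n ω = cop N n * ∏ m ∈ Finset.Ioo N n,
      (1 - ind (sieveSet N A) m ω * (A m n).indicator (fun _ => (1 : ℝ)) ω) := by
  have h1 := kept_large N (fun m n => ω ∈ A m n) n hn
  by_cases hk : n ∈ sieveSet N A ω
  · rw [Dens.ind_of_mem hk]
    obtain ⟨h2, h3⟩ := h1.1 hk
    rw [cop, if_pos h2, one_mul]
    symm
    apply Finset.prod_eq_one
    intro m hm
    rw [Finset.mem_Ioo] at hm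
    by_cases h4 : m ∈ sieveSet N A ω
    · rw [Set.indicator_of_notMem (h3 m hm.1 hm.2 h4)]; ring
    · rw [Dens.ind_of_not h4]; ring
  · rw [Dens.ind_of_not hk]
    by_cases h2 : (primorial N).Coprime n
    · have h3 : ¬ ∀ m, N < m → m < n → Kept (strikes N (fun m n => ω ∈ A m n)) m → ¬ ω ∈ A m n :=
        fun h => hk (h1.2 ⟨h2, h⟩)
      push Not at h3
      obtain ⟨m, h4, h5, h6, h7⟩ := h3
      symm
      have : ∏ m ∈ Finset.Ioo N n, (1 - ind (sieveSet N A) m ω *
          (A m n).indicator (fun _ => (1 : ℝ)) ω) = 0 := by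
        apply Finset.prod_eq_zero (Finset.mem_Ioo.2 ⟨h4, h5⟩)
        rw [Dens.ind_of_mem (show m ∈ sieveSet N A ω from h6), Set.indicator_of_mem h7]; ring
      rw [this, mul_zero]
    · rw [cop, if_neg h2, zero_mul]

theorem dens (hA : ∀ m n, MeasurableSet (A m n))
    (hI : iIndepSet (fun q : ℕ × ℕ => A q.1 q.2) μ)
    (hP : ∀ m n, N < m → m < n → μ.real (A m n) = 1 / m) :
    Dens μ (filt A hA) (sieveSet N A) (sdens N A) where
  adapted := adapted hA
  meas := fun n hn => by
    by_cases h : n ≤ N + 1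
    · have : sdens N A n = fun _ => if n.Prime then (1 : ℝ) else 0 := by
        ext ω; rw [sdens, if_pos h]
      rw [this]; exact measurable_const
    · have : sdens N A n = fun ω => cop N n *
          ∏ m ∈ Finset.Ioo N n, (1 - ind (sieveSet N A) m ω / m) := by
        ext ω; rw [sdens, if_neg h]
      rw [this]
      apply Measurable.const_mul
      apply Finset.measurable_fun_prod
      intro m hm
      rw [Finset.mem_Ioo] at hm
      exact measurable_const.sub ((ind_meas hA (by omega)).div_const _)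
  nonneg := fun n ω => by
    rw [sdens]
    split_ifs
    · exact zero_le_one
    · exact le_rfl
    · exact mul_nonneg (cop_nonneg n) (prod_nonneg _ ω)
  le_one := fun n ω => by
    rw [sdens]
    split_ifs
    · exact le_rfl
    · exact zero_le_one
    · exact mul_le_one₀ (cop_le_one n) (prod_nonneg _ ω) (prod_le_one _ ω)
  dens := fun n hn Z hZ hb => by
    by_cases h : n ≤ N + 1
    · apply integral_congr_ae
      refine ae_of_all _ (fun ω => ?_)
      simp only
      congr 1
      rw [sdens, if_pos h]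
      have h1 := kept_small N (fun m n => ω ∈ A m n) n h
      by_cases h2 : n.Prime
      · rw [if_pos h2, Dens.ind_of_mem (show n ∈ sieveSet N A ω from h1.2 h2)]
      · rw [if_neg h2, Dens.ind_of_not (show n ∉ sieveSet N A ω from fun h3 => h2 (h1.1 h3))]
    · have hcZ : Measurable[filt A hA (n - 1)] (fun ω => Z ω * cop N n) := hZ.mul_const _
      obtain ⟨C, hC⟩ := hb
      have hcb : ∃ C, ∀ ω, |Z ω * cop N n| ≤ C := by
        refine ⟨C, fun ω => ?_⟩
        rw [abs_mul, abs_of_nonneg (cop_nonneg n)]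
        have := hC ω
        have h5 := abs_nonneg (Z ω)
        nlinarith [cop_nonneg (N := N) n, cop_le_one (N := N) n]
      have h1 := strike_prod (μ := μ) hA hI hP hn (Finset.Ioo N n)
        (fun m hm => Finset.mem_Ioo.1 hm) _ hcZ hcb
      calc ∫ ω, Z ω * ind (sieveSet N A) n ω ∂μ
          = ∫ ω, (Z ω * cop N n) * ∏ m ∈ Finset.Ioo N n, (1 - ind (sieveSet N A) m ω *
              (A m n).indicator (fun _ => (1 : ℝ)) ω) ∂μ := by
            apply integral_congr_ae
            refine ae_of_all _ (fun ω => ?_)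
            simp only
            rw [ind_eq n (by omega) ω]; ring
        _ = _ := h1
        _ = _ := by
            apply integral_congr_ae
            refine ae_of_all _ (fun ω => ?_)
            simp only
            rw [sdens, if_neg h]; ring

end Sieve

end Pool.Agent.Lib.MP_926cc3_nt.RS
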