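import Pool.Agent.Lib.MP_926cc3_nt.RS.Lower

set_option autoImplicit false
set_option linter.unusedSectionVars false
set_option linter.unusedVariables false

open Filter Topology MeasureTheory

namespace Pool.Agent.Lib.MP_926cc3_nt.RS

variable {Ω : Type*} [m0 : MeasurableSpace Ω]

theorem upper_mono {S : Set ℕ} {ε ε' : ℝ} (h0 : 0 < ε) (hle : ε ≤ ε')
    (h : ∀ᶠ a : ℕ in atTop, ∃ n ∈ S, a ≤ n ∧ n < a + ⌊(1 + ε) * Real.log a ^ 2⌋₊) :
    ∀ᶠ a : ℕ in atTop, ∃ n ∈ S, a ≤ n ∧ n < a + ⌊(1 + ε') * Real.log a ^ 2⌋₊ := by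
  filter_upwards [h] with a ha
  obtain ⟨n, h1, h2, h3⟩ := ha
  refine ⟨n, h1, h2, lt_of_lt_of_le h3 ?_⟩
  have : ⌊(1 + ε) * Real.log a ^ 2⌋₊ ≤ ⌊(1 + ε') * Real.log a ^ 2⌋₊ := by
    apply Nat.floor_le_floor
    have := sq_nonneg (Real.log (a : ℝ))
    nlinarith
  omega

theorem lower_mono {S : Set ℕ} {ε ε' : ℝ} (hle : ε ≤ ε')
    (h : ∀ᶠ x : ℕ in atTop, ∃ a : ℕ, x ≤ a ∧ a ≤ 2 * x ∧
      ∀ n, a ≤ n → n < a + ⌊(1 - ε) * Real.log x ^ 2⌋₊ → n ∉ S) :
    ∀ᶠ x : ℕ in atTop, ∃ a : ℕ, x ≤ a ∧ a ≤ 2 * x ∧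
      ∀ n, a ≤ n → n < a + ⌊(1 - ε') * Real.log x ^ 2⌋₊ → n ∉ S := by
  filter_upwards [h] with x hx
  obtain ⟨a, h1, h2, h3⟩ := hx
  refine ⟨a, h1, h2, fun n hn1 hn2 => h3 n hn1 (lt_of_lt_of_le hn2 ?_)⟩
  have : ⌊(1 - ε') * Real.log x ^ 2⌋₊ ≤ ⌊(1 - ε) * Real.log x ^ 2⌋₊ := by
    apply Nat.floor_le_floor
    have := sq_nonneg (Real.log (x : ℝ))
    nlinarith
  omega

/-- existence of `κ` -/
theorem exists_kappa {t : ℝ} (ht : 1 < t) : ∃ κ : ℝ, 0 < κ ∧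
    ∀ x : ℝ, 0 ≤ x → x ≤ κ → 1 ≤ Real.exp (t * x) * (1 - x) := by
  refine ⟨1 - 1 / t, by
    have : 1 / t < 1 := by rw [div_lt_one (by linarith)]; exact ht
    linarith, fun x h0 h1 => ?_⟩
  have ht0 : 0 < t := by linarith
  have h2 : x * t ≤ t - 1 := by
    have : x * t ≤ (1 - 1 / t) * t := mul_le_mul_of_nonneg_right h1 ht0.le
    have h3 : (1 - 1 / t) * t = t - 1 := by field_simp
    linarith
  have h3 : 1 + t * x ≤ Real.exp (t * x) := by
    have := Real.add_one_le_exp (t * x)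
    linarith
  have h4 : 0 ≤ 1 - x := by
    have : 0 < 1 / t := by positivity
    linarith
  have h5 : (1 + t * x) * (1 - x) ≤ Real.exp (t * x) * (1 - x) :=
    mul_le_mul_of_nonneg_right h3 h4
  nlinarith [mul_nonneg h0 (show 0 ≤ t - 1 - x * t by linarith)]

namespace Dens

variable {μ : Measure Ω} [IsProbabilityMeasure μ] {ℱ : Filtration ℕ m0} {R : Ω → Set ℕ}
  {d : ℕ → Ω → ℝ}

theorem ae_upper (h : Dens μ ℱ R d) {ε : ℝ} (hε : 0 < ε) :
    ∀ᵐ ω ∂μ, Regular (fun n => d n ω) →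
      ∀ᶠ a : ℕ in atTop, ∃ n ∈ R ω, a ≤ n ∧ n < a + ⌊(1 + ε) * Real.log a ^ 2⌋₊ := by
  have hsum : (∑' a : ℕ, μ (EmptyBig R d (a + 1) ((a + 1) + ⌊(1 + ε) * Real.log (a + 1 : ℕ) ^ 2⌋₊)
      ((1 + ε / 2) * Real.log (a + 1 : ℕ)))) ≠ ⊤ := by
    have h1 : Summable (fun a : ℕ => (((a + 1 : ℕ) : ℝ)) ^ (-(1 + ε / 2))) := by
      have := (Real.summable_nat_rpow (p := -(1 + ε / 2))).2 (by linarith)
      exact (summable_nat_add_iff 1).2 this
    refine ne_top_of_le_ne_top h1.tsum_ofReal_ne_top (ENNReal.tsum_le_tsum (fun a => ?_))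
    refine (h.measure_emptyBig (by omega) (by omega) _).trans (ENNReal.ofReal_le_ofReal ?_)
    rw [Real.rpow_def_of_pos (by positivity)]
    apply le_of_eq
    congr 1
    ring
  filter_upwards [ae_eventually_notMem hsum] with ω h1 h2
  have h3 := h2 (1 + ε) (by linarith)
  have h4 := h3.eventually (lt_mem_nhds (show 1 + ε / 2 < 1 + ε by linarith))
  have h5 : ∀ᶠ a : ℕ in atTop, ω ∉ EmptyBig R d a (a + ⌊(1 + ε) * Real.log a ^ 2⌋₊)
      ((1 + ε / 2) * Real.log a) := by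
    rw [eventually_atTop] at h1 ⊢
    obtain ⟨b, hb⟩ := h1
    refine ⟨b + 1, fun a ha => ?_⟩
    have := hb (a - 1) (by omega)
    have e : a - 1 + 1 = a := by omega
    rwa [e] at this
  filter_upwards [h4, h5, eventually_gt_atTop 1] with a h6 h7 h8
  have hlog : 0 < Real.log a := Real.log_pos (by exact_mod_cast h8)
  by_contra hcon
  apply h7
  refine ⟨fun n h9 h10 h11 => hcon ⟨n, h11, h9, h10⟩, ?_⟩
  rw [lt_div_iff₀ hlog] at h6
  exact h6.le

theorem asym {ε : ℝ} (hε : 0 < ε) (hε1 : ε < 1) : ∀ᶠ x : ℕ in atTop,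
    (1 - Real.exp (-((1 - ε / 4) * Real.log x))) ^ (x / (⌊(1 - ε) * Real.log x ^ 2⌋₊ + 1)) ≤
      (x : ℝ) ^ (-(2 : ℝ)) := by
  have hlittle : ∀ r : ℝ, 0 < r → ∀ᶠ x : ℕ in atTop, Real.log (x : ℝ) ≤ (x : ℝ) ^ r := by
    intro r hr
    have := (isLittleO_log_rpow_atTop hr).bound one_pos
    have h2 := tendsto_natCast_atTop_atTop (R := ℝ) |>.eventually this
    filter_upwards [h2, eventually_ge_atTop 1] with x hx hx1
    rw [one_mul, Real.norm_eq_abs, Real.norm_eq_abs] at hx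
    have hx1' : (1 : ℝ) ≤ x := by exact_mod_cast hx1
    rw [abs_of_nonneg (Real.log_nonneg hx1'), abs_of_nonneg (by positivity)] at hx
    exact hx
  have hlarge : ∀ r : ℝ, 0 < r → ∀ C : ℝ, ∀ᶠ x : ℕ in atTop, C ≤ (x : ℝ) ^ r := by
    intro r hr C
    exact ((tendsto_rpow_atTop hr).comp tendsto_natCast_atTop_atTop).eventually_ge_atTop C
  -- log² x + 1 ≤ x^{ε/8}, 2 log x + 1 ≤ x^{ε/8}
  have h1 : ∀ᶠ x : ℕ in atTop, Real.log (x : ℝ) ^ 2 + 1 ≤ (x : ℝ) ^ (ε / 8) := by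
    filter_upwards [hlittle (ε / 32) (by linarith), hlarge (ε / 16) (by linarith) 2,
      eventually_ge_atTop 1] with x hx1 hx2 hx3
    have hx3' : (1 : ℝ) ≤ x := by exact_mod_cast hx3
    have hpos : (0 : ℝ) < x := by linarith
    have h0 : 0 ≤ Real.log (x : ℝ) := Real.log_nonneg hx3'
    have e1 : ((x : ℝ) ^ (ε / 32)) ^ 2 = (x : ℝ) ^ (ε / 16) := by
      rw [← Real.rpow_natCast, ← Real.rpow_mul hpos.le]
      congr 1; push_cast; ring
    have e2 : (x : ℝ) ^ (ε / 8) = (x : ℝ) ^ (ε / 16) * (x : ℝ) ^ (ε / 16) := by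
      rw [← Real.rpow_add hpos]; congr 1; ring
    have h4 : Real.log (x : ℝ) ^ 2 ≤ (x : ℝ) ^ (ε / 16) := by
      rw [← e1]; gcongr
    rw [e2]
    nlinarith
  have h2 : ∀ᶠ x : ℕ in atTop, 2 * Real.log (x : ℝ) + 1 ≤ (x : ℝ) ^ (ε / 8) := by
    have h7 : Tendsto (fun x : ℕ => Real.log (x : ℝ)) atTop atTop :=
      Real.tendsto_log_atTop.comp tendsto_natCast_atTop_atTop
    filter_upwards [h1, h7.eventually_ge_atTop 2] with x hx hx1
    nlinarith
  filter_upwards [h1, h2, eventually_ge_atTop 2] with x hx1 hx2 hx3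
  have hx3' : (2 : ℝ) ≤ x := by exact_mod_cast hx3
  have hpos : (0 : ℝ) < x := by linarith
  have hlog : 0 < Real.log (x : ℝ) := Real.log_pos (by linarith)
  set L := ⌊(1 - ε) * Real.log x ^ 2⌋₊ with hL
  have hL1 : ((L + 1 : ℕ) : ℝ) ≤ (x : ℝ) ^ (ε / 8) := by
    push_cast
    have : (L : ℝ) ≤ (1 - ε) * Real.log x ^ 2 := Nat.floor_le (by
      apply mul_nonneg (by linarith) (sq_nonneg _))
    nlinarith [sq_nonneg (Real.log (x : ℝ))]
  have hN : (x : ℝ) / ((L + 1 : ℕ) : ℝ) - 1 ≤ ((x / (L + 1) : ℕ) : ℝ) := by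
    have := Nat.lt_div_mul_add (a := x) (b := L + 1) (Nat.succ_pos L)
    have h3 : (x : ℝ) < ((x / (L + 1) : ℕ) : ℝ) * ((L + 1 : ℕ) : ℝ) + ((L + 1 : ℕ) : ℝ) := by
      exact_mod_cast this
    rw [sub_le_iff_le_add, div_le_iff₀ (by positivity)]
    linarith
  set N := x / (L + 1) with hNdef
  have hq : Real.exp (-((1 - ε / 4) * Real.log x)) = (x : ℝ) ^ (-(1 - ε / 4)) := by
    rw [Real.rpow_def_of_pos hpos]; congr 1; ring
  set q := Real.exp (-((1 - ε / 4) * Real.log x)) with hqdef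
  have hq0 : 0 < q := Real.exp_pos _
  have hq1 : q ≤ 1 := Real.exp_le_one_iff.2 (by nlinarith)
  have hpow : (1 - q) ^ N ≤ Real.exp (-(q * N)) := by
    have h3 : 1 - q ≤ Real.exp (-q) := Real.one_sub_le_exp_neg q
    calc (1 - q) ^ N ≤ Real.exp (-q) ^ N := pow_le_pow_left₀ (by linarith) h3 N
      _ = Real.exp (-(q * N)) := by rw [← Real.exp_nat_mul]; congr 1; ring
  refine hpow.trans ?_
  rw [Real.rpow_def_of_pos hpos]
  apply Real.exp_le_exp.2
  have hmain : 2 * Real.log x ≤ q * N := by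
    have h4 : (x : ℝ) ^ (1 - ε / 8) ≤ (x : ℝ) / ((L + 1 : ℕ) : ℝ) := by
      rw [le_div_iff₀ (by positivity)]
      calc (x : ℝ) ^ (1 - ε / 8) * ((L + 1 : ℕ) : ℝ) ≤ (x : ℝ) ^ (1 - ε / 8) * (x : ℝ) ^ (ε / 8) := by
            gcongr
        _ = x := by
          rw [← Real.rpow_add hpos]
          have : 1 - ε / 8 + ε / 8 = (1 : ℝ) := by ring
          rw [this, Real.rpow_one]
    have h5 : q * ((x : ℝ) ^ (1 - ε / 8) - 1) ≤ q * N :=
      mul_le_mul_of_nonneg_left (by linarith) hq0.le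
    have h6 : q * (x : ℝ) ^ (1 - ε / 8) = (x : ℝ) ^ (ε / 8) := by
      rw [hq, ← Real.rpow_add hpos]; congr 1; ring
    nlinarith
  linarith

theorem ae_lower (h : Dens μ ℱ R d) {ε : ℝ} (hε : 0 < ε) (hε1 : ε < 1) :
    ∀ᵐ ω ∂μ, Tendsto (fun n => d n ω) atTop (𝓝 0) → Regular (fun n => d n ω) →
      ∀ᶠ x : ℕ in atTop, ∃ a : ℕ, x ≤ a ∧ a ≤ 2 * x ∧
      ∀ n, a ≤ n → n < a + ⌊(1 - ε) * Real.log x ^ 2⌋₊ → n ∉ R ω := by
  obtain ⟨κ, hκ0, hκ⟩ := exists_kappa (t := (1 - ε / 4) / (1 - ε / 2)) (by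
    rw [lt_div_iff₀ (by linarith)]; linarith)
  set t := (1 - ε / 4) / (1 - ε / 2) with ht
  have ht0 : 0 < t := div_pos (by linarith) (by linarith)
  set L : ℕ → ℕ := fun x => ⌊(1 - ε) * Real.log x ^ 2⌋₊ with hL
  set F : ℕ → Set Ω := fun x => ⋂ j ∈ Finset.range (x / (L x + 1)),
    (Good R d κ ((1 - ε / 2) * Real.log x) (x + j * L x) (x + j * L x + L x))ᶜ with hF
  have hFm : ∀ᶠ x : ℕ in atTop, μ (F x) ≤ ENNReal.ofReal ((x : ℝ) ^ (-(2 : ℝ))) := by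
    filter_upwards [asym hε hε1, eventually_ge_atTop 1] with x hx hx1
    have hx1' : (1 : ℝ) ≤ x := by exact_mod_cast hx1
    have hs : 0 ≤ (1 - ε / 2) * Real.log x :=
      mul_nonneg (by linarith) (Real.log_nonneg hx1')
    have h1 := (h.measure_blocks (κ := κ) hs ht0.le hκ (L := L x) hx1 (x / (L x + 1))).2
    have e : t * ((1 - ε / 2) * Real.log x) = (1 - ε / 4) * Real.log x := by
      have : (1 - ε / 2) ≠ 0 := by linarith
      rw [ht, ← mul_assoc, div_mul_cancel₀ _ this]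
    rw [e] at h1
    have h2 := h1.trans hx
    rw [← ENNReal.ofReal_toReal (measure_ne_top μ (F x))]
    exact ENNReal.ofReal_le_ofReal h2
  have hsum : (∑' x : ℕ, μ (F x)) ≠ ⊤ := by
    obtain ⟨b, hb⟩ := eventually_atTop.1 hFm
    have h1 : Summable (fun x : ℕ => (x : ℝ) ^ (-(2 : ℝ))) :=
      Real.summable_nat_rpow.2 (by norm_num)
    have h2 := h1.tsum_ofReal_ne_top
    rw [← ENNReal.summable.sum_add_tsum_nat_add' (f := fun x => μ (F x)) (k := b)]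
    apply ENNReal.add_ne_top.2
    constructor
    · exact (ENNReal.sum_lt_top.2 (fun i _ => measure_lt_top μ _)).ne
    · have h3 : Summable (fun x : ℕ => ((x + b : ℕ) : ℝ) ^ (-(2 : ℝ))) :=
        (summable_nat_add_iff b).2 h1
      refine ne_top_of_le_ne_top h3.tsum_ofReal_ne_top (ENNReal.tsum_le_tsum (fun x => ?_))
      exact hb (x + b) (by omega)
  filter_upwards [ae_eventually_notMem hsum] with ω h1 h2 h3
  -- regularity
  have h4 : ∀ᶠ a : ℕ in atTop, d a ω ≤ κ := (h2.eventually (gt_mem_nhds hκ0)).mono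
    (fun a ha => le_of_lt ha)
  have h5 := (h3 (1 - ε) (by linarith)).eventually
    (gt_mem_nhds (show 1 - ε < 1 - ε + ε / 8 by linarith))
  have h6 : ∀ᶠ x : ℕ in atTop, (1 - ε + ε / 8) * (Real.log x + Real.log 2) ≤
      (1 - ε / 2) * Real.log x := by
    have h7 : Tendsto (fun x : ℕ => Real.log (x : ℝ)) atTop atTop :=
      Real.tendsto_log_atTop.comp tendsto_natCast_atTop_atTop
    filter_upwards [h7.eventually_ge_atTop ((1 - ε + ε / 8) * Real.log 2 / (3 * ε / 8))]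
      with x hx
    rw [div_le_iff₀ (by linarith)] at hx
    linarith
  obtain ⟨a0, ha0⟩ := eventually_atTop.1 (h4.and (h5.and (eventually_ge_atTop 2)))
  filter_upwards [h1, h6, eventually_ge_atTop a0, eventually_ge_atTop 2] with x hx1 hx2 hx3 hx4
  have hx4' : (2 : ℝ) ≤ x := by exact_mod_cast hx4
  rw [hF] at hx1
  simp only [Set.mem_iInter, Finset.mem_range, Set.mem_compl_iff, not_forall, not_not] at hx1
  obtain ⟨j, hj, hgood⟩ := hx1
  have hjL : j * L x ≤ x := by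
    calc j * L x ≤ (x / (L x + 1)) * (L x + 1) := Nat.mul_le_mul hj.le (Nat.le_succ _)
      _ ≤ x := Nat.div_mul_le_self _ _
  rcases hgood with hg | hg
  · exact ⟨x + j * L x, by omega, by omega, hg⟩
  · exfalso
    apply hg
    set a := x + j * L x with ha
    have hax : x ≤ a := by omega
    have ha2 : a ≤ 2 * x := by omega
    have haxr : (x : ℝ) ≤ a := by exact_mod_cast hax
    have ha2r : (a : ℝ) ≤ 2 * x := by exact_mod_cast ha2
    refine ⟨fun n hn1 hn2 => (ha0 n (by omega)).1, ?_⟩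
    have hlog : 0 < Real.log a := Real.log_pos (by linarith)
    have h7 := (ha0 a (by omega)).2.1
    rw [div_lt_iff₀ hlog] at h7
    have h8 : L x ≤ ⌊(1 - ε) * Real.log a ^ 2⌋₊ := by
      apply Nat.floor_le_floor
      have h9 : Real.log x ≤ Real.log a := Real.log_le_log (by linarith) haxr
      have h10 : 0 ≤ Real.log (x : ℝ) := Real.log_nonneg (by linarith)
      apply mul_le_mul_of_nonneg_left _ (by linarith)
      gcongr
    have h9 : ∑ n ∈ Finset.Ico a (a + L x), d n ω ≤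
        ∑ n ∈ Finset.Ico a (a + ⌊(1 - ε) * Real.log a ^ 2⌋₊), d n ω := by
      apply Finset.sum_le_sum_of_subset_of_nonneg
      · apply Finset.Ico_subset_Ico_right; omega
      · intro n _ _; exact h.nonneg n ω
    have h10 : Real.log a ≤ Real.log x + Real.log 2 := by
      rw [← Real.log_mul (by linarith) (by norm_num)]
      apply Real.log_le_log (by linarith)
      linarith
    have h11 : (1 - ε + ε / 8) * Real.log a ≤ (1 - ε + ε / 8) * (Real.log x + Real.log 2) :=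
      mul_le_mul_of_nonneg_left h10 (by linarith)
    linarith

/-- UNIVERSALITY: almost surely, Shanks' law holds if the predictable density tends to zero and
is regular. -/
theorem shanks_on (h : Dens μ ℱ R d) : ∀ᵐ ω ∂μ, Tendsto (fun n => d n ω) atTop (𝓝 0) →
    Regular (fun n => d n ω) → ShanksLaw (R ω) := by
  have hU : ∀ᵐ ω ∂μ, ∀ k : ℕ, Regular (fun n => d n ω) → ∀ᶠ a : ℕ in atTop, ∃ n ∈ R ω, a ≤ n ∧
      n < a + ⌊(1 + 1 / ((k : ℝ) + 2)) * Real.log a ^ 2⌋₊ := by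
    rw [ae_all_iff]
    intro k
    exact h.ae_upper (by positivity)
  have hL : ∀ᵐ ω ∂μ, ∀ k : ℕ, Tendsto (fun n => d n ω) atTop (𝓝 0) →
      Regular (fun n => d n ω) → ∀ᶠ x : ℕ in atTop, ∃ a : ℕ, x ≤ a ∧ a ≤ 2 * x ∧
      ∀ n, a ≤ n → n < a + ⌊(1 - 1 / ((k : ℝ) + 2)) * Real.log x ^ 2⌋₊ → n ∉ R ω := by
    rw [ae_all_iff]
    intro k
    refine h.ae_lower (by positivity) ?_
    rw [div_lt_one (by positivity)]
    have : (0 : ℝ) ≤ k := Nat.cast_nonneg k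
    linarith
  have hex : ∀ ε : ℝ, 0 < ε → ∃ k : ℕ, 1 / ((k : ℝ) + 2) ≤ ε := by
    intro ε hε
    obtain ⟨k, hk⟩ := exists_nat_gt (1 / ε)
    refine ⟨k, ?_⟩
    rw [div_le_iff₀ (by positivity)]
    rw [div_lt_iff₀ hε] at hk
    nlinarith
  filter_upwards [hU, hL] with ω h1 h2 H1 H2
  apply Det.shanks
  · intro ε hε
    obtain ⟨k, hk⟩ := hex ε hε
    exact upper_mono (by positivity) hk (h1 k H2)
  · intro ε hε hε1
    obtain ⟨k, hk⟩ := hex ε hε
    exact lower_mono hk (h2 k H1 H2)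

theorem shanks (h : Dens μ ℱ R d) (H1 : ∀ᵐ ω ∂μ, Tendsto (fun n => d n ω) atTop (𝓝 0))
    (H2 : ∀ᵐ ω ∂μ, Regular (fun n => d n ω)) : ∀ᵐ ω ∂μ, ShanksLaw (R ω) := by
  filter_upwards [h.shanks_on, H1, H2] with ω h1 h2 h3
  exact h1 h2 h3

end Dens

end Pool.Agent.Lib.MP_926cc3_nt.RS
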